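import Pool.Agent.P.MP_d0c5d0_lc.Defs

-- part Pool.Agent.P.MP_d0c5d0_lc.Pg
section

/-! Structured programs: finite controls with exit values, sequencing and iteration. -/

namespace Pool.Agent.P.MP_d0c5d0_lc

open Classical

/-- oracle, input, and the condition on the work heads that every configuration must meet -/
structure Ctx (α ι : Type) where
  O : Set (List Bool)
  x : List α
  ok : (ι → ℤ) → Prop

/-- a finite control with exits in `E` -/
structure Pg (α β Γ ι E : Type) where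
  Q : Type
  fin : Finite Q
  s : Q
  ex : Q → Option E
  δ : Q → In α → (ι → Γ) → Set (Eff β Γ ι × Q × Q)

variable {α β Γ ι E F S : Type}

/-- from state `q` and tapes `d` some path exits with `e` and tapes `d'` after exactly `t` steps -/
inductive Ex {Q : Type} (ex : Q → Option E) (δ : Q → In α → (ι → Γ) → Set (Eff β Γ ι × Q × Q))
    (C : Ctx α ι) : Q → Dat β Γ ι → ℕ → E → Dat β Γ ι → Prop where
  | done {q d e} : ex q = some e → C.ok d.hd → Ex ex δ C q d 0 e d
  | step {q d a t e d'} : ex q = none → a ∈ δ q (inp C.x d.ih) d.rd → C.ok d.hd →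
      Ex ex δ C (nxt C.O d a) (d.upd C.x.length a.1) t e d' → Ex ex δ C q d (t + 1) e d'

/-- evaluation within `t` steps -/
def Pg.Ev (P : Pg α β Γ ι E) (C : Ctx α ι) (d : Dat β Γ ι) (t : ℕ) (e : E) (d' : Dat β Γ ι) : Prop :=
  ∃ t' ≤ t, Ex P.ex P.δ C P.s d t' e d'

def Pg.Det (P : Pg α β Γ ι E) : Prop := ∀ q i g, (P.δ q i g).Subsingleton

/-- the effect that changes nothing -/
def nop (g : ι → Γ) : Eff β Γ ι := ⟨g, fun _ => 0, 0, none, Qop.no⟩

theorem upd_nop (n : ℕ) (d : Dat β Γ ι) : d.upd n (nop d.rd) = d := by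
  cases d
  simp [Dat.upd, nop, Dat.rd]

theorem nxt_same {Q : Type} (O : Set (List Bool)) (d : Dat β Γ ι) (e : Eff β Γ ι) (q : Q) :
    nxt O d (e, q, q) = q := by
  simp [nxt]

theorem nxt_map {Q Q' : Type} (O : Set (List Bool)) (d : Dat β Γ ι) (a : Eff β Γ ι × Q × Q)
    (f : Q → Q') : nxt O d (a.1, f a.2.1, f a.2.2) = f (nxt O d a) := by
  unfold nxt; split_ifs <;> rfl

/-- relabel the states of a set of actions -/
def rel {Q Q' : Type} (f : Q → Q') (A : Set (Eff β Γ ι × Q × Q)) : Set (Eff β Γ ι × Q' × Q') :=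
  (fun a => (a.1, f a.2.1, f a.2.2)) '' A

/-- one step chosen in `f`, exit with the chosen value (yes value, no value) -/
def Pg.one [Finite E] (f : In α → (ι → Γ) → Set (Eff β Γ ι × E × E)) : Pg α β Γ ι E where
  Q := Option E
  fin := inferInstance
  s := none
  ex := id
  δ := fun _ i g => rel some (f i g)

def bindEx (P : Pg α β Γ ι E) (K : E → Pg α β Γ ι F) : P.Q ⊕ (Σ e, (K e).Q) → Option F
  | Sum.inl _ => none
  | Sum.inr q => (K q.1).ex q.2

def bindδ (P : Pg α β Γ ι E) (K : E → Pg α β Γ ι F) : P.Q ⊕ (Σ e, (K e).Q) → In α → (ι → Γ) →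
    Set (Eff β Γ ι × (P.Q ⊕ (Σ e, (K e).Q)) × (P.Q ⊕ (Σ e, (K e).Q)))
  | Sum.inl q => fun i g => (P.ex q).elim (rel Sum.inl (P.δ q i g))
      (fun e => {(nop g, Sum.inr ⟨e, (K e).s⟩, Sum.inr ⟨e, (K e).s⟩)})
  | Sum.inr q => fun i g => rel (fun r => Sum.inr ⟨q.1, r⟩) ((K q.1).δ q.2 i g)

/-- run `P`, then `K e` -/
def Pg.bind [Finite E] (P : Pg α β Γ ι E) (K : E → Pg α β Γ ι F) : Pg α β Γ ι F where
  Q := P.Q ⊕ (Σ e, (K e).Q)
  fin := by have := P.fin; have := fun e => (K e).fin; infer_instance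
  s := Sum.inl P.s
  ex := bindEx P K
  δ := bindδ P K

def iterEx (K : S → Pg α β Γ ι (S ⊕ E)) : (Σ s, (K s).Q) ⊕ E → Option E
  | Sum.inl _ => none
  | Sum.inr e => some e

def iterGo (K : S → Pg α β Γ ι (S ⊕ E)) : S ⊕ E → (Σ s, (K s).Q) ⊕ E
  | Sum.inl s => Sum.inl ⟨s, (K s).s⟩
  | Sum.inr e => Sum.inr e

def iterδ (K : S → Pg α β Γ ι (S ⊕ E)) : (Σ s, (K s).Q) ⊕ E → In α → (ι → Γ) →
    Set (Eff β Γ ι × ((Σ s, (K s).Q) ⊕ E) × ((Σ s, (K s).Q) ⊕ E))
  | Sum.inl q => fun i g => ((K q.1).ex q.2).elim (rel (fun r => Sum.inl ⟨q.1, r⟩) ((K q.1).δ q.2 i g))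
      (fun r => {(nop g, iterGo K r, iterGo K r)})
  | Sum.inr _ => fun _ _ => ∅

/-- run `K s`; on exit `inl s'` continue with `K s'`, on exit `inr e` stop -/
def Pg.iter [Finite S] [Finite E] (K : S → Pg α β Γ ι (S ⊕ E)) (s : S) : Pg α β Γ ι E where
  Q := (Σ s, (K s).Q) ⊕ E
  fin := by have := fun e => (K e).fin; infer_instance
  s := Sum.inl ⟨s, (K s).s⟩
  ex := iterEx K
  δ := iterδ K

section rules

variable {C : Ctx α ι} {d d' d₁ d₂ : Dat β Γ ι} {t t₁ t₂ : ℕ}

theorem Ex.ok0 {Q : Type} {ex : Q → Option E} {δ} {q : Q} {e : E}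
    (h : Ex ex δ C q d t e d') : C.ok d.hd := by
  cases h <;> assumption

theorem Ex.ok1 {Q : Type} {ex : Q → Option E} {δ} {q : Q} {e : E}
    (h : Ex ex δ C q d t e d') : C.ok d'.hd := by
  induction h <;> assumption

theorem Pg.Ev.ok0 {P : Pg α β Γ ι E} {e : E} (h : P.Ev C d t e d') : C.ok d.hd :=
  let ⟨_, _, h⟩ := h; h.ok0

theorem Pg.Ev.ok1 {P : Pg α β Γ ι E} {e : E} (h : P.Ev C d t e d') : C.ok d'.hd :=
  let ⟨_, _, h⟩ := h; h.ok1

theorem Pg.Ev.mono {P : Pg α β Γ ι E} {e : E} (h : P.Ev C d t₁ e d') (ht : t₁ ≤ t₂) :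
    P.Ev C d t₂ e d' :=
  let ⟨t', h1, h⟩ := h; ⟨t', h1.trans ht, h⟩

theorem rel_sub {Q Q' : Type} (f : Q → Q') {A : Set (Eff β Γ ι × Q × Q)} (h : A.Subsingleton) :
    (rel f A).Subsingleton := h.image _

theorem Ex.unique {Q : Type} {ex : Q → Option E} {δ : Q → In α → (ι → Γ) → Set (Eff β Γ ι × Q × Q)}
    (hd : ∀ q i g, (δ q i g).Subsingleton) {q : Q} {e e' : E}
    (h : Ex ex δ C q d t₁ e d₁) (h' : Ex ex δ C q d t₂ e' d₂) : e = e' ∧ d₁ = d₂ := by
  induction h generalizing t₂ with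
  | done h1 _ =>
    cases h' with
    | done h2 _ => rw [h1] at h2; exact ⟨Option.some.inj h2, rfl⟩
    | step h2 => rw [h1] at h2; cases h2
  | step h1 ha _ _ ih =>
    cases h' with
    | done h2 _ => rw [h1] at h2; cases h2
    | step _ hb _ h3 =>
      have := hd _ _ _ ha hb
      subst this
      exact ih h3

theorem Pg.Ev.unique {P : Pg α β Γ ι E} (hP : P.Det) {e e' : E} (h : P.Ev C d t₁ e d₁)
    (h' : P.Ev C d t₂ e' d₂) : e = e' ∧ d₁ = d₂ :=
  let ⟨_, _, h⟩ := h; let ⟨_, _, h'⟩ := h'; h.unique hP h'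

theorem det_one [Finite E] {f : In α → (ι → Γ) → Set (Eff β Γ ι × E × E)}
    (h : ∀ i g, (f i g).Subsingleton) : (Pg.one f).Det := fun _ i g => rel_sub _ (h i g)

theorem det_bind [Finite E] {P : Pg α β Γ ι E} {K : E → Pg α β Γ ι F} (hP : P.Det)
    (hK : ∀ e, (K e).Det) : (P.bind K).Det := by
  rintro (q | q) i g
  · show (Option.elim (P.ex q) _ _ : Set _).Subsingleton
    cases P.ex q with
    | none => exact rel_sub _ (hP q i g)
    | some e => exact Set.subsingleton_singleton
  · exact rel_sub (fun r => (Sum.inr ⟨q.1, r⟩ : P.Q ⊕ (Σ e, (K e).Q))) (hK q.1 q.2 i g)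

theorem det_iter [Finite S] [Finite E] {K : S → Pg α β Γ ι (S ⊕ E)} (hK : ∀ s, (K s).Det) (s : S) :
    (Pg.iter K s).Det := by
  rintro (q | q) i g
  · show (Option.elim ((K q.1).ex q.2) _ _ : Set _).Subsingleton
    cases (K q.1).ex q.2 with
    | none => exact rel_sub (fun r => (Sum.inl ⟨q.1, r⟩ : (Σ s, (K s).Q) ⊕ E)) (hK q.1 q.2 i g)
    | some e => exact Set.subsingleton_singleton
  · exact Set.subsingleton_empty

theorem ev_one [Finite E] {f : In α → (ι → Γ) → Set (Eff β Γ ι × E × E)} {a}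
    (ha : a ∈ f (inp C.x d.ih) d.rd) (h0 : C.ok d.hd) (h1 : C.ok (d.upd C.x.length a.1).hd) :
    (Pg.one f).Ev C d 1 (nxt C.O d a) (d.upd C.x.length a.1) := by
  refine ⟨1, le_rfl, Ex.step (a := (a.1, some a.2.1, some a.2.2)) rfl ⟨a, ha, rfl⟩ h0 ?_⟩
  exact Ex.done (nxt_map C.O d a some) h1

theorem one_inv [Finite E] {f : In α → (ι → Γ) → Set (Eff β Γ ι × E × E)} {e : E}
    (h : (Pg.one f).Ev C d t e d') :
    ∃ a ∈ f (inp C.x d.ih) d.rd, e = nxt C.O d a ∧ d' = d.upd C.x.length a.1 := by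
  obtain ⟨t', -, h⟩ := h
  cases h with
  | done h1 _ => cases h1
  | step _ ha _ h2 =>
    obtain ⟨a, ha, rfl⟩ := ha
    refine ⟨a, ha, ?_⟩
    have hq : (Pg.one f).ex (nxt C.O d (a.1, some a.2.1, some a.2.2)) = some (nxt C.O d a) :=
      nxt_map C.O d a some
    cases h2 with
    | done h3 _ => exact ⟨Option.some.inj (h3.symm.trans hq), rfl⟩
    | step h3 => exact absurd (h3.symm.trans hq) (by simp)

theorem ex_bind_r {P : Pg α β Γ ι E} {K : E → Pg α β Γ ι F} {e : E} {q : (K e).Q} {f : F}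
    (h : Ex (K e).ex (K e).δ C q d t f d') :
    Ex (bindEx P K) (bindδ P K) C (Sum.inr ⟨e, q⟩) d t f d' := by
  induction h with
  | done h1 h2 => exact Ex.done h1 h2
  | @step q d a t f d' h1 ha h2 _ ih =>
    refine Ex.step (a := (a.1, Sum.inr ⟨e, a.2.1⟩, Sum.inr ⟨e, a.2.2⟩)) h1 ⟨a, ha, rfl⟩ h2 ?_
    rw [nxt_map C.O d a (fun r => (Sum.inr ⟨e, r⟩ : P.Q ⊕ (Σ e, (K e).Q)))]
    exact ih

theorem ex_bind_l {P : Pg α β Γ ι E} {K : E → Pg α β Γ ι F} {e : E} {q : P.Q} {f : F}
    (h : Ex P.ex P.δ C q d t₁ e d₁) (h' : Ex (K e).ex (K e).δ C (K e).s d₁ t₂ f d₂) :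
    Ex (bindEx P K) (bindδ P K) C (Sum.inl q) d (t₁ + t₂ + 1) f d₂ := by
  induction h with
  | @done q d e h1 h2 =>
    rw [Nat.zero_add]
    refine Ex.step (a := (nop d.rd, Sum.inr ⟨e, (K e).s⟩, Sum.inr ⟨e, (K e).s⟩)) rfl ?_ h2 ?_
    · simp [bindδ, h1]
    · rw [nxt_same, upd_nop]; exact ex_bind_r h'
  | @step q d a t e d' h1 ha h2 _ ih =>
    rw [show t + 1 + t₂ + 1 = (t + t₂ + 1) + 1 by omega]
    refine Ex.step (a := (a.1, Sum.inl a.2.1, Sum.inl a.2.2)) rfl ?_ h2 ?_
    · simp only [bindδ, h1, Option.elim]; exact ⟨a, ha, rfl⟩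
    · rw [nxt_map C.O d a (Sum.inl : P.Q → P.Q ⊕ (Σ e, (K e).Q))]; exact ih h'

theorem ev_bind [Finite E] {P : Pg α β Γ ι E} {K : E → Pg α β Γ ι F} {e : E} {f : F}
    (h : P.Ev C d t₁ e d₁) (h' : (K e).Ev C d₁ t₂ f d₂) : (P.bind K).Ev C d (t₁ + t₂ + 1) f d₂ :=
  let ⟨a, ha, h⟩ := h; let ⟨b, hb, h'⟩ := h'
  ⟨a + b + 1, by omega, ex_bind_l h h'⟩

theorem ex_bind_inv {P : Pg α β Γ ι E} {K : E → Pg α β Γ ι F} {f : F} {r}
    (h : Ex (bindEx P K) (bindδ P K) C r d t f d') :
    (∀ e q, r = Sum.inr ⟨e, q⟩ → Ex (K e).ex (K e).δ C q d t f d') ∧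
    (∀ q, r = Sum.inl q → ∃ e d₁ t₁ t₂, Ex P.ex P.δ C q d t₁ e d₁ ∧
      Ex (K e).ex (K e).δ C (K e).s d₁ t₂ f d') := by
  induction h with
  | done h1 h2 =>
    refine ⟨?_, ?_⟩
    · rintro e q rfl; exact Ex.done h1 h2
    · rintro q rfl; cases h1
  | @step r d a t f d' h1 ha h2 _ ih =>
    refine ⟨?_, ?_⟩
    · rintro e q rfl
      obtain ⟨b, hb, rfl⟩ := ha
      exact Ex.step h1 hb h2
        (ih.1 e _ (nxt_map C.O d b (fun r => (Sum.inr ⟨e, r⟩ : P.Q ⊕ (Σ e, (K e).Q)))))
    · rintro q rfl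
      cases hq : P.ex q with
      | none =>
        simp only [bindδ, hq, Option.elim] at ha
        obtain ⟨b, hb, rfl⟩ := ha
        obtain ⟨e, d₁, t₁, t₂, h3, h4⟩ := ih.2 _ (nxt_map C.O d b _)
        exact ⟨e, d₁, t₁ + 1, t₂, Ex.step hq hb h2 h3, h4⟩
      | some e =>
        simp only [bindδ, hq, Option.elim, Set.mem_singleton_iff] at ha
        subst ha
        have := ih.1 e _ (nxt_same _ _ _ _)
        rw [upd_nop] at this
        exact ⟨e, d, 0, t, Ex.done hq h2, this⟩

theorem bind_inv [Finite E] {P : Pg α β Γ ι E} {K : E → Pg α β Γ ι F} {f : F}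
    (h : (P.bind K).Ev C d t f d') : ∃ e d₁ t₁ t₂, P.Ev C d t₁ e d₁ ∧ (K e).Ev C d₁ t₂ f d' := by
  obtain ⟨t', -, h⟩ := h
  obtain ⟨e, d₁, t₁, t₂, h1, h2⟩ := (ex_bind_inv h).2 _ rfl
  exact ⟨e, d₁, t₁, t₂, ⟨_, le_rfl, h1⟩, ⟨_, le_rfl, h2⟩⟩

theorem ex_iter {K : S → Pg α β Γ ι (S ⊕ E)} {s : S} {q : (K s).Q} {r : S ⊕ E} {e : E}
    (h : Ex (K s).ex (K s).δ C q d t₁ r d₁)
    (h' : Ex (iterEx K) (iterδ K) C (iterGo K r) d₁ t₂ e d₂) :
    Ex (iterEx K) (iterδ K) C (Sum.inl ⟨s, q⟩) d (t₁ + t₂ + 1) e d₂ := by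
  induction h with
  | @done q d r h1 h2 =>
    rw [Nat.zero_add]
    refine Ex.step (a := (nop d.rd, iterGo K r, iterGo K r)) rfl ?_ h2 ?_
    · simp [iterδ, h1]
    · rw [nxt_same, upd_nop]; exact h'
  | @step q d a t r d' h1 ha h2 _ ih =>
    rw [show t + 1 + t₂ + 1 = (t + t₂ + 1) + 1 by omega]
    refine Ex.step (a := (a.1, Sum.inl ⟨s, a.2.1⟩, Sum.inl ⟨s, a.2.2⟩)) rfl ?_ h2 ?_
    · simp only [iterδ, h1, Option.elim]; exact ⟨a, ha, rfl⟩
    · rw [nxt_map C.O d a (fun r => (Sum.inl ⟨s, r⟩ : (Σ s, (K s).Q) ⊕ E))]; exact ih h'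

theorem ev_iter_done [Finite S] [Finite E] {K : S → Pg α β Γ ι (S ⊕ E)} {s : S} {e : E}
    (h : (K s).Ev C d t (Sum.inr e) d') : (Pg.iter K s).Ev C d (t + 1) e d' :=
  let ⟨a, ha, h⟩ := h
  ⟨a + 0 + 1, by omega, ex_iter h (Ex.done rfl h.ok1)⟩

theorem ev_iter_more [Finite S] [Finite E] {K : S → Pg α β Γ ι (S ⊕ E)} {s s' : S} {e : E}
    (h : (K s).Ev C d t₁ (Sum.inl s') d₁) (h' : (Pg.iter K s').Ev C d₁ t₂ e d₂) :
    (Pg.iter K s).Ev C d (t₁ + t₂ + 1) e d₂ :=
  let ⟨a, ha, h⟩ := h; let ⟨b, hb, h'⟩ := h'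
  ⟨a + b + 1, by omega, ex_iter h h'⟩

theorem ex_iter_inv {K : S → Pg α β Γ ι (S ⊕ E)} (I : S ⊕ E → Dat β Γ ι → Prop)
    (hI : ∀ s d t r d', I (Sum.inl s) d → (K s).Ev C d t r d' → I r d') {e : E} {r}
    (h : Ex (iterEx K) (iterδ K) C r d t e d') :
    (∀ e', r = Sum.inr e' → I (Sum.inr e') d → I (Sum.inr e) d') ∧
    (∀ s q, r = Sum.inl ⟨s, q⟩ →
      (∀ t r d', Ex (K s).ex (K s).δ C q d t r d' → I r d') → I (Sum.inr e) d') := by
  induction h with
  | done h1 h2 =>
    refine ⟨?_, ?_⟩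
    · rintro e' rfl h; cases h1; exact h
    · rintro s q rfl; cases h1
  | @step r d a t e d' h1 ha h2 _ ih =>
    refine ⟨?_, ?_⟩
    · rintro e' rfl; cases h1
    · rintro s q rfl H
      cases hq : (K s).ex q with
      | none =>
        simp only [iterδ, hq, Option.elim] at ha
        obtain ⟨b, hb, rfl⟩ := ha
        exact ih.2 s _ (nxt_map C.O d b (fun r => (Sum.inl ⟨s, r⟩ : (Σ s, (K s).Q) ⊕ E)))
          fun t r d' h => H _ _ _ (Ex.step hq hb h2 h)
      | some r =>
        simp only [iterδ, hq, Option.elim, Set.mem_singleton_iff] at ha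
        subst ha
        have h3 := H 0 r d (Ex.done hq h2)
        rw [nxt_same, upd_nop] at ih
        cases r with
        | inl s' => exact ih.2 s' _ rfl fun t r d' h => hI s' d t r d' h3 ⟨t, le_rfl, h⟩
        | inr e' => exact ih.1 e' rfl h3

/-- invariant rule for loops (all paths) -/
theorem iter_inv [Finite S] [Finite E] {K : S → Pg α β Γ ι (S ⊕ E)} (I : S ⊕ E → Dat β Γ ι → Prop)
    (hI : ∀ s d t r d', I (Sum.inl s) d → (K s).Ev C d t r d' → I r d') {s : S} {e : E}
    (h0 : I (Sum.inl s) d) (h : (Pg.iter K s).Ev C d t e d') : I (Sum.inr e) d' := by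
  obtain ⟨t', -, h⟩ := h
  exact (ex_iter_inv I hI h).2 s _ rfl fun t r d' h => hI s d t r d' h0 ⟨t, le_rfl, h⟩

end rules

end Pool.Agent.P.MP_d0c5d0_lc
end

-- part Pool.Agent.P.MP_d0c5d0_lc.ToTM
section

/-! From programs to machines; basic facts on runs. -/

namespace Pool.Agent.P.MP_d0c5d0_lc

open Classical

variable {α β Γ ι E F S : Type}

/-- the machine of a program with Boolean exit -/
def Pg.toTM [Finite Γ] [Finite ι] (P : Pg α β Γ ι Bool) (bl : Γ) : TM α β where
  Q := P.Q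
  Γ := Γ
  ι := ι
  finQ := P.fin
  finΓ := inferInstance
  finι := inferInstance
  start := P.s
  blank := bl
  acc := {q | P.ex q = some true}
  δ := fun q i g => {a | P.ex q = none ∧ a ∈ P.δ q i g}

/-- initial tapes -/
def dat0 (bl : Γ) : Dat β Γ ι := ⟨0, fun _ _ => bl, fun _ => 0, [], []⟩

/-- context without space condition -/
def cT (O : Set (List Bool)) (x : List α) : Ctx α ι := ⟨O, x, fun _ => True⟩

/-- context with all heads bounded by `B` -/
def cS (O : Set (List Bool)) (x : List α) (B : ℕ) : Ctx α ι := ⟨O, x, fun h => ∀ i, |h i| ≤ (B : ℤ)⟩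

theorem TM.Run.snoc {M : TM α β} {O x} {c c₁ c₂ : M.Cfg} {t : ℕ} (h : M.Run O x c t c₁)
    (h' : M.Step O x c₁ c₂) : M.Run O x c (t + 1) c₂ := by
  induction h with
  | nil c => exact .cons h' (.nil _)
  | cons h1 _ ih => exact .cons h1 (ih h')

theorem TM.Run.trans {M : TM α β} {O x} {c c₁ c₂ : M.Cfg} {t t' : ℕ} (h : M.Run O x c t c₁)
    (h' : M.Run O x c₁ t' c₂) : M.Run O x c (t + t') c₂ := by
  induction h with
  | nil c => rwa [Nat.zero_add]
  | @cons _ _ _ t h1 _ ih => rw [show t + 1 + t' = t + t' + 1 by omega]; exact .cons h1 (ih h')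

theorem TM.Run.zero_inv {M : TM α β} {O x} {c c' : M.Cfg} (h : M.Run O x c 0 c') : c' = c := by
  cases h; rfl

theorem TM.Run.succ_inv {M : TM α β} {O x} {c c' : M.Cfg} {t : ℕ} (h : M.Run O x c (t + 1) c') :
    ∃ c₁, M.Run O x c t c₁ ∧ M.Step O x c₁ c' := by
  induction t generalizing c with
  | zero => cases h with | cons h1 h2 => cases h2; exact ⟨c, .nil _, h1⟩
  | succ t ih =>
    cases h with
    | cons h1 h2 => obtain ⟨c₁, h3, h4⟩ := ih h2; exact ⟨c₁, .cons h1 h3, h4⟩

theorem upd_ih_le {n : ℕ} {d : Dat β Γ ι} (e : Eff β Γ ι) (h : d.ih ≤ n + 1) :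
    (d.upd n e).ih ≤ n + 1 := by
  simp only [Dat.upd]; split_ifs <;> omega

theorem TM.Run.ih_le {M : TM α β} {O x} {c c' : M.Cfg} {t : ℕ} (h : M.Run O x c t c')
    (h0 : c.2.ih ≤ x.length + 1) : c'.2.ih ≤ x.length + 1 := by
  induction h with
  | nil c => exact h0
  | cons h1 _ ih => obtain ⟨a, -, rfl⟩ := h1; exact ih (upd_ih_le _ h0)

theorem upd_qt_le (n : ℕ) (d : Dat β Γ ι) (e : Eff β Γ ι) :
    (d.upd n e).qt.length ≤ d.qt.length + 1 := by
  obtain ⟨_, _, _, _, qo⟩ := e
  cases qo <;> simp [Dat.upd]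

/-- a run of `t` steps only depends on the oracle on short words -/
theorem TM.Run.congr {M : TM α β} {O O' : Set (List Bool)} {x} {c c' : M.Cfg} {t T : ℕ}
    (hO : ∀ w : List Bool, w.length ≤ T → (w ∈ O ↔ w ∈ O')) (h : M.Run O x c t c')
    (ht : c.2.qt.length + t ≤ T) : M.Run O' x c t c' := by
  induction h with
  | nil c => exact .nil _
  | @cons c c₁ c' t h1 _ ih =>
    obtain ⟨a, ha, rfl⟩ := h1
    refine .cons ⟨a, ha, ?_⟩ (ih ?_)
    · simp only [nxt, hO c.2.qt (by omega)]
    · have := upd_qt_le x.length c.2 a.1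
      dsimp only; omega

theorem TM.Ends.congr {M : TM α β} {O O' : Set (List Bool)} {x} {c : M.Cfg} {t T : ℕ}
    (hO : ∀ w : List Bool, w.length ≤ T → (w ∈ O ↔ w ∈ O')) (h : M.Ends O x t c) (ht : t ≤ T) :
    M.Ends O' x t c :=
  ⟨h.1.congr hO (by simpa [TM.init] using ht), h.2⟩

variable [Finite Γ] [Finite ι] {P : Pg α β Γ ι Bool} {bl : Γ} {C : Ctx α ι}

theorem det_toTM (h : P.Det) : (P.toTM bl).Det := fun q i g _ ha _ hb => h q i g ha.2 hb.2

theorem run_of_ex {q d t e d'} (h : Ex P.ex P.δ C q d t e d') :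
    ∃ q', (P.toTM bl).Run C.O C.x (q, d) t (q', d') ∧ P.ex q' = some e := by
  induction h with
  | done h1 _ => exact ⟨_, .nil _, h1⟩
  | step h1 ha _ _ ih =>
    obtain ⟨q', h2, h3⟩ := ih
    exact ⟨q', .cons ⟨_, ⟨h1, ha⟩, rfl⟩ h2, h3⟩

theorem ends_of_ev {t e d'} (h : P.Ev C (dat0 bl) t e d') :
    ∃ t' ≤ t, ∃ c, (P.toTM bl).Ends C.O C.x t' c ∧ (c.1 ∈ (P.toTM bl).acc ↔ e = true) ∧ c.2 = d' := by
  obtain ⟨t', ht, h⟩ := h
  obtain ⟨q', h2, h3⟩ := run_of_ex (bl := bl) h
  refine ⟨t', ht, (q', d'), ⟨h2, ?_⟩, ?_, rfl⟩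
  · exact Set.eq_empty_of_forall_notMem fun a ha => absurd (h3.symm.trans ha.1) (by simp)
  · show P.ex q' = some true ↔ _
    rw [h3]; simp

theorem ex_of_run {O x} {c c' : (P.toTM bl).Cfg} {t e} (h : (P.toTM bl).Run O x c t c')
    (he : P.ex c'.1 = some e) : Ex P.ex P.δ (cT O x) c.1 c.2 t e c'.2 := by
  induction h with
  | nil c => exact .done he trivial
  | cons h1 _ ih => obtain ⟨a, ha, rfl⟩ := h1; exact .step ha.1 ha.2 trivial (ih he)

theorem ok_of_ex (hP : P.Det) {q d t e d'} (h : Ex P.ex P.δ C q d t e d') {s c}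
    (hr : (P.toTM bl).Run C.O C.x (q, d) s c) : C.ok c.2.hd := by
  induction h generalizing s with
  | done h1 h2 =>
    cases hr with
    | nil => exact h2
    | cons h3 _ => obtain ⟨a, ha, -⟩ := h3; exact absurd (h1.symm.trans ha.1) (by simp)
  | step h1 ha h2 _ ih =>
    cases hr with
    | nil => exact h2
    | cons h3 h4 =>
      obtain ⟨b, hb, rfl⟩ := h3
      have := hP _ _ _ ha hb.2
      subst this
      exact ih h4

theorem dtime_of {O k} {A : Set (List α)} (P : Pg α Empty Γ ι Bool) (bl : Γ) (hP : P.Det) (s : ℕ)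
    (h : ∀ x, ∃ e d', P.Ev (cT O x) (dat0 bl) (s * (x.length + 1) ^ k) e d' ∧ (e = true ↔ x ∈ A)) :
    DTIME O k A := by
  refine ⟨P.toTM bl, det_toTM hP, s, fun x => ?_⟩
  obtain ⟨e, d', h1, h2⟩ := h x
  obtain ⟨t', ht, c, h3, h4, -⟩ := ends_of_ev h1
  exact ⟨t', ht, c, h3, h4.trans h2⟩

theorem ntime_of {O k} {A : Set (List α)} (P : Pg α Empty Γ ι Bool) (bl : Γ) (s : ℕ)
    (h : ∀ x ∈ A, ∃ d', P.Ev (cT O x) (dat0 bl) (s * (x.length + 1) ^ k) true d')
    (h' : ∀ x t d', P.Ev (cT O x) (dat0 bl) t true d' → x ∈ A) : NTIME O k A := by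
  refine ⟨P.toTM bl, s, fun x => ⟨fun hx => ?_, fun t c hc ha => ?_⟩⟩
  · obtain ⟨d', h1⟩ := h x hx
    obtain ⟨t', ht, c, h3, h4, -⟩ := ends_of_ev h1
    exact ⟨t', ht, c, h3, h4.2 rfl⟩
  · exact h' x t c.2 ⟨t, le_rfl, ex_of_run hc.1 ha⟩

theorem logsp_of {O} (hP : P.Det) (s : ℕ)
    (h : ∀ x, ∃ t e d', P.Ev (cS O x (s * (Nat.log 2 (x.length + 1) + 1))) (dat0 bl) t e d') :
    (P.toTM bl).LogSp O := by
  refine ⟨s, fun x t c hc => ?_⟩
  obtain ⟨t', e, d', t'', -, h1⟩ := h x
  exact ok_of_ex (bl := bl) hP h1 hc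

theorem log_of {O} {A : Set (List α)} {P : Pg α Empty Γ ι Bool} (bl : Γ) (hP : P.Det) (s : ℕ)
    (h : ∀ x, ∃ t e d', P.Ev (cS O x (s * (Nat.log 2 (x.length + 1) + 1))) (dat0 bl) t e d' ∧
      (e = true ↔ x ∈ A)) : LOG O A := by
  refine ⟨P.toTM bl, det_toTM hP, logsp_of hP s fun x => ?_, fun x => ?_⟩
  · obtain ⟨t, e, d', h1, -⟩ := h x; exact ⟨t, e, d', h1⟩
  · obtain ⟨t, e, d', h1, h2⟩ := h x
    obtain ⟨t', -, c, h3, h4, -⟩ := ends_of_ev h1
    exact ⟨t', c, h3, h4.trans h2⟩

theorem logfun_of {O} {f : List α → List β} (bl : Γ) (hP : P.Det) (s : ℕ)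
    (h : ∀ x, ∃ t e d', P.Ev (cS O x (s * (Nat.log 2 (x.length + 1) + 1))) (dat0 bl) t e d' ∧
      d'.out = f x) : LogFun O f := by
  refine ⟨P.toTM bl, det_toTM hP, logsp_of hP s fun x => ?_, fun x => ?_⟩
  · obtain ⟨t, e, d', h1, -⟩ := h x; exact ⟨t, e, d', h1⟩
  · obtain ⟨t, e, d', h1, h2⟩ := h x
    obtain ⟨t', -, c, h3, -, h4⟩ := ends_of_ev h1
    exact ⟨t', c, h3, h4 ▸ h2⟩

end Pool.Agent.P.MP_d0c5d0_lc
end

-- part Pool.Agent.P.MP_d0c5d0_lc.Host
section

/-! Host machines: tapes `ι` of a simulated machine (alphabet `Γ`) plus own tapes `κ` (alphabet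
`Option X`, blank `none`).  Primitive programs with explicit effect on the host state. -/

namespace Pool.Agent.P.MP_d0c5d0_lc

open Classical Function

/-- host state -/
structure HS (β Γ ι κ X : Type) where
  ih : ℕ
  tp : ι → ℤ → Γ
  hd : ι → ℤ
  f : κ → ℤ → Option X
  p : κ → ℤ
  out : List β
  qt : List Bool

variable {α β Γ ι κ X E F S : Type}

def HS.dat (bl : Γ) (s : HS β Γ ι κ X) : Dat β (Γ × Option X) (ι ⊕ κ) :=
  ⟨s.ih, Sum.elim (fun i z => (s.tp i z, none)) (fun k z => (bl, s.f k z)), Sum.elim s.hd s.p,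
    s.out, s.qt⟩

/-- host programs -/
abbrev HP (α β Γ ι κ X E : Type) := Pg α β (Γ × Option X) (ι ⊕ κ) E

/-- evaluation on host states -/
def Pg.Hv (P : HP α β Γ ι κ X E) (bl : Γ) (C : Ctx α (ι ⊕ κ)) (s : HS β Γ ι κ X) (t : ℕ) (e : E)
    (s' : HS β Γ ι κ X) : Prop := P.Ev C (s.dat bl) t e (s'.dat bl)

/-- the head condition on a host state -/
def HS.ok (C : Ctx α (ι ⊕ κ)) (s : HS β Γ ι κ X) : Prop := C.ok (Sum.elim s.hd s.p)

/-- initial host state -/
def hs0 (bl : Γ) : HS β Γ ι κ X := ⟨0, fun _ _ => bl, fun _ => 0, fun _ _ => none, fun _ => 0, [], []⟩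

theorem hs0_dat (bl : Γ) : (hs0 bl : HS β Γ ι κ X).dat bl = dat0 (bl, none) := by
  simp only [HS.dat, hs0, dat0, Dat.mk.injEq, true_and, and_true]
  constructor <;> (funext i; cases i <;> rfl)

theorem ok_cT {O x} (s : HS β Γ ι κ X) : s.ok (cT O x : Ctx α (ι ⊕ κ)) := trivial

theorem ok_cS {O x} {B : ℕ} {s : HS β Γ ι κ X} :
    s.ok (cS O x B : Ctx α (ι ⊕ κ)) ↔ (∀ i, |s.hd i| ≤ (B : ℤ)) ∧ ∀ k, |s.p k| ≤ (B : ℤ) := by
  simp [HS.ok, cS, Sum.forall]

theorem HS.dat_inj {bl : Γ} {s s' : HS β Γ ι κ X} (h : s.dat bl = s'.dat bl) : s = s' := by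
  obtain ⟨a1, a2, a3, a4, a5, a6, a7⟩ := s
  obtain ⟨b1, b2, b3, b4, b5, b6, b7⟩ := s'
  simp only [HS.dat, Dat.mk.injEq] at h
  obtain ⟨h1, h2, h3, h4, h5⟩ := h
  have e2 : a2 = b2 := by
    funext i z; exact congrArg Prod.fst (congrFun (congrFun h2 (Sum.inl i)) z)
  have e4 : a4 = b4 := by
    funext i z; exact congrArg Prod.snd (congrFun (congrFun h2 (Sum.inr i)) z)
  have e3 : a3 = b3 := by funext i; exact congrFun h3 (Sum.inl i)
  have e5 : a5 = b5 := by funext i; exact congrFun h3 (Sum.inr i)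
  subst h1 e2 e3 e4 e5 h4 h5; rfl

/-- a list written from cell 0 to the right -/
def lay (l : List X) (z : ℤ) : Option X := if 0 ≤ z then l[z.toNat]? else none

theorem lay_nil : lay ([] : List X) = fun _ => none := by funext z; simp [lay]
theorem lay_nat (l : List X) (n : ℕ) : lay l n = l[n]? := by simp [lay]
theorem lay_neg (l : List X) {z : ℤ} (h : z < 0) : lay l z = none := by simp [lay, h.not_ge]
theorem lay_len (l : List X) : lay l l.length = none := by simp [lay]
theorem lay_mid (a b : List X) (y : X) : lay (a ++ y :: b) a.length = some y := by simp [lay]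

theorem update_lay_mid (a b : List X) (y y' : X) :
    update (lay (a ++ y :: b)) a.length (some y') = lay (a ++ y' :: b) := by
  funext z
  by_cases h : z = a.length
  · subst h; rw [update_self, lay_mid]
  · rw [update_of_ne h]
    simp only [lay]; split_ifs with h0
    · rw [List.getElem?_append, List.getElem?_append]
      split_ifs with h1
      · rfl
      · obtain ⟨m, hm⟩ : ∃ m, z.toNat - a.length = m + 1 := ⟨z.toNat - a.length - 1, by omega⟩
        simp [hm]
    · rfl

theorem update_lay_end (a : List X) (y : X) :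
    update (lay a) a.length (some y) = lay (a ++ [y]) := by
  funext z
  by_cases h : z = a.length
  · subst h; rw [update_self, lay_mid]
  · rw [update_of_ne h]
    simp only [lay]; split_ifs with h0
    · rw [List.getElem?_append]
      split_ifs with h1
      · rfl
      · rw [List.getElem?_eq_none (by omega), List.getElem?_eq_none (by simp; omega)]
    · rfl

theorem update_lay_erase (a : List X) (y : X) :
    update (lay (a ++ [y])) a.length none = lay a := by
  rw [← update_lay_end, update_idem, ← lay_len a, update_eq_self]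

/-! ### primitives -/

/-- deterministic single step -/
def act [Finite E] (e : In α → (ι → Γ) → Eff β Γ ι) (y n : In α → (ι → Γ) → E) : Pg α β Γ ι E :=
  Pg.one fun i g => {(e i g, y i g, n i g)}

theorem det_act [Finite E] {e : In α → (ι → Γ) → Eff β Γ ι} {y n : In α → (ι → Γ) → E} :
    (act e y n).Det := det_one fun _ _ => Set.subsingleton_singleton

/-- return a value -/
def ret [Finite E] (e : E) : Pg α β Γ ι E := act (fun _ g => nop g) (fun _ _ => e) (fun _ _ => e)
/-- nondeterministic choice of a value -/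
def guess (E : Type) [Finite E] : Pg α β Γ ι E := Pg.one fun _ g => {a | ∃ e, a = (nop g, e, e)}
/-- read the input tape -/
def lookI [Finite α] : Pg α β Γ ι (In α) :=
  haveI : Finite (In α) := Finite.of_injective (fun i : In α =>
    (In.casesOn i (Sum.inl true) (Sum.inl false) Sum.inr : Bool ⊕ α))
    (by intro a b; cases a <;> cases b <;> simp)
  act (fun _ g => nop g) (fun i _ => i) (fun i _ => i)
/-- move the input head -/
def mvI (m : SignType) : Pg α β Γ ι Unit :=
  act (fun _ g => ⟨g, fun _ => 0, m, none, Qop.no⟩) (fun _ _ => ()) (fun _ _ => ())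
/-- append a bit to the query tape -/
def push (b : Bool) : Pg α β Γ ι Unit :=
  act (fun _ g => ⟨g, fun _ => 0, 0, none, Qop.push b⟩) (fun _ _ => ()) (fun _ _ => ())
/-- ask the oracle -/
def ask : Pg α β Γ ι Bool :=
  act (fun _ g => ⟨g, fun _ => 0, 0, none, Qop.ask⟩) (fun _ _ => true) (fun _ _ => false)
/-- write a letter on the output tape -/
def emit (b : β) : Pg α β Γ ι Unit :=
  act (fun _ g => ⟨g, fun _ => 0, 0, some b, Qop.no⟩) (fun _ _ => ()) (fun _ _ => ())
/-- read own tape `k` -/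
def look [Finite X] (k : κ) : HP α β Γ ι κ X (Option X) :=
  act (fun _ g => nop g) (fun _ g => (g (Sum.inr k)).2) (fun _ g => (g (Sum.inr k)).2)
/-- write `w` on own tape `k` -/
noncomputable def wr (k : κ) (w : Option X) : HP α β Γ ι κ X Unit :=
  act (fun _ g => ⟨update g (Sum.inr k) ((g (Sum.inr k)).1, w), fun _ => 0, 0, none, Qop.no⟩)
    (fun _ _ => ()) (fun _ _ => ())
/-- move the head of own tape `k` -/
noncomputable def mv (k : κ) (m : SignType) : HP α β Γ ι κ X Unit :=
  act (fun _ g => ⟨g, update (fun _ => 0) (Sum.inr k) m, 0, none, Qop.no⟩)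
    (fun _ _ => ()) (fun _ _ => ())
/-- sequencing -/
def Pg.seq (P : Pg α β Γ ι Unit) (R : Pg α β Γ ι E) : Pg α β Γ ι E := P.bind fun _ => R
/-- while `c` returns true do `b` -/
def whl (c : Pg α β Γ ι Bool) (b : Pg α β Γ ι Unit) : Pg α β Γ ι Unit :=
  Pg.iter (fun _ : Unit => c.bind fun r =>
    Bool.casesOn (motive := fun _ => Pg α β Γ ι (Unit ⊕ Unit)) r (ret (Sum.inr ()))
      (b.seq (ret (Sum.inl ())))) ()
/-- append a word to the query tape -/
def pushes (w : List Bool) : Pg α β Γ ι Unit := w.foldr (fun b P => (push b).seq P) (ret ())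

instance finIn [Finite α] : Finite (In α) := Finite.of_injective (fun i : In α =>
    (In.casesOn i (Sum.inl true) (Sum.inl false) Sum.inr : Bool ⊕ α))
    (by intro a b; cases a <;> cases b <;> simp)

theorem det_ret [Finite E] (e : E) : (ret e : Pg α β Γ ι E).Det := det_act
theorem det_lookI [Finite α] : (lookI : Pg α β Γ ι (In α)).Det := det_act
theorem det_mvI (m) : (mvI m : Pg α β Γ ι Unit).Det := det_act
theorem det_push (b) : (push b : Pg α β Γ ι Unit).Det := det_act
theorem det_ask : (ask : Pg α β Γ ι Bool).Det := det_act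
theorem det_emit (b) : (emit b : Pg α β Γ ι Unit).Det := det_act
theorem det_look [Finite X] (k) : (look k : HP α β Γ ι κ X (Option X)).Det := det_act
theorem det_wr (k w) : (wr k w : HP α β Γ ι κ X Unit).Det := det_act
theorem det_mv (k m) : (mv k m : HP α β Γ ι κ X Unit).Det := det_act
theorem det_seq {P : Pg α β Γ ι Unit} {R : Pg α β Γ ι E} (hP : P.Det) (hR : R.Det) :
    (P.seq R).Det := det_bind hP fun _ => hR
theorem det_whl {c : Pg α β Γ ι Bool} {b : Pg α β Γ ι Unit} (hc : c.Det) (hb : b.Det) :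
    (whl c b).Det := det_iter (fun _ => det_bind hc fun r => by
      cases r
      · exact det_ret _
      · exact det_seq hb (det_ret _)) _
theorem det_pushes (w : List Bool) : (pushes w : Pg α β Γ ι Unit).Det := by
  induction w with
  | nil => exact det_ret _
  | cons b w ih => exact det_seq (det_push b) ih

section hv

variable {bl : Γ} {C : Ctx α (ι ⊕ κ)} {s s' s₁ s₂ : HS β Γ ι κ X} {t t₁ t₂ : ℕ}

theorem Pg.Hv.mono {P : HP α β Γ ι κ X E} {e} (h : P.Hv bl C s t₁ e s') (ht : t₁ ≤ t₂) :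
    P.Hv bl C s t₂ e s' := Pg.Ev.mono h ht
theorem Pg.Hv.ok0 {P : HP α β Γ ι κ X E} {e} (h : P.Hv bl C s t e s') : s.ok C := Pg.Ev.ok0 h
theorem Pg.Hv.ok1 {P : HP α β Γ ι κ X E} {e} (h : P.Hv bl C s t e s') : s'.ok C := Pg.Ev.ok1 h
/-- change the final state or the exit value along equalities -/
theorem Pg.Hv.cast {P : HP α β Γ ι κ X E} {e e'} (h : P.Hv bl C s t e s₁) (he : e = e')
    (hs : s₁ = s₂) : P.Hv bl C s t e' s₂ := he ▸ hs ▸ h
/-- a deterministic program has no other outcome -/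
theorem Pg.Hv.only {P : HP α β Γ ι κ X E} (hP : P.Det) {e e' d'} (h : P.Hv bl C s t₁ e s₁)
    (h' : P.Ev C (s.dat bl) t₂ e' d') : e' = e ∧ d' = s₁.dat bl := Pg.Ev.unique hP h' h

theorem hv_bind [Finite E] {P : HP α β Γ ι κ X E} {K : E → HP α β Γ ι κ X F} {e f}
    (h : P.Hv bl C s t₁ e s₁) (h' : (K e).Hv bl C s₁ t₂ f s₂) :
    Pg.Hv (P.bind K) bl C s (t₁ + t₂ + 1) f s₂ := ev_bind h h'
theorem hv_seq {P : HP α β Γ ι κ X Unit} {R : HP α β Γ ι κ X F} {f}
    (h : P.Hv bl C s t₁ () s₁) (h' : R.Hv bl C s₁ t₂ f s₂) :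
    Pg.Hv (P.seq R) bl C s (t₁ + t₂ + 1) f s₂ := ev_bind h h'
theorem hv_iter_done [Finite S] [Finite E] {K : S → HP α β Γ ι κ X (S ⊕ E)} {a e}
    (h : (K a).Hv bl C s t (Sum.inr e) s') : Pg.Hv (Pg.iter K a) bl C s (t + 1) e s' :=
  ev_iter_done h
theorem hv_iter_more [Finite S] [Finite E] {K : S → HP α β Γ ι κ X (S ⊕ E)} {a a' e}
    (h : (K a).Hv bl C s t₁ (Sum.inl a') s₁) (h' : Pg.Hv (Pg.iter K a') bl C s₁ t₂ e s₂) :
    Pg.Hv (Pg.iter K a) bl C s (t₁ + t₂ + 1) e s₂ := ev_iter_more h h'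

theorem hv_act [Finite E] {e : In α → (ι ⊕ κ → Γ × Option X) → Eff β (Γ × Option X) (ι ⊕ κ)}
    {y n : In α → (ι ⊕ κ → Γ × Option X) → E} {r : E}
    (h1 : (s.dat bl).upd C.x.length (e (inp C.x s.ih) (s.dat bl).rd) = s'.dat bl)
    (h2 : nxt C.O (s.dat bl) (e (inp C.x s.ih) (s.dat bl).rd, y (inp C.x s.ih) (s.dat bl).rd,
      n (inp C.x s.ih) (s.dat bl).rd) = r) (h : s.ok C) (h' : s'.ok C) :
    Pg.Hv (act e y n) bl C s 1 r s' := by
  have := ev_one (C := C) (d := s.dat bl) (f := fun i g => {(e i g, y i g, n i g)}) rfl h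
    (by rw [show (s.dat bl).ih = s.ih from rfl, h1]; exact h')
  rw [show (s.dat bl).ih = s.ih from rfl, h1, h2] at this
  exact this

theorem hv_ret [Finite E] (e : E) (h : s.ok C) : Pg.Hv (ret e) bl C s 1 e s :=
  hv_act (upd_nop _ _) (nxt_same _ _ _ _) h h

theorem hv_guess [Finite E] (e : E) (h : s.ok C) : Pg.Hv (guess E) bl C s 1 e s := by
  have := ev_one (C := C) (d := s.dat bl) (f := fun _ g => {a | ∃ e : E, a = (nop g, e, e)})
    (a := (nop (s.dat bl).rd, e, e)) ⟨e, rfl⟩ h (by rw [upd_nop]; exact h)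
  rw [nxt_same, upd_nop] at this
  exact this

theorem guess_inv [Finite E] {e : E} {d d' : Dat β Γ ι} {C : Ctx α ι}
    (h : (guess E).Ev C d t e d') : d' = d := by
  obtain ⟨a, ⟨e', rfl⟩, -, h2⟩ := one_inv h
  rw [h2, upd_nop]

theorem hv_lookI [Finite α] (h : s.ok C) : Pg.Hv lookI bl C s 1 (inp C.x s.ih) s :=
  hv_act (upd_nop _ _) (nxt_same _ _ _ _) h h

theorem hv_look [Finite X] (k : κ) (h : s.ok C) : Pg.Hv (look k) bl C s 1 (s.f k (s.p k)) s :=
  hv_act (upd_nop _ _) (nxt_same _ _ _ _) h h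

theorem upd_keep (n : ℕ) (d : Dat β Γ ι) (m o q) : d.upd n ⟨d.rd, fun _ => 0, m, o, q⟩ =
    ⟨if m = 1 then min (d.ih + 1) (n + 1) else if m = -1 then d.ih - 1 else d.ih, d.tp, d.hd,
      d.out ++ o.toList,
      Qop.casesOn (motive := fun _ => List Bool) q d.qt (fun b => d.qt ++ [b]) []⟩ := by
  simp [Dat.upd, Dat.rd]

theorem hv_right (h : s.ok C) (h1 : s.ih ≤ C.x.length) :
    Pg.Hv (mvI 1) bl C s 1 () {s with ih := s.ih + 1} :=
  hv_act (by rw [upd_keep]; simp [HS.dat, h1]) rfl h h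

theorem hv_right' (h : s.ok C) :
    Pg.Hv (mvI 1) bl C s 1 () {s with ih := min (s.ih + 1) (C.x.length + 1)} :=
  hv_act (by rw [upd_keep]; simp [HS.dat]) rfl h h

theorem hv_left (h : s.ok C) : Pg.Hv (mvI (-1)) bl C s 1 () {s with ih := s.ih - 1} :=
  hv_act (by rw [upd_keep]; simp [HS.dat]) rfl h h

theorem hv_push (b : Bool) (h : s.ok C) :
    Pg.Hv (push b) bl C s 1 () {s with qt := s.qt ++ [b]} :=
  hv_act (by rw [upd_keep]; simp [HS.dat]) rfl h h

theorem hv_emit (b : β) (h : s.ok C) :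
    Pg.Hv (emit b) bl C s 1 () {s with out := s.out ++ [b]} :=
  hv_act (by rw [upd_keep]; simp [HS.dat]) rfl h h

theorem hv_ask (h : s.ok C) : Pg.Hv ask bl C s 1 (decide (s.qt ∈ C.O)) {s with qt := []} :=
  hv_act (by rw [upd_keep]; simp [HS.dat])
    (by by_cases hq : s.qt ∈ C.O <;> simp [nxt, HS.dat, hq]) h h

theorem hv_wr (k : κ) (w : Option X) (h : s.ok C) :
    Pg.Hv (wr k w) bl C s 1 () {s with f := update s.f k (update (s.f k) (s.p k) w)} := by
  refine hv_act ?_ rfl h h
  simp only [Dat.upd, HS.dat, Dat.rd, Dat.mk.injEq]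
  refine ⟨by simp, ?_, by simp, by simp, trivial⟩
  funext i z
  rcases i with i | k'
  · by_cases hz : z = s.hd i
    · subst hz; simp [Dat.rd]
    · simp [hz]
  · by_cases hk : k' = k
    · subst hk
      by_cases hz : z = s.p k'
      · subst hz; simp
      · simp [hz]
    · by_cases hz : z = s.p k'
      · subst hz; simp [Dat.rd, hk]
      · simp [hz, hk]

theorem hv_mv (k : κ) (m : SignType) (h : s.ok C)
    (h' : ({s with p := update s.p k (s.p k + m)} : HS β Γ ι κ X).ok C) :
    Pg.Hv (mv k m) bl C s 1 () {s with p := update s.p k (s.p k + m)} := by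
  refine hv_act ?_ rfl h h'
  simp only [Dat.upd, HS.dat, Dat.rd, Dat.mk.injEq]
  refine ⟨by simp, by simp, ?_, by simp, trivial⟩
  funext i
  rcases i with i | k'
  · simp
  · by_cases hk : k' = k
    · subst hk; simp
    · simp [hk]

theorem hv_pushes (w : List Bool) (h : s.ok C) :
    Pg.Hv (pushes w) bl C s (2 * w.length + 1) () {s with qt := s.qt ++ w} := by
  induction w generalizing s with
  | nil => exact (hv_ret () h).cast rfl (by simp)
  | cons b w ih =>
    refine ((hv_seq (hv_push b h) (ih h)).mono (by simp; omega)).cast rfl (by simp)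

theorem hv_whl_stop {c : HP α β Γ ι κ X Bool} {b : HP α β Γ ι κ X Unit}
    (h : c.Hv bl C s t false s') : Pg.Hv (whl c b) bl C s (t + 3) () s' :=
  hv_iter_done (hv_bind h (hv_ret _ h.ok1))

theorem hv_whl_more {c : HP α β Γ ι κ X Bool} {b : HP α β Γ ι κ X Unit}
    (h : c.Hv bl C s t true s') (h1 : b.Hv bl C s' t₁ () s₁) (h2 : Pg.Hv (whl c b) bl C s₁ t₂ () s₂) :
    Pg.Hv (whl c b) bl C s (t + t₁ + t₂ + 4) () s₂ :=
  (hv_iter_more (hv_bind h (hv_seq h1 (hv_ret _ h1.ok1))) h2).mono (by omega)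

/-- loop along an explicit sequence of states: `n` rounds, test cost `a`, body cost `T` -/
theorem hv_whl {c : HP α β Γ ι κ X Bool} {b : HP α β Γ ι κ X Unit} (n a T : ℕ)
    (σ σ' : ℕ → HS β Γ ι κ X) (hc : ∀ i < n, c.Hv bl C (σ i) a true (σ' i))
    (hb : ∀ i < n, b.Hv bl C (σ' i) T () (σ (i + 1))) (he : c.Hv bl C (σ n) a false s') :
    Pg.Hv (whl c b) bl C (σ 0) (n * (a + T + 4) + a + 3) () s' := by
  induction n generalizing σ σ' with
  | zero => exact (hv_whl_stop he).mono (by omega)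
  | succ n ih =>
    refine (hv_whl_more (hc 0 (by omega)) (hb 0 (by omega)) (ih (fun i => σ (i + 1))
      (fun i => σ' (i + 1)) (fun i hi => hc _ (by omega)) (fun i hi => hb _ (by omega)) he)).mono ?_
    rw [Nat.succ_mul]; omega

end hv

/-- test on the input letter, test on an own tape -/
def testI [Finite α] (g : In α → Bool) : Pg α β Γ ι Bool := lookI.bind fun i => ret (g i)
def testT [Finite X] (k : κ) (g : Option X → Bool) : HP α β Γ ι κ X Bool :=
  (look k).bind fun i => ret (g i)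

theorem det_testI [Finite α] (g) : (testI g : Pg α β Γ ι Bool).Det :=
  det_bind det_lookI fun _ => det_ret _
theorem det_testT [Finite X] (k g) : (testT k g : HP α β Γ ι κ X Bool).Det :=
  det_bind (det_look k) fun _ => det_ret _

theorem hv_testI [Finite α] {bl : Γ} {C : Ctx α (ι ⊕ κ)} {s : HS β Γ ι κ X} (g) (h : s.ok C) :
    Pg.Hv (testI g) bl C s 3 (g (inp C.x s.ih)) s := 
  hv_bind (K := fun i => ret (g i)) (hv_lookI h) (hv_ret _ h)
theorem hv_testT [Finite X] {bl : Γ} {C : Ctx α (ι ⊕ κ)} {s : HS β Γ ι κ X} (k g) (h : s.ok C) :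
    Pg.Hv (testT k g) bl C s 3 (g (s.f k (s.p k))) s := 
  hv_bind (K := fun i => ret (g i)) (hv_look k h) (hv_ret _ h)

theorem inp_zero (x : List α) : inp x 0 = In.lend := by simp [inp]
theorem inp_succ (x : List α) (h : ℕ) : inp x (h + 1) = (x[h]?).elim In.rend In.sym := by simp [inp]
theorem inp_lt (x : List α) {h : ℕ} (hh : h < x.length) : inp x (h + 1) = In.sym x[h] := by
  simp [inp, hh]
theorem inp_end (x : List α) : inp x (x.length + 1) = In.rend := by simp [inp]
theorem inp_ne_lend (x : List α) (h : ℕ) : inp x (h + 1) ≠ In.lend := by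
  rw [inp_succ]; cases x[h]? <;> simp

/-- move the input head back to the left end marker -/
noncomputable def rewI [Finite α] : Pg α β Γ ι Unit :=
  whl (testI fun i => decide (i ≠ In.lend)) (mvI (-1))

theorem det_rewI [Finite α] : (rewI : Pg α β Γ ι Unit).Det := det_whl (det_testI _) (det_mvI _)

theorem hv_rewI [Finite α] {bl : Γ} {C : Ctx α (ι ⊕ κ)} {s : HS β Γ ι κ X} (h : s.ok C) :
    Pg.Hv rewI bl C s (8 * s.ih + 6) () {s with ih := 0} := by
  have := hv_whl (bl := bl) (C := C) (c := testI fun i => decide (i ≠ In.lend)) (b := mvI (-1))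
    s.ih 3 1 (fun i => {s with ih := s.ih - i}) (fun i => {s with ih := s.ih - i})
    (s' := {s with ih := 0}) (fun i hi => (hv_testI _ (by exact h)).cast (by
      obtain ⟨m, hm⟩ : ∃ m, s.ih - i = m + 1 := ⟨s.ih - i - 1, by omega⟩
      simp [hm, inp_ne_lend]) rfl)
    (fun i hi => (hv_left (by exact h)).cast rfl (by simp [Nat.sub_sub]))
    ((hv_testI _ (by exact h)).cast (by simp [inp_zero]) (by simp))
  exact this.mono (by omega)

/-- scan the whole input from the left end marker, appending `g a` to the query tape for each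
letter `a`, and come back to the left end marker -/
noncomputable def copyI [Finite α] (g : α → List Bool) : Pg α β Γ ι Unit :=
  (mvI 1).seq ((whl (testI fun i => decide (i ≠ In.rend))
    (lookI.bind fun i => (pushes (In.casesOn i [] [] g)).seq (mvI 1))).seq rewI)

theorem det_copyI [Finite α] (g) : (copyI g : Pg α β Γ ι Unit).Det :=
  det_seq (det_mvI _) (det_seq (det_whl (det_testI _)
    (det_bind det_lookI fun _ => det_seq (det_pushes _) (det_mvI _))) det_rewI)

theorem hv_copyI [Finite α] {bl : Γ} {C : Ctx α (ι ⊕ κ)} {s : HS β Γ ι κ X} (g : α → List Bool)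
    (c : ℕ) (hg : ∀ a, (g a).length ≤ c) (h : s.ok C) (h0 : s.ih = 0) :
    Pg.Hv (copyI g) bl C s ((2 * c + 30) * (C.x.length + 1)) ()
      {s with qt := s.qt ++ C.x.flatMap g} := by
  have := hv_whl (bl := bl) (C := C) (c := testI fun i => decide (i ≠ In.rend))
    (b := lookI.bind fun i => (pushes (In.casesOn i [] [] g)).seq (mvI 1))
    C.x.length 3 (2 * c + 5)
    (fun i => {s with ih := i + 1, qt := s.qt ++ (C.x.take i).flatMap g})
    (fun i => {s with ih := i + 1, qt := s.qt ++ (C.x.take i).flatMap g})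
    (s' := {s with ih := C.x.length + 1, qt := s.qt ++ C.x.flatMap g})
    (fun i hi => (hv_testI _ (by exact h)).cast (by simp [inp_lt _ hi]) rfl)
    (fun i hi => ((hv_bind (hv_lookI (by exact h)) (hv_seq (hv_pushes _ (by exact h))
      (hv_right (by exact h) (by simp; omega)))).mono (by
        have := hg C.x[i]
        simp [inp_lt _ hi]; omega)).cast rfl (by
        rw [List.take_add_one, List.getElem?_eq_getElem hi, List.flatMap_append]
        simp [inp_lt _ hi, -List.take_append_getElem]))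
    ((hv_testI _ (by exact h)).cast (by simp [inp_end]) (by simp))
  have h1 := hv_right (bl := bl) h (by omega)
  rw [h0] at h1
  refine ((hv_seq (h1.cast rfl (by simp)) (hv_seq this (hv_rewI (by exact h)))).mono ?_).cast rfl
    (by simp [← h0])
  dsimp only
  nlinarith

end Pool.Agent.P.MP_d0c5d0_lc
end

-- part Pool.Agent.P.MP_d0c5d0_lc.Cnt
section

/-! Binary counters on own tapes of a logarithmic space host. -/

namespace Pool.Agent.P.MP_d0c5d0_lc

open Classical Function

variable {α β Γ ι κ : Type}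

/-- successor in bijective base 2 (`false` = digit 1, `true` = digit 2, lowest digit first) -/
def incL (l : List Bool) : List Bool :=
  List.rec [false] (fun b l r => Bool.casesOn (motive := fun _ => List Bool) b (true :: l) (false :: r)) l
/-- the tape holding the number `n` -/
def cn (n : ℕ) : ℤ → Option Bool := lay (incL^[n] [])
/-- all own tapes are counters with values `v`, heads on cell 0 -/
def HS.cs (s : HS β Γ ι κ Bool) (v : κ → ℕ) : HS β Γ ι κ Bool :=
  {s with f := fun k => cn (v k), p := fun _ => 0}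

theorem cs_zero (bl : Γ) : (hs0 bl : HS β Γ ι κ Bool).cs (fun _ => 0) = hs0 bl := by
  simp [HS.cs, hs0, cn, lay_nil]

theorem cs_ok {O} {x : List α} {B : ℕ} {s : HS β Γ ι κ Bool} (h : ∀ i, |s.hd i| ≤ (B : ℤ)) (v) :
    (s.cs v).ok (cS O x B) := ok_cS.2 ⟨h, fun _ => by simp [HS.cs]⟩

/-- value of a digit list -/
def cntVal (l : List Bool) : ℕ := l.foldr (fun b r => (cond b 2 1) + 2 * r) 0

theorem cnt_incL_nil : incL [] = [false] := rfl
theorem cnt_incL_false (l : List Bool) : incL (false :: l) = true :: l := rfl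
theorem cnt_incL_true (l : List Bool) : incL (true :: l) = false :: incL l := rfl

theorem cnt_val_inc (l : List Bool) : cntVal (incL l) = cntVal l + 1 := by
  induction l with
  | nil => rfl
  | cons b l ih =>
    cases b
    · rw [cnt_incL_false]
      simp only [cntVal, List.foldr_cons, cond_true, cond_false]
      omega
    · rw [cnt_incL_true]
      simp only [cntVal, List.foldr_cons, cond_true, cond_false] at ih ⊢
      omega

theorem cnt_pow_le (l : List Bool) : 2 ^ l.length ≤ cntVal l + 1 := by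
  induction l with
  | nil => exact le_rfl
  | cons b l ih =>
    rw [List.length_cons, pow_succ]
    cases b <;> simp only [cntVal, List.foldr_cons, cond_true, cond_false] at ih ⊢ <;> omega

theorem cnt_val_iter (n : ℕ) : cntVal (incL^[n] []) = n := by
  induction n with
  | zero => rfl
  | succ n ih => rw [iterate_succ_apply', cnt_val_inc, ih]

theorem cnt_len_le (n : ℕ) : (incL^[n] []).length ≤ Nat.log 2 (n + 2) := by
  refine Nat.le_log_of_pow_le (by norm_num) ?_
  have := cnt_pow_le (incL^[n] [])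
  rw [cnt_val_iter] at this
  omega

theorem cnt_inc_cons (l : List Bool) : ∃ b r, incL l = b :: r := by
  rcases l with _ | ⟨b, l⟩
  · exact ⟨_, _, rfl⟩
  · cases b <;> exact ⟨_, _, rfl⟩

theorem cnt_len_inc (l : List Bool) : l.length ≤ (incL l).length := by
  induction l with
  | nil => simp
  | cons b l ih =>
    cases b
    · simp [cnt_incL_false]
    · simpa [cnt_incL_true] using ih

/-- the state with tape `k` and its head replaced -/
noncomputable def cntSt (s : HS β Γ ι κ Bool) (k : κ) (g : ℤ → Option Bool) (z : ℤ) :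
    HS β Γ ι κ Bool := {s with f := update s.f k g, p := update s.p k z}

section prim

variable {bl : Γ} {O : Set (List Bool)} {x : List α} {B : ℕ} {s : HS β Γ ι κ Bool} {k : κ}
  {g : ℤ → Option Bool} {z : ℤ}

theorem cnt_ok (h : s.ok (cS O x B)) (hz : |z| ≤ (B : ℤ)) : (cntSt s k g z).ok (cS O x B) := by
  rw [ok_cS] at h ⊢
  refine ⟨h.1, fun j => ?_⟩
  by_cases hj : j = k
  · subst hj; simpa [cntSt] using hz
  · simpa [cntSt, hj] using h.2 j

theorem cnt_look (h : s.ok (cS O x B)) (hz : |z| ≤ (B : ℤ)) {r : Option Bool} (hr : g z = r) :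
    Pg.Hv (look k) bl (cS O x B) (cntSt s k g z) 1 r (cntSt s k g z) :=
  (hv_look k (cnt_ok h hz)).cast (by simpa [cntSt] using hr) rfl

theorem cnt_wr (h : s.ok (cS O x B)) (hz : |z| ≤ (B : ℤ)) (w : Option Bool)
    {g' : ℤ → Option Bool} (hg : update g z w = g') :
    Pg.Hv (wr k w) bl (cS O x B) (cntSt s k g z) 1 () (cntSt s k g' z) :=
  (hv_wr k w (cnt_ok h hz)).cast rfl (by simp [cntSt, hg])

theorem cnt_mv (h : s.ok (cS O x B)) (hz : |z| ≤ (B : ℤ)) (m : SignType) {z' : ℤ}
    (hm : z + m = z') (hz' : |z'| ≤ (B : ℤ)) :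
    Pg.Hv (mv k m) bl (cS O x B) (cntSt s k g z) 1 () (cntSt s k g z') := by
  have e : ({cntSt s k g z with
      p := update (cntSt s k g z).p k ((cntSt s k g z).p k + m)} : HS β Γ ι κ Bool)
      = cntSt s k g z' := by simp [cntSt, hm]
  exact (hv_mv k m (cnt_ok h hz) (by rw [e]; exact cnt_ok h hz')).cast rfl e

end prim

/-- return the head to cell 0 -/
noncomputable def cntHome (k : κ) : HP α β Γ ι κ Bool Unit :=
  (whl (testT k Option.isSome) (mv k (-1))).seq (mv k 1)

/-- carry loop of the increment -/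
noncomputable def cntInc (k : κ) : HP α β Γ ι κ Bool Unit :=
  Pg.iter (fun _ : Unit => (look k).bind fun r =>
    match r with
    | some true => (wr k (some false)).seq ((mv k 1).seq (ret (Sum.inl ())))
    | some false => (wr k (some true)).seq (ret (Sum.inr ()))
    | none => (wr k (some false)).seq (ret (Sum.inr ()))) ()

/-- borrow loop of the decrement -/
noncomputable def cntDec (k : κ) : HP α β Γ ι κ Bool Unit :=
  Pg.iter (fun _ : Unit => (look k).bind fun r =>
    match r with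
    | some true => (wr k (some false)).seq (ret (Sum.inr ()))
    | some false => (wr k (some true)).seq ((mv k 1).seq ((look k).bind fun r' =>
        match r' with
        | some _ => ret (Sum.inl ())
        | none => (mv k (-1)).seq ((wr k none).seq ((mv k (-1)).seq (ret (Sum.inr ()))))))
    | none => ret (Sum.inr ())) ()

theorem cnt_det_home (k : κ) : (cntHome k : HP α β Γ ι κ Bool Unit).Det :=
  det_seq (det_whl (det_testT _ _) (det_mv _ _)) (det_mv _ _)

theorem cnt_det_inc (k : κ) : (cntInc k : HP α β Γ ι κ Bool Unit).Det := by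
  refine det_iter (fun _ => det_bind (det_look k) fun r => ?_) _
  rcases r with _ | _ | _
  · exact det_seq (det_wr _ _) (det_ret _)
  · exact det_seq (det_wr _ _) (det_ret _)
  · exact det_seq (det_wr _ _) (det_seq (det_mv _ _) (det_ret _))

theorem cnt_det_dec (k : κ) : (cntDec k : HP α β Γ ι κ Bool Unit).Det := by
  refine det_iter (fun _ => det_bind (det_look k) fun r => ?_) _
  rcases r with _ | _ | _
  · exact det_ret _
  · refine det_seq (det_wr _ _) (det_seq (det_mv _ _) (det_bind (det_look k) fun r' => ?_))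
    rcases r' with _ | _
    · exact det_seq (det_mv _ _) (det_seq (det_wr _ _) (det_seq (det_mv _ _) (det_ret _)))
    · exact det_ret _
  · exact det_seq (det_wr _ _) (det_ret _)

section loops

variable {bl : Γ} {O : Set (List Bool)} {x : List α} {B : ℕ} {s : HS β Γ ι κ Bool} {k : κ}

theorem cnt_back (h : s.ok (cS O x B)) (l : List Bool) (hB : l.length + 1 ≤ B) (n : ℕ)
    (hn : n ≤ l.length) : ∃ t, Pg.Hv (whl (testT k Option.isSome) (mv k (-1))) bl (cS O x B)
      (cntSt s k (lay l) ((n : ℤ) - 1)) t () (cntSt s k (lay l) (-1)) := by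
  induction n with
  | zero =>
    refine ⟨_, (hv_whl_stop ((hv_testT k _ (cnt_ok h ?_)).cast ?_ rfl)).cast rfl (by simp)⟩
    · rw [abs_le]; omega
    · simp [cntSt, lay]
  | succ n ih =>
    obtain ⟨t, ht⟩ := ih (by omega)
    have h1 : |((n + 1 : ℕ) : ℤ) - 1| ≤ (B : ℤ) := by rw [abs_le]; omega
    refine ⟨_, hv_whl_more ((hv_testT k _ (cnt_ok h h1)).cast ?_ rfl)
      (cnt_mv h h1 (-1) (by simp [sub_eq_add_neg]) (by rw [abs_le]; omega)) ht⟩
    have h2 : n < l.length := by omega
    simp [cntSt, lay_nat, h2]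

theorem cnt_home (h : s.ok (cS O x B)) (l : List Bool) (hB : l.length + 1 ≤ B) (n : ℕ)
    (hn : n ≤ l.length) : ∃ t, Pg.Hv (cntHome k) bl (cS O x B)
      (cntSt s k (lay l) ((n : ℤ) - 1)) t () (cntSt s k (lay l) 0) := by
  obtain ⟨t, ht⟩ := cnt_back (bl := bl) (k := k) h l hB n hn
  exact ⟨_, hv_seq ht (cnt_mv h (by rw [abs_le]; omega) 1 (by simp) (by simp))⟩

theorem cnt_inc (h : s.ok (cS O x B)) (l a : List Bool) (hB : a.length + l.length + 1 ≤ B) :
    ∃ t, ∃ n : ℕ, n ≤ (a ++ incL l).length ∧ Pg.Hv (cntInc k) bl (cS O x B)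
      (cntSt s k (lay (a ++ l)) a.length) t () (cntSt s k (lay (a ++ incL l)) ((n : ℤ) - 1)) := by
  induction l generalizing a with
  | nil =>
    have h1 : |(a.length : ℤ)| ≤ (B : ℤ) := by rw [abs_le]; omega
    refine ⟨_, a.length + 1, by simp [cnt_incL_nil], (hv_iter_done (hv_bind
      (cnt_look h h1 (r := none) (by rw [List.append_nil, lay_len]))
      (hv_seq (cnt_wr h h1 _ (g' := lay (a ++ [false]))
        (by rw [List.append_nil, update_lay_end])) (hv_ret _ (cnt_ok h h1))))).cast rfl ?_⟩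
    simp [cnt_incL_nil]
  | cons b l ih =>
    rw [List.length_cons] at hB
    have h1 : |(a.length : ℤ)| ≤ (B : ℤ) := by rw [abs_le]; omega
    cases b
    · refine ⟨_, a.length + 1, by simp [cnt_incL_false], (hv_iter_done (hv_bind
        (cnt_look h h1 (lay_mid a l false))
        (hv_seq (cnt_wr h h1 _ (update_lay_mid a l false true))
          (hv_ret _ (cnt_ok h h1))))).cast rfl ?_⟩
      simp [cnt_incL_false]
    · obtain ⟨t, n, hn, ht⟩ := ih (a ++ [false]) (by simp; omega)
      simp only [List.append_assoc, List.singleton_append] at hn ht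
      have h2 : |((a ++ [false]).length : ℤ)| ≤ (B : ℤ) := by rw [abs_le]; simp; omega
      exact ⟨_, n, hn, hv_iter_more (hv_bind (cnt_look h h1 (lay_mid a l true))
        (hv_seq (cnt_wr h h1 _ (update_lay_mid a l true false))
          (hv_seq (cnt_mv h h1 1 (by simp) h2) (hv_ret _ (cnt_ok h h2))))) ht⟩

theorem cnt_dec (h : s.ok (cS O x B)) (l a : List Bool) (hB : a.length + l.length + 1 ≤ B) :
    ∃ t, ∃ n : ℕ, n ≤ (a ++ l).length ∧ Pg.Hv (cntDec k) bl (cS O x B)
      (cntSt s k (lay (a ++ incL l)) a.length) t () (cntSt s k (lay (a ++ l)) ((n : ℤ) - 1)) := by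
  induction l generalizing a with
  | nil =>
    have h1 : |(a.length : ℤ)| ≤ (B : ℤ) := by rw [abs_le]; omega
    have h2 : |((a ++ [true]).length : ℤ)| ≤ (B : ℤ) := by rw [abs_le]; simp at hB ⊢; omega
    have h3 : |(a.length : ℤ) - 1| ≤ (B : ℤ) := by rw [abs_le]; omega
    refine ⟨_, a.length, by simp, (hv_iter_done (hv_bind
      (cnt_look h h1 (lay_mid a [] false))
      (hv_seq (cnt_wr h h1 _ (update_lay_mid a [] false true))
        (hv_seq (cnt_mv h h1 1 (by simp) h2) (hv_bind (cnt_look h h2 (lay_len _))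
          (hv_seq (cnt_mv h h2 (-1) (by simp) h1)
            (hv_seq (cnt_wr h h1 _ (update_lay_erase a true))
              (hv_seq (cnt_mv h h1 (-1) (by simp [sub_eq_add_neg]) h3)
                (hv_ret _ (cnt_ok h h3)))))))))).cast rfl ?_⟩
    simp
  | cons b l ih =>
    rw [List.length_cons] at hB
    have h1 : |(a.length : ℤ)| ≤ (B : ℤ) := by rw [abs_le]; omega
    cases b
    · refine ⟨_, a.length + 1, by simp, (hv_iter_done (hv_bind
        (cnt_look h h1 (lay_mid a l true))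
        (hv_seq (cnt_wr h h1 _ (update_lay_mid a l true false))
          (hv_ret _ (cnt_ok h h1))))).cast rfl ?_⟩
      simp
    · obtain ⟨t, n, hn, ht⟩ := ih (a ++ [true]) (by simp; omega)
      simp only [List.append_assoc, List.singleton_append] at hn ht
      have h2 : |((a ++ [true]).length : ℤ)| ≤ (B : ℤ) := by rw [abs_le]; simp; omega
      obtain ⟨c, r, hc⟩ := cnt_inc_cons l
      have h3 : lay (a ++ true :: incL l) ((a ++ [true]).length : ℤ) = some c := by
        have := lay_mid (a ++ [true]) r c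
        rwa [List.append_assoc, List.singleton_append, ← hc] at this
      exact ⟨_, n, hn, hv_iter_more (hv_bind (cnt_look h h1 (lay_mid a (incL l) false))
        (hv_seq (cnt_wr h h1 _ (update_lay_mid a (incL l) false true))
          (hv_seq (cnt_mv h h1 1 (by simp) h2) (hv_bind (cnt_look h h2 h3)
            (hv_ret _ (cnt_ok h h2)))))) ht⟩

end loops

theorem cnt_st_cs (s : HS β Γ ι κ Bool) (v : κ → ℕ) (k : κ) (n : ℕ) :
    cntSt (s.cs v) k (lay (incL^[n] [])) 0 = s.cs (update v k n) := by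
  simp only [cntSt, HS.cs, HS.mk.injEq, true_and, and_true]
  constructor
  · funext j
    by_cases hj : j = k
    · subst hj; simp [cn]
    · simp [hj]
  · funext j
    by_cases hj : j = k
    · subst hj; simp
    · simp [hj]

/-- increment; decrement with zero test (returns true iff the value was positive) -/
theorem cnt_ex (α β Γ ι : Type) {κ : Type} (k : κ) :
    ∃ (inc : HP α β Γ ι κ Bool Unit) (dec : HP α β Γ ι κ Bool Bool), inc.Det ∧ dec.Det ∧
      ∀ (bl : Γ) (O : Set (List Bool)) (x : List α) (B : ℕ) (s : HS β Γ ι κ Bool) (v : κ → ℕ),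
        (∀ i, |s.hd i| ≤ (B : ℤ)) → Nat.log 2 (v k + 2) + 2 ≤ B →
        (∃ t, Pg.Hv inc bl (cS O x B) (s.cs v) t () (s.cs (update v k (v k + 1)))) ∧
        (∃ t, Pg.Hv dec bl (cS O x B) (s.cs v) t (decide (0 < v k))
          (s.cs (update v k (v k - 1)))) := by
  refine ⟨(cntInc k).seq (cntHome k), (look k).bind fun r =>
    Option.casesOn (motive := fun _ => HP α β Γ ι κ Bool Bool) r (ret false)
      (fun _ => (cntDec k).seq ((cntHome k).seq (ret true))),
    det_seq (cnt_det_inc k) (cnt_det_home k), det_bind (det_look k) fun r => ?_, ?_⟩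
  · cases r
    · exact det_ret _
    · exact det_seq (cnt_det_dec k) (det_seq (cnt_det_home k) (det_ret _))
  intro bl O x B s v hs hB
  have h : (s.cs v).ok (cS O x B) := cs_ok hs v
  have e0 : cntSt (s.cs v) k (lay (incL^[v k] [])) 0 = s.cs v := by
    rw [cnt_st_cs, update_eq_self]
  have h0 : |(0 : ℤ)| ≤ (B : ℤ) := by simp
  have l0 := cnt_len_le (v k)
  constructor
  · obtain ⟨t, n, hn, ht⟩ := cnt_inc (bl := bl) (k := k) h (incL^[v k] []) [] (by simp; omega)
    simp only [List.nil_append, List.length_nil, Nat.cast_zero] at hn ht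
    rw [e0, ← iterate_succ_apply' incL] at ht
    rw [← iterate_succ_apply' incL] at hn
    have l1 : (incL^[(v k).succ] []).length ≤ Nat.log 2 (v k + 2) := by
      refine Nat.le_log_of_pow_le (by norm_num) ?_
      have := cnt_pow_le (incL^[(v k).succ] [])
      rw [cnt_val_iter] at this
      omega
    obtain ⟨t', ht'⟩ := cnt_home (bl := bl) (k := k) h _ (by omega) n hn
    exact ⟨_, (hv_seq ht ht').cast rfl (cnt_st_cs s v k _)⟩
  · rcases hv : v k with _ | m
    · rw [hv] at e0
      have h1 := cnt_look (bl := bl) (k := k) (g := lay (incL^[0] [])) h h0 (r := none)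
        (by simp [lay])
      rw [e0] at h1
      refine ⟨_, (hv_bind h1 (hv_ret false h)).cast (by simp) ?_⟩
      rw [Nat.zero_sub, ← hv, update_eq_self]
    · rw [hv, iterate_succ_apply'] at e0 l0
      rw [hv] at hB
      have l1 := cnt_len_inc (incL^[m] [])
      obtain ⟨t, n, hn, ht⟩ := cnt_dec (bl := bl) (k := k) h (incL^[m] []) [] (by simp; omega)
      simp only [List.nil_append, List.length_nil, Nat.cast_zero] at hn ht
      obtain ⟨t', ht'⟩ := cnt_home (bl := bl) (k := k) h _ (by omega) n hn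
      obtain ⟨c, r, hc⟩ := cnt_inc_cons (incL^[m] [])
      have h1 := cnt_look (bl := bl) (k := k) (g := lay (incL (incL^[m] []))) h h0
        (r := some c) (by rw [hc]; simp [lay])
      have h2 := hv_bind (K := fun r =>
        Option.casesOn (motive := fun _ => HP α β Γ ι κ Bool Bool) r (ret false)
          (fun _ => (cntDec k).seq ((cntHome k).seq (ret true)))) h1
        (hv_seq ht (hv_seq ht' (hv_ret true ht'.ok1)))
      rw [e0] at h2
      exact ⟨_, h2.cast (by simp) (cnt_st_cs s v k _)⟩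

end Pool.Agent.P.MP_d0c5d0_lc
end

-- part Pool.Agent.P.MP_d0c5d0_lc.Cod
section

/-! Codes and oracle cells. -/

namespace Pool.Agent.P.MP_d0c5d0_lc

open Classical List

variable {α β : Type}

/-- self-delimiting code of a bit string -/
def enc (u : List Bool) : List Bool := u.flatMap (fun b => [true, b]) ++ [false]
/-- code of a letter -/
def cod1 (idx : α → ℕ) (a : α) : List Bool := replicate (idx a) true ++ [false]
/-- code of a word -/
def code (idx : α → ℕ) (x : List α) : List Bool := x.flatMap (cod1 idx)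
/-- name of the pair (machine number `e`, input `x`) -/
def tau (e : ℕ) (idx : α → ℕ) (x : List α) : List Bool := replicate e true ++ false :: code idx x
/-- coding cells -/
def cell (τ : List Bool) (m : ℕ) (u : List Bool) : List Bool :=
  true :: (enc τ ++ (replicate m true ++ false :: u))
/-- long free cells -/
def hard (K : ℕ) (x : List Bool) (i : ℕ) : List Bool :=
  false :: true :: (x ++ (replicate i true ++ false :: replicate (x.length ^ K) true))
/-- short free cells -/
def bet (y : List Bool) : List Bool := false :: false :: y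
/-- the word read off the long free cells -/
noncomputable def hardF (O : Set (List Bool)) (K : ℕ) (x : List Bool) : List Bool :=
  (List.range x.length).map fun i => decide (hard K x i ∈ O)
/-- the graph of `f` -/
def Graph (f : List α → List β) : Set (List (α ⊕ β)) :=
  {z | ∃ x, z = x.map Sum.inl ++ (f x).map Sum.inr}
/-- the oracle stores `f x` behind a password in the cells of `tau e idx x` with padding `n ^ j` -/
def Coded (O : Set (List Bool)) (j e : ℕ) (idx : α → ℕ) (idy : β → ℕ) (f : List α → List β) : Prop :=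
  ∀ x, ∃ p : List Bool, p.length ≤ 4 * (tau e idx x).length + 3 ∧
    ∀ u, cell (tau e idx x) ((tau e idx x).length ^ j) u ∈ O ↔ u <+: enc p ++ code idy (f x)
/-- the indicator of a language as a function to words over `Unit` -/
noncomputable def ind (A : Set (List α)) (x : List α) : List Unit := if x ∈ A then [()] else []

theorem enc_nil : enc [] = [false] := rfl
theorem enc_cons (b : Bool) (u : List Bool) : enc (b :: u) = true :: b :: enc u := rfl
theorem enc_len (u : List Bool) : (enc u).length = 2 * u.length + 1 := by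
  induction u with
  | nil => rfl
  | cons b u ih => rw [enc_cons]; simp [ih]; omega

theorem enc_app_inj {p p' u u' : List Bool} (h : enc p ++ u = enc p' ++ u') : p = p' ∧ u = u' := by
  induction p generalizing p' with
  | nil => cases p' with
    | nil => simpa [enc_nil] using h
    | cons b p' => simp [enc_nil, enc_cons] at h
  | cons a p ih => cases p' with
    | nil => simp [enc_nil, enc_cons] at h
    | cons b p' =>
      simp only [enc_cons, cons_append, cons.injEq, true_and] at h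
      obtain ⟨h1, h2⟩ := ih h.2
      exact ⟨by rw [h.1, h1], h2⟩

theorem enc_pre_inj {p p' u : List Bool} (h : enc p <+: u) (h' : enc p' <+: u) : p = p' := by
  obtain ⟨a, rfl⟩ := h; obtain ⟨b, hb⟩ := h'
  exact (enc_app_inj hb).1.symm

theorem rep_inj {m m' : ℕ} {u u' : List Bool}
    (h : replicate m true ++ false :: u = replicate m' true ++ false :: u') : m = m' ∧ u = u' := by
  induction m generalizing m' with
  | zero => cases m' with
    | zero => simpa using h
    | succ m' => simp [replicate_succ] at h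
  | succ m ih => cases m' with
    | zero => simp [replicate_succ] at h
    | succ m' =>
      simp only [replicate_succ, cons_append, cons.injEq, true_and] at h
      exact ⟨by rw [(ih h).1], (ih h).2⟩

theorem cell_inj {τ τ' u u' : List Bool} {m m' : ℕ} (h : cell τ m u = cell τ' m' u') :
    τ = τ' ∧ m = m' ∧ u = u' := by
  simp only [cell, cons.injEq, true_and] at h
  obtain ⟨h1, h2⟩ := enc_app_inj h
  exact ⟨h1, rep_inj h2⟩

theorem cell_len (τ u : List Bool) (m : ℕ) :
    (cell τ m u).length = 2 * τ.length + m + u.length + 3 := by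
  simp [cell, enc_len]; omega

theorem cell_head (τ u : List Bool) (m : ℕ) : (cell τ m u).head? = some true := rfl

theorem code_nil (idx : α → ℕ) : code idx [] = [] := rfl
theorem code_cons (idx : α → ℕ) (a : α) (x : List α) :
    code idx (a :: x) = replicate (idx a) true ++ false :: code idx x := by simp [code, cod1]
theorem code_append (idx : α → ℕ) (x y : List α) : code idx (x ++ y) = code idx x ++ code idx y := by
  simp [code]

theorem code_pre {idx : α → ℕ} (hi : Function.Injective idx) {x y : List α} :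
    code idx x <+: code idx y ↔ x <+: y := by
  refine ⟨fun h => ?_, fun ⟨z, hz⟩ => ⟨code idx z, by rw [← code_append, hz]⟩⟩
  induction x generalizing y with
  | nil => exact nil_prefix
  | cons a x ih =>
    obtain ⟨z, hz⟩ := h
    cases y with
    | nil => simp [code_cons, code_nil] at hz
    | cons b y =>
      rw [code_cons, code_cons, append_assoc, cons_append] at hz
      obtain ⟨h1, h2⟩ := rep_inj hz
      rw [hi h1]
      exact (cons_prefix_cons).2 ⟨rfl, ih ⟨z, h2⟩⟩

theorem code_inj {idx : α → ℕ} (hi : Function.Injective idx) {x y : List α}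
    (h : code idx x = code idx y) : x = y :=
  ((code_pre hi).1 (h ▸ prefix_rfl)).eq_of_length_le
    ((code_pre hi).1 (h ▸ prefix_rfl : code idx y <+: code idx x)).length_le

theorem code_len_ge (idx : α → ℕ) (x : List α) : x.length ≤ (code idx x).length := by
  induction x with
  | nil => simp
  | cons a x ih => rw [code_cons]; simp; omega

theorem code_len_le (idx : α → ℕ) {c : ℕ} (hc : ∀ a, idx a ≤ c) (x : List α) :
    (code idx x).length ≤ (c + 1) * x.length := by
  induction x with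
  | nil => simp [code_nil]
  | cons a x ih => have := hc a; rw [code_cons]; simp [Nat.mul_succ]; omega

theorem tau_len (e : ℕ) (idx : α → ℕ) (x : List α) :
    (tau e idx x).length = e + 1 + (code idx x).length := by simp [tau]; omega

theorem hard_len (K : ℕ) (x : List Bool) (i : ℕ) :
    (hard K x i).length = x.length + i + x.length ^ K + 3 := by simp [hard]; omega

theorem hard_inj {K : ℕ} {x x' : List Bool} {i i' : ℕ} (hl : x.length = x'.length)
    (h : hard K x i = hard K x' i') : x = x' ∧ i = i' := by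
  simp only [hard, cons.injEq, true_and] at h
  obtain ⟨h1, h2⟩ := append_inj h hl
  exact ⟨h1, (rep_inj h2).1⟩

theorem hard_ne_bet (K : ℕ) (x y : List Bool) (i : ℕ) : hard K x i ≠ bet y := by simp [hard, bet]
theorem bet_inj {y y' : List Bool} (h : bet y = bet y') : y = y' := by simpa [bet] using h
theorem hardF_len (O : Set (List Bool)) (K : ℕ) (x : List Bool) : (hardF O K x).length = x.length := by
  simp [hardF]

theorem idx_bdd [Finite α] (idx : α → ℕ) : ∃ c, ∀ a, idx a ≤ c :=
  let ⟨c, hc⟩ := (Set.finite_range idx).bddAbove; ⟨c, fun a => hc ⟨a, rfl⟩⟩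

end Pool.Agent.P.MP_d0c5d0_lc
end

-- part Pool.Agent.P.MP_d0c5d0_lc.Sim
section

/-! One step of a simulated machine that uses the real input head; deciders as transducers. -/

namespace Pool.Agent.P.MP_d0c5d0_lc

open Classical Function

variable {α β α' β' κ X : Type}

/-- load the tapes of a simulated configuration into a host state -/
def HS.load {Γ ι : Type} (s : HS β Γ ι κ X) (d : Dat β' Γ ι) : HS β Γ ι κ X :=
  {s with ih := d.ih, tp := d.tp, hd := d.hd, qt := d.qt}

/-- the host effect of a simulated effect -/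
noncomputable def simEff {Γ ι : Type} (β : Type) (j : In α') (g : ι ⊕ κ → Γ × Option X)
    (e : Eff β' Γ ι) : Eff β (Γ × Option X) (ι ⊕ κ) :=
  ⟨Sum.elim (fun i => (e.wr i, none)) (fun k => g (Sum.inr k)), Sum.elim e.mv (fun _ => 0),
    if e.im = 1 ∧ j = In.rend then 0 else e.im, none, e.qo⟩

theorem sim_rend {x : List α} {h : ℕ} (hh : h ≤ x.length + 1) :
    inp x h = In.rend ↔ h = x.length + 1 := by
  refine ⟨fun h1 => ?_, fun h1 => h1 ▸ inp_end x⟩
  cases h with
  | zero => rw [inp_zero] at h1; cases h1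
  | succ h =>
    by_contra h2
    rw [inp_lt x (by omega)] at h1
    cases h1

theorem sim_upd {Γ ι : Type} (bl : Γ) {n : ℕ} (x : List α') (d : Dat β' Γ ι) (s : HS β Γ ι κ X)
    (hn : x.length ≤ n) (hd : d.ih ≤ x.length + 1) (e : Eff β' Γ ι) :
    ((s.load d).dat bl).upd n (simEff β (inp x d.ih) ((s.load d).dat bl).rd e) =
      (s.load (d.upd x.length e)).dat bl := by
  simp only [Dat.upd, HS.dat, HS.load, simEff, Dat.mk.injEq, sim_rend hd]
  refine ⟨?_, ?_, ?_, by simp, trivial⟩
  · rcases e.im with _ | _ | _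
    · simp
    · simp
    · by_cases h : d.ih = x.length + 1
      · simp [h]
      · simp [h]; omega
  · funext i z
    rcases i with i | k
    · by_cases hz : z = d.hd i
      · subst hz; simp
      · simp [hz]
    · by_cases hz : z = s.p k
      · subst hz; simp [Dat.rd]
      · simp [hz]
  · funext i
    rcases i with i | k <;> simp

/-- one step of `M`, which sees the host input through `vw`; the host input starts with a copy of the
virtual input `x`.  The output letter of `M` is returned, not written. -/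
theorem sstep_ex (β κ X : Type) [Finite β'] (M : TM α' β') (vw : In α → In α') :
    ∃ P : M.Q → HP α β M.Γ M.ι κ X (Option (M.Q × Option β')), (M.Det → ∀ q, (P q).Det) ∧
      ∀ (bl : M.Γ) (C : Ctx α (M.ι ⊕ κ)) (x : List α') (c : M.Cfg) (s : HS β M.Γ M.ι κ X),
        x.length ≤ C.x.length → (∀ h ≤ x.length + 1, vw (inp C.x h) = inp x h) →
        c.2.ih ≤ x.length + 1 → (s.load c.2).ok C →
        (M.δ c.1 (inp x c.2.ih) c.2.rd = ∅ → Pg.Hv (P c.1) bl C (s.load c.2) 1 none (s.load c.2)) ∧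
        ∀ a ∈ M.δ c.1 (inp x c.2.ih) c.2.rd, (s.load (c.2.upd x.length a.1)).ok C →
          Pg.Hv (P c.1) bl C (s.load c.2) 1 (some (nxt C.O c.2 a, a.1.out))
            (s.load (c.2.upd x.length a.1)) := by
  have := M.finQ
  refine ⟨fun q => Pg.one fun i g =>
    if M.δ q (vw i) (fun j => (g (Sum.inl j)).1) = ∅ then {(nop g, none, none)} else
      (fun a => (simEff β (vw i) g a.1, some (a.2.1, a.1.out), some (a.2.2, a.1.out))) ''
        M.δ q (vw i) (fun j => (g (Sum.inl j)).1), fun hM q => det_one fun i g => ?_,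
    fun bl C x c s hx hv hc hok => ?_⟩
  · split_ifs
    · exact Set.subsingleton_singleton
    · exact (hM _ _ _).image _
  have h1 : vw (inp C.x ((s.load c.2).dat bl).ih) = inp x c.2.ih := hv _ hc
  have h2 : (fun j => (((s.load c.2).dat bl).rd (Sum.inl j)).1) = c.2.rd := rfl
  refine ⟨fun h => ?_, fun a ha hok' => ?_⟩
  · have h3 := ev_one (C := C) (d := (s.load c.2).dat bl) (f := fun i g =>
      if M.δ c.1 (vw i) (fun j => (g (Sum.inl j)).1) = ∅ then {(nop g, none, none)} else
        (fun a => (simEff β (vw i) g a.1, some (a.2.1, a.1.out), some (a.2.2, a.1.out))) ''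
          M.δ c.1 (vw i) (fun j => (g (Sum.inl j)).1))
      (a := (nop ((s.load c.2).dat bl).rd, none, none))
      (by rw [h1, h2, if_pos h]; rfl) hok (by rw [upd_nop]; exact hok)
    rw [nxt_same, upd_nop] at h3
    exact h3
  · have h4 := sim_upd bl x c.2 s hx hc a.1
    have h3 := ev_one (C := C) (d := (s.load c.2).dat bl) (f := fun i g =>
      if M.δ c.1 (vw i) (fun j => (g (Sum.inl j)).1) = ∅ then {(nop g, none, none)} else
        (fun a => (simEff β (vw i) g a.1, some (a.2.1, a.1.out), some (a.2.2, a.1.out))) ''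
          M.δ c.1 (vw i) (fun j => (g (Sum.inl j)).1))
      (a := (simEff β (inp x c.2.ih) ((s.load c.2).dat bl).rd a.1, some (a.2.1, a.1.out),
        some (a.2.2, a.1.out)))
      (by rw [h1, h2, if_neg (Set.Nonempty.ne_empty ⟨a, ha⟩)]; exact ⟨a, ha, rfl⟩) hok
      (by rw [h4]; exact hok')
    have h5 : nxt C.O ((s.load c.2).dat bl)
        (simEff β (inp x c.2.ih) ((s.load c.2).dat bl).rd a.1, some (a.2.1, a.1.out),
          some (a.2.2, a.1.out)) = some (nxt C.O c.2 a, a.1.out) := by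
      show (if a.1.qo = Qop.ask ∧ c.2.qt ∈ C.O then _ else _) = _
      unfold nxt
      split_ifs <;> rfl
    rw [h4, h5] at h3
    exact h3

theorem log_fun {O : Set (List Bool)} {A : Set (List α)} (h : LOG O A) : LogFun O (ind A) := by
  obtain ⟨M, hM, ⟨s, hs⟩, h⟩ := h
  have := M.finQ
  have := M.finΓ
  have := M.finι
  obtain ⟨P, hP, H⟩ := sstep_ex (α := α) Unit Empty Unit M id
  let K : M.Q → HP α Unit M.Γ M.ι Empty Unit (M.Q ⊕ Bool) := fun q => (P q).bind fun r =>
    r.elim (if q ∈ M.acc then (emit ()).seq (ret (Sum.inr true)) else ret (Sum.inr true))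
      fun p => ret (Sum.inl p.1)
  have hK : ∀ q, (K q).Det := fun q => det_bind (hP hM q) fun r => by
    cases r with
    | none =>
      show Pg.Det (if _ then _ else _)
      split_ifs
      · exact det_seq (det_emit _) (det_ret _)
      · exact det_ret _
    | some p => exact det_ret _
  refine logfun_of (P := Pg.iter K M.start) (M.blank, none) (det_iter hK _) s fun x => ?_
  obtain ⟨t, c, ⟨h1, h2⟩, h3⟩ := h x
  have hok : ∀ {t₀ c₀}, M.Run O x M.init t₀ c₀ → ((hs0 M.blank : HS Unit M.Γ M.ι Empty Unit).load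
      c₀.2).ok (cS O x (s * (Nat.log 2 (x.length + 1) + 1))) := fun h =>
    ok_cS.2 ⟨hs x _ _ h, fun k => k.elim⟩
  have key : ∀ {c₀ t c}, M.Run O x c₀ t c → M.δ c.1 (inp x c.2.ih) c.2.rd = ∅ →
      (c.1 ∈ M.acc ↔ x ∈ A) → ∀ t₀, M.Run O x M.init t₀ c₀ →
      ∃ t' s', Pg.Hv (Pg.iter K c₀.1) M.blank (cS O x (s * (Nat.log 2 (x.length + 1) + 1)))
        ((hs0 M.blank).load c₀.2) t' true s' ∧ s'.out = ind A x := by
    intro c₀ t c hr
    induction hr with
    | nil c =>
      intro h2 h3 t₀ h0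
      have h4 := (H M.blank (cS O x _) x c (hs0 M.blank) le_rfl (fun _ _ => rfl)
        (h0.ih_le (Nat.zero_le _)) (hok h0)).1 h2
      by_cases hc : c.1 ∈ M.acc
      · refine ⟨_, _, hv_iter_done (hv_bind h4 (by
          show Pg.Hv (if _ then _ else _) _ _ _ _ _ _
          rw [if_pos hc]
          exact hv_seq (hv_emit () (hok h0)) (hv_ret _ (hok h0)))), ?_⟩
        simp [ind, h3.1 hc, HS.load, hs0]
      · refine ⟨_, _, hv_iter_done (hv_bind h4 (by
          show Pg.Hv (if _ then _ else _) _ _ _ _ _ _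
          rw [if_neg hc]
          exact hv_ret _ (hok h0))), ?_⟩
        simp [ind, mt h3.2 hc, HS.load, hs0]
    | @cons c₀ c₁ c t hst _ ih =>
      intro h2 h3 t₀ h0
      have h5 := h0.snoc hst
      obtain ⟨t', s', h6, h7⟩ := ih h2 h3 _ h5
      obtain ⟨a, ha, rfl⟩ := hst
      have h4 := (H M.blank (cS O x _) x c₀ (hs0 M.blank) le_rfl (fun _ _ => rfl)
        (h0.ih_le (Nat.zero_le _)) (hok h0)).2 a ha (hok h5)
      exact ⟨_, s', hv_iter_more (hv_bind h4 (hv_ret _ (hok h5))) h6, h7⟩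
  obtain ⟨t', s', h4, h5⟩ := key h1 h2 h3 0 (.nil _)
  refine ⟨t', true, s'.dat M.blank, ?_, h5⟩
  rw [← hs0_dat]
  exact h4

end Pool.Agent.P.MP_d0c5d0_lc
end

-- part Pool.Agent.P.MP_d0c5d0_lc.Graph
section

/-! The graph of a log-lin function is decidable in logarithmic space. -/

namespace Pool.Agent.P.MP_d0c5d0_lc

open Classical Function

section aux

variable {α β Γ ι κ X E F : Type}

/-- evaluation without a time bound -/
def graphHE (P : HP α β Γ ι κ X E) (bl : Γ) (C : Ctx α (ι ⊕ κ)) (s : HS β Γ ι κ X) (e : E)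
    (s' : HS β Γ ι κ X) : Prop := ∃ t, Pg.Hv P bl C s t e s'

variable {bl : Γ} {C : Ctx α (ι ⊕ κ)} {s s' s₁ s₂ : HS β Γ ι κ X}

theorem graph_bind [Finite E] {P : HP α β Γ ι κ X E} {K : E → HP α β Γ ι κ X F} {e f}
    (h : graphHE P bl C s e s₁) (h' : graphHE (K e) bl C s₁ f s₂) :
    graphHE (P.bind K) bl C s f s₂ :=
  let ⟨_, h⟩ := h; let ⟨_, h'⟩ := h'; ⟨_, hv_bind h h'⟩

theorem graph_seq {P : HP α β Γ ι κ X Unit} {R : HP α β Γ ι κ X F} {f}
    (h : graphHE P bl C s () s₁) (h' : graphHE R bl C s₁ f s₂) :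
    graphHE (P.seq R) bl C s f s₂ :=
  let ⟨_, h⟩ := h; let ⟨_, h'⟩ := h'; ⟨_, hv_seq h h'⟩

theorem graph_cast {P : HP α β Γ ι κ X E} {e e'} (h : graphHE P bl C s e s₁) (he : e = e')
    (hs : s₁ = s₂) : graphHE P bl C s e' s₂ := he ▸ hs ▸ h

theorem graph_whl {c : HP α β Γ ι κ X Bool} {b : HP α β Γ ι κ X Unit} (n : ℕ)
    (σ σ' : ℕ → HS β Γ ι κ X) (hc : ∀ i < n, graphHE c bl C (σ i) true (σ' i))
    (hb : ∀ i < n, graphHE b bl C (σ' i) () (σ (i + 1))) (he : graphHE c bl C (σ n) false s') :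
    graphHE (whl c b) bl C (σ 0) () s' := by
  induction n generalizing σ σ' with
  | zero => obtain ⟨_, he⟩ := he; exact ⟨_, hv_whl_stop he⟩
  | succ n ih =>
    obtain ⟨_, h1⟩ := hc 0 (by omega)
    obtain ⟨_, h2⟩ := hb 0 (by omega)
    obtain ⟨_, h3⟩ := ih (fun i => σ (i + 1)) (fun i => σ' (i + 1))
      (fun i hi => hc _ (by omega)) (fun i hi => hb _ (by omega)) he
    exact ⟨_, hv_whl_more h1 h2 h3⟩

end aux

theorem graph_u0 (h : DecidableEq (Fin 3)) (a b c d : ℕ) :
    @update _ (fun _ => ℕ) h ![a, b, c] 0 d = ![d, b, c] := by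
  obtain rfl : h = instDecidableEqFin 3 := Subsingleton.elim _ _
  funext k; fin_cases k <;> simp
theorem graph_u1 (h : DecidableEq (Fin 3)) (a b c d : ℕ) :
    @update _ (fun _ => ℕ) h ![a, b, c] 1 d = ![a, d, c] := by
  obtain rfl : h = instDecidableEqFin 3 := Subsingleton.elim _ _
  funext k; fin_cases k <;> simp
theorem graph_u2 (h : DecidableEq (Fin 3)) (a b c d : ℕ) :
    @update _ (fun _ => ℕ) h ![a, b, c] 2 d = ![a, b, d] := by
  obtain rfl : h = instDecidableEqFin 3 := Subsingleton.elim _ _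
  funext k; fin_cases k <;> simp

/-- input head at `h`, counters `a b c` -/
def graphS {Γ ι : Type} (s : HS Empty Γ ι (Fin 3) Bool) (h a b c : ℕ) :
    HS Empty Γ ι (Fin 3) Bool := HS.cs {s with ih := h} ![a, b, c]

/-- is the letter from the left alphabet -/
def graphL {α β : Type} : In (α ⊕ β) → Bool
  | In.sym (Sum.inl _) => true
  | _ => false

/-- the view of the simulated machine -/
def graphV {α β : Type} : In (α ⊕ β) → In α
  | In.lend => In.lend
  | In.sym (Sum.inl a) => In.sym a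
  | _ => In.rend

section words

variable {α β : Type}

theorem graph_inp_l (x : List α) (r : List (α ⊕ β)) {i : ℕ} (hi : i < x.length) :
    inp (x.map Sum.inl ++ r) (i + 1) = In.sym (Sum.inl x[i]) := by
  rw [inp_succ, List.getElem?_append_left (by simpa using hi)]
  simp [hi]

theorem graph_inp_r (x : List α) (r : List (α ⊕ β)) (j : ℕ) :
    inp (x.map Sum.inl ++ r) (min (x.length + 1 + j) ((x.map Sum.inl ++ r).length + 1))
      = (r[j]?).elim In.rend In.sym := by
  by_cases h : j < r.length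
  · rw [min_eq_left (by simp; omega), show x.length + 1 + j = x.length + j + 1 by omega, inp_succ,
      List.getElem?_append_right (by simp)]
    simp
  · rw [min_eq_right (by simp; omega), inp_end, List.getElem?_eq_none (by omega)]
    rfl

theorem graph_inp_m (x : List α) {r : List (α ⊕ β)} (hr : ∀ a, r[0]? ≠ some (Sum.inl a)) :
    graphL (inp (x.map Sum.inl ++ r) (x.length + 1)) = false ∧
      graphV (inp (x.map Sum.inl ++ r) (x.length + 1)) = In.rend := by
  have h := graph_inp_r x r 0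
  rw [min_eq_left (by simp)] at h
  rw [show x.length + 1 = x.length + 1 + 0 from rfl, h]
  rcases h0 : r[0]? with _ | a | b
  · exact ⟨rfl, rfl⟩
  · exact absurd h0 (hr a)
  · exact ⟨rfl, rfl⟩

theorem graph_view (x : List α) {r : List (α ⊕ β)} (hr : ∀ a, r[0]? ≠ some (Sum.inl a)) :
    ∀ h ≤ x.length + 1, graphV (inp (x.map Sum.inl ++ r) h) = inp x h := by
  intro h hh
  rcases h with _ | h
  · rw [inp_zero, inp_zero]; rfl
  · by_cases h1 : h < x.length
    · rw [graph_inp_l x r h1, inp_lt x h1]; rfl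
    · obtain rfl : h = x.length := by omega
      rw [(graph_inp_m x hr).2, inp_end]

theorem graph_split (z : List (α ⊕ β)) :
    ∃ (x : List α) (r : List (α ⊕ β)), z = x.map Sum.inl ++ r ∧
      ∀ a, r[0]? ≠ some (Sum.inl a) := by
  induction z with
  | nil => exact ⟨[], [], rfl, by simp⟩
  | cons c z ih =>
    rcases c with a | b
    · obtain ⟨x, r, rfl, hr⟩ := ih
      exact ⟨a :: x, r, rfl, hr⟩
    · exact ⟨[], Sum.inr b :: z, rfl, by simp⟩

theorem graph_inj {x x' : List α} {r r' : List (α ⊕ β)} (hr : ∀ a, r[0]? ≠ some (Sum.inl a))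
    (hr' : ∀ a, r'[0]? ≠ some (Sum.inl a)) (h : x.map Sum.inl ++ r = x'.map Sum.inl ++ r') :
    x = x' ∧ r = r' := by
  induction x generalizing x' with
  | nil =>
    rcases x' with _ | ⟨a, x'⟩
    · exact ⟨rfl, h⟩
    · exact absurd (by rw [show r = _ from h]; rfl) (hr a)
  | cons a x ih =>
    rcases x' with _ | ⟨a', x'⟩
    · exact absurd (by rw [← show _ = r' from h]; rfl) (hr' a)
    · simp only [List.map_cons, List.cons_append, List.cons.injEq, Sum.inl.injEq] at h
      obtain ⟨h1, h2⟩ := ih h.2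
      exact ⟨by rw [h.1, h1], h2⟩

theorem graph_mem (f : List α → List β) (x : List α) {r : List (α ⊕ β)}
    (hr : ∀ a, r[0]? ≠ some (Sum.inl a)) :
    x.map Sum.inl ++ r ∈ Graph f ↔ r = (f x).map Sum.inr := by
  constructor
  · rintro ⟨x', h⟩
    obtain ⟨rfl, h2⟩ := graph_inj hr (by intro a; cases f x' <;> simp) h
    exact h2
  · rintro rfl; exact ⟨x, rfl⟩

theorem graph_out {M : TM α β} {O x} {c c' : M.Cfg} {t : ℕ} (h : M.Run O x c t c') :
    ∃ w, c'.2.out = c.2.out ++ w := by
  induction h with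
  | nil c => exact ⟨[], by simp⟩
  | cons h1 _ ih =>
    obtain ⟨a, -, rfl⟩ := h1
    obtain ⟨w, hw⟩ := ih
    exact ⟨a.1.out.toList ++ w, by rw [hw]; simp [Dat.upd]⟩

theorem graph_drop (r : List (α ⊕ β)) (j : ℕ) (c : α ⊕ β) (u : List (α ⊕ β)) :
    r.drop j = c :: u ↔ (r[j]?).elim In.rend In.sym = In.sym c ∧ r.drop (j + 1) = u := by
  by_cases h : j < r.length
  · rw [List.drop_eq_getElem_cons h, List.getElem?_eq_getElem h, List.cons.injEq]
    simp only [Option.elim, In.sym.injEq]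
  · rw [List.drop_eq_nil_of_le (by omega), List.getElem?_eq_none (by omega)]
    simp

theorem graph_drop_nil (r : List (α ⊕ β)) (j : ℕ) :
    r.drop j = [] ↔ (r[j]?).elim In.rend In.sym = In.rend := by
  by_cases h : j < r.length
  · rw [List.getElem?_eq_getElem h]
    simp [h]
  · rw [List.drop_eq_nil_of_le (by omega), List.getElem?_eq_none (by omega)]
    simp

end words

theorem graph_logb (s₀ s N m : ℕ) (h : m ≤ (s + 3) * (N + 1)) :
    Nat.log 2 m + 2 ≤ (s₀ + s + 6) * (Nat.log 2 (N + 1) + 1) := by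
  have h1 : N + 1 < 2 ^ (Nat.log 2 (N + 1) + 1) := Nat.lt_pow_succ_log_self (by norm_num) _
  have h2 : s + 3 ≤ 2 ^ (s + 3) := Nat.lt_two_pow_self.le
  have h3 : m < 2 ^ (s + 3 + (Nat.log 2 (N + 1) + 1)) := by
    rw [pow_add]
    exact lt_of_le_of_lt h (Nat.mul_lt_mul_of_le_of_lt h2 h1 (by positivity))
  have h4 : Nat.log 2 m ≤ s + 3 + (Nat.log 2 (N + 1) + 1) := by
    rcases Nat.eq_zero_or_pos m with rfl | hm
    · simp
    · exact (Nat.log_lt_of_lt_pow hm.ne' h3).le
  nlinarith [Nat.zero_le (Nat.log 2 (N + 1)), Nat.zero_le s₀, Nat.zero_le s,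
    Nat.zero_le (s₀ * Nat.log 2 (N + 1)), Nat.zero_le (s * Nat.log 2 (N + 1))]

/-- compare letter number `j` of the second part of the input with a target -/
theorem graph_check (α β Γ ι : Type) [Finite α] [Finite β] :
    ∃ chk : In (α ⊕ β) → HP (α ⊕ β) Empty Γ ι (Fin 3) Bool Bool, (∀ a, (chk a).Det) ∧
      ∀ (bl : Γ) (O : Set (List Bool)) (x : List α) (r : List (α ⊕ β)) (B j : ℕ)
        (s : HS Empty Γ ι (Fin 3) Bool) (tg : In (α ⊕ β)), (∀ a, r[0]? ≠ some (Sum.inl a)) →
        (∀ i, |s.hd i| ≤ (B : ℤ)) → s.ih ≤ (x.map Sum.inl ++ r).length + 1 →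
        (∀ m, m ≤ (x.map Sum.inl ++ r).length + 1 ∨ m ≤ j → Nat.log 2 (m + 2) + 2 ≤ B) →
        graphHE (chk tg) bl (cS O (x.map Sum.inl ++ r) B) (s.cs ![0, j, 0])
          (decide ((r[j]?).elim In.rend In.sym = tg)) (s.cs ![0, j + 1, 0]) := by
  obtain ⟨i0, d0, hi0, hd0, H0⟩ := cnt_ex (α ⊕ β) Empty Γ ι (0 : Fin 3)
  obtain ⟨i1, d1, hi1, hd1, H1⟩ := cnt_ex (α ⊕ β) Empty Γ ι (1 : Fin 3)
  obtain ⟨i2, d2, hi2, hd2, H2⟩ := cnt_ex (α ⊕ β) Empty Γ ι (2 : Fin 3)
  refine ⟨fun tg => (whl (testI fun i => decide (i ≠ In.lend)) ((mvI (-1)).seq i0)).seq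
    ((mvI 1).seq ((whl (testI graphL) (mvI 1)).seq ((whl d1 ((mvI 1).seq i2)).seq
      (lookI.bind fun i => (whl d2 i1).seq (i1.seq (rewI.seq ((whl d0 (mvI 1)).seq
        (ret (decide (i = tg)))))))))), fun tg => ?_, ?_⟩
  · exact det_seq (det_whl (det_testI _) (det_seq (det_mvI _) hi0)) (det_seq (det_mvI _)
      (det_seq (det_whl (det_testI _) (det_mvI _)) (det_seq (det_whl hd1 (det_seq (det_mvI _) hi2))
        (det_bind det_lookI fun _ => det_seq (det_whl hd2 hi1) (det_seq hi1 (det_seq det_rewI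
          (det_seq (det_whl hd0 (det_mvI _)) (det_ret _))))))))
  intro bl O x r B j s tg hr hb hih hB
  generalize hz : x.map Sum.inl ++ r = z at *
  have hxz : x.length ≤ z.length := by rw [← hz]; simp
  have ok : ∀ h a b c, (graphS s h a b c).ok (cS O z B) := fun h a b c =>
    cs_ok (s := {s with ih := h}) hb _
  have I0 : ∀ h a b c, a ≤ z.length + 1 →
      graphHE i0 bl (cS O z B) (graphS s h a b c) () (graphS s h (a + 1) b c) := by
    intro h a b c ha
    have := (H0 bl O z B {s with ih := h} ![a, b, c] hb (hB a (Or.inl ha))).1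
    rw [graph_u0] at this
    exact this
  have D0 : ∀ h a b c, a ≤ z.length + 1 →
      graphHE d0 bl (cS O z B) (graphS s h a b c) (decide (0 < a)) (graphS s h (a - 1) b c) := by
    intro h a b c ha
    have := (H0 bl O z B {s with ih := h} ![a, b, c] hb (hB a (Or.inl ha))).2
    rw [graph_u0] at this
    exact this
  have I1 : ∀ h a b c, b ≤ j →
      graphHE i1 bl (cS O z B) (graphS s h a b c) () (graphS s h a (b + 1) c) := by
    intro h a b c ha
    have := (H1 bl O z B {s with ih := h} ![a, b, c] hb (hB b (Or.inr ha))).1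
    rw [graph_u1] at this
    exact this
  have D1 : ∀ h a b c, b ≤ j →
      graphHE d1 bl (cS O z B) (graphS s h a b c) (decide (0 < b)) (graphS s h a (b - 1) c) := by
    intro h a b c ha
    have := (H1 bl O z B {s with ih := h} ![a, b, c] hb (hB b (Or.inr ha))).2
    rw [graph_u1] at this
    exact this
  have I2 : ∀ h a b c, c ≤ j →
      graphHE i2 bl (cS O z B) (graphS s h a b c) () (graphS s h a b (c + 1)) := by
    intro h a b c ha
    have := (H2 bl O z B {s with ih := h} ![a, b, c] hb (hB c (Or.inr ha))).1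
    rw [graph_u2] at this
    exact this
  have D2 : ∀ h a b c, c ≤ j →
      graphHE d2 bl (cS O z B) (graphS s h a b c) (decide (0 < c)) (graphS s h a b (c - 1)) := by
    intro h a b c ha
    have := (H2 bl O z B {s with ih := h} ![a, b, c] hb (hB c (Or.inr ha))).2
    rw [graph_u2] at this
    exact this
  have RT : ∀ h a b c, graphHE (mvI 1) bl (cS O z B) (graphS s h a b c) ()
      (graphS s (min (h + 1) (z.length + 1)) a b c) := fun h a b c => ⟨_, hv_right' (ok h a b c)⟩
  have LT : ∀ h a b c, graphHE (mvI (-1)) bl (cS O z B) (graphS s h a b c) ()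
      (graphS s (h - 1) a b c) := fun h a b c => ⟨_, hv_left (ok h a b c)⟩
  have TS : ∀ g h a b c, graphHE (testI g) bl (cS O z B) (graphS s h a b c) (g (inp z h))
      (graphS s h a b c) := fun g h a b c => ⟨_, hv_testI g (ok h a b c)⟩
  have L1 : graphHE (whl (testI fun i => decide (i ≠ In.lend)) ((mvI (-1)).seq i0)) bl (cS O z B)
      (graphS s s.ih 0 j 0) () (graphS s 0 s.ih j 0) :=
    graph_whl s.ih (fun i => graphS s (s.ih - i) i j 0) (fun i => graphS s (s.ih - i) i j 0)
      (fun i hi => graph_cast (TS _ _ _ _ _) (by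
        obtain ⟨m, hm⟩ : ∃ m, s.ih - i = m + 1 := ⟨s.ih - i - 1, by omega⟩
        simp [hm, inp_ne_lend]) rfl)
      (fun i hi => graph_seq (LT _ _ _ _) (I0 _ _ _ _ (by omega)))
      (graph_cast (TS _ _ _ _ _) (by simp [inp_zero]) (by simp))
  have L2 : graphHE (whl (testI graphL) (mvI 1)) bl (cS O z B)
      (graphS s 1 s.ih j 0) () (graphS s (x.length + 1) s.ih j 0) :=
    graph_whl x.length (fun i => graphS s (i + 1) s.ih j 0) (fun i => graphS s (i + 1) s.ih j 0)
      (fun i hi => graph_cast (TS _ _ _ _ _) (by rw [← hz, graph_inp_l x r hi]; rfl) rfl)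
      (fun i hi => graph_cast (RT _ _ _ _) rfl (by rw [min_eq_left (by omega)]))
      (graph_cast (TS _ _ _ _ _) (by rw [← hz]; exact (graph_inp_m x hr).1) rfl)
  have L3 : graphHE (whl d1 ((mvI 1).seq i2)) bl (cS O z B)
      (graphS s (min (x.length + 1 + 0) (z.length + 1)) s.ih j 0) ()
      (graphS s (min (x.length + 1 + j) (z.length + 1)) s.ih 0 j) :=
    graph_whl j (fun i => graphS s (min (x.length + 1 + i) (z.length + 1)) s.ih (j - i) i)
      (fun i => graphS s (min (x.length + 1 + i) (z.length + 1)) s.ih (j - i - 1) i)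
      (fun i hi => graph_cast (D1 _ _ _ _ (by omega)) (by simp; omega) rfl)
      (fun i hi => graph_cast (graph_seq (RT _ _ _ _) (I2 _ _ _ _ (by omega))) rfl (by
        congr 1; omega))
      (graph_cast (D1 _ _ _ _ (by omega)) (by simp) (by simp))
  rw [min_eq_left (by omega)] at L3
  have L4 : ∀ h, graphHE (whl d2 i1) bl (cS O z B) (graphS s h s.ih 0 j) ()
      (graphS s h s.ih j 0) := fun h =>
    graph_whl j (fun i => graphS s h s.ih i (j - i)) (fun i => graphS s h s.ih i (j - i - 1))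
      (fun i hi => graph_cast (D2 _ _ _ _ (by omega)) (by simp; omega) rfl)
      (fun i hi => I1 _ _ _ _ (by omega))
      (graph_cast (D2 _ _ _ _ (by omega)) (by simp) (by simp))
  have L5 : graphHE (whl d0 (mvI 1)) bl (cS O z B) (graphS s 0 s.ih (j + 1) 0) ()
      (graphS s s.ih 0 (j + 1) 0) :=
    graph_whl s.ih (fun i => graphS s i (s.ih - i) (j + 1) 0)
      (fun i => graphS s i (s.ih - i - 1) (j + 1) 0)
      (fun i hi => graph_cast (D0 _ _ _ _ (by omega)) (by simp; omega) rfl)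
      (fun i hi => graph_cast (RT _ _ _ _) rfl (by rw [min_eq_left (by omega)]; rfl))
      (graph_cast (D0 _ _ _ _ (by omega)) (by simp) (by simp))
  have hlet : inp z (min (x.length + 1 + j) (z.length + 1)) = (r[j]?).elim In.rend In.sym := by
    rw [← hz]; exact graph_inp_r x r j
  refine graph_seq L1 (graph_seq (graph_cast (RT _ _ _ _) rfl (by rw [min_eq_left (by omega)]))
    (graph_seq L2 (graph_seq L3 (graph_bind (graph_cast ⟨_, hv_lookI (ok _ _ _ _)⟩ hlet rfl)
      (graph_seq (L4 _) (graph_seq (I1 _ _ _ _ le_rfl) (graph_seq ⟨_, hv_rewI (ok _ _ _ _)⟩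
        (graph_seq L5 ⟨_, hv_ret _ (ok _ _ _ _)⟩))))))))

theorem graph_log {α β : Type} [Finite α] [Finite β] {O : Set (List Bool)} {f : List α → List β}
    (hf : LogFun O f) (s : ℕ) (hs : ∀ x, (f x).length ≤ s * (x.length + 1)) : LOG O (Graph f) := by
  obtain ⟨M, hdet, ⟨s₀, hsp⟩, hM⟩ := hf
  have := M.finQ
  have := M.finΓ
  have := M.finι
  obtain ⟨P, hP, HP'⟩ := sstep_ex Empty (Fin 3) Bool M (graphV (α := α) (β := β))
  obtain ⟨chk, hchk, Hchk⟩ := graph_check α β M.Γ M.ι
  let K : M.Q → HP (α ⊕ β) Empty M.Γ M.ι (Fin 3) Bool (M.Q ⊕ Bool) := fun q =>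
    (P q).bind fun o => o.elim ((chk In.rend).bind fun b => ret (Sum.inr b)) fun p =>
      p.2.elim (ret (Sum.inl p.1)) fun b => (chk (In.sym (Sum.inr b))).bind fun g =>
        ret (if g = true then Sum.inl p.1 else Sum.inr false)
  have hK : ∀ q, (K q).Det := fun q => det_bind (hP hdet q) fun o => by
    rcases o with _ | ⟨q', _ | b⟩
    · exact det_bind (hchk _) fun _ => det_ret _
    · exact det_ret _
    · exact det_bind (hchk _) fun _ => det_ret _
  refine log_of (P := Pg.iter K M.start) (M.blank, none) (det_iter hK _) (s₀ + s + 6) fun z => ?_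
  obtain ⟨x, r, rfl, hr⟩ := graph_split z
  obtain ⟨T, ce, ⟨hrun, hend⟩, hout⟩ := hM x
  have Hc := fun B j s tg => Hchk M.blank O x r B j s tg hr
  have hview := graph_view x hr
  rw [graph_mem f x hr]
  generalize hz : x.map Sum.inl ++ r = z at *
  have hxz : x.length ≤ z.length := by rw [← hz]; simp
  generalize hB : (s₀ + s + 6) * (Nat.log 2 (z.length + 1) + 1) = B
  have hbd : ∀ t c, M.Run O x M.init t c → ∀ i, |c.2.hd i| ≤ (B : ℤ) := by
    intro t c hc i
    refine (hsp x t c hc i).trans (Int.ofNat_le.2 ?_)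
    rw [← hB]
    exact Nat.mul_le_mul (by omega) (Nat.succ_le_succ (Nat.log_mono_right (by omega)))
  have hlog : ∀ j ≤ (f x).length, ∀ m, m ≤ z.length + 1 ∨ m ≤ j →
      Nat.log 2 (m + 2) + 2 ≤ B := by
    intro j hj m hm
    rw [← hB]
    refine graph_logb s₀ s z.length _ ?_
    have h1 := hs x
    have h2 : s * (x.length + 1) ≤ s * (z.length + 1) := Nat.mul_le_mul_left _ (by omega)
    rw [Nat.add_mul]
    omega
  have key : ∀ (t : ℕ) (c : M.Cfg), M.Run O x c t ce → ∀ t₀, M.Run O x M.init t₀ c →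
      ∀ w, f x = c.2.out ++ w → ∃ e s', graphHE (Pg.iter K c.1) M.blank (cS O z B)
        (((hs0 M.blank : HS Empty M.Γ M.ι (Fin 3) Bool).load c.2).cs ![0, c.2.out.length, 0]) e s' ∧
        (e = true ↔ r.drop c.2.out.length = w.map Sum.inr) := by
    intro t
    induction t with
    | zero =>
      intro c hc t₀ h0 w hw
      obtain rfl := hc.zero_inv
      have hih := h0.ih_le (Nat.zero_le _)
      have hok := cs_ok (O := O) (x := z) (s := (hs0 M.blank : HS Empty M.Γ M.ι (Fin 3) Bool).load ce.2)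
        (hbd _ _ h0)
      have h1 := (HP' M.blank (cS O z B) x ce ((hs0 M.blank).cs ![0, ce.2.out.length, 0]) hxz hview hih
        (hok _)).1 hend
      have h2 := Hc B ce.2.out.length ((hs0 M.blank).load ce.2) In.rend (hbd _ _ h0)
        (hih.trans (by omega)) (hlog _ (by rw [hout]))
      obtain ⟨_, h3⟩ := graph_bind (K := fun o : Option (M.Q × Option β) =>
        o.elim ((chk In.rend).bind fun b => ret (Sum.inr b)) fun p =>
          p.2.elim (ret (Sum.inl p.1)) fun b => (chk (In.sym (Sum.inr b))).bind fun g =>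
            ret (if g = true then Sum.inl p.1 else Sum.inr false)) ⟨_, h1⟩
        (graph_bind (K := fun b => ret (Sum.inr b : M.Q ⊕ Bool)) h2 ⟨_, hv_ret _ (hok _)⟩)
      refine ⟨_, _, ⟨_, hv_iter_done h3⟩, ?_⟩
      obtain rfl : w = [] := by simpa [hout] using hw
      rw [List.map_nil, graph_drop_nil, decide_eq_true_iff]
    | succ t ih =>
      intro c hc t₀ h0 w hw
      cases hc with
      | cons hst hc =>
      have h0' := h0.snoc hst
      obtain ⟨w', hw'⟩ := graph_out hc
      rw [hout] at hw'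
      obtain ⟨e, s', ⟨_, h4⟩, h5⟩ := ih _ hc _ h0' w' hw'
      obtain ⟨a, ha, rfl⟩ := hst
      have hih := h0.ih_le (Nat.zero_le _)
      have hih' := h0'.ih_le (Nat.zero_le _)
      have hok := cs_ok (O := O) (x := z) (s := (hs0 M.blank : HS Empty M.Γ M.ι (Fin 3) Bool).load c.2)
        (hbd _ _ h0)
      have hok' := cs_ok (O := O) (x := z)
        (s := (hs0 M.blank : HS Empty M.Γ M.ι (Fin 3) Bool).load (c.2.upd x.length a.1)) (hbd _ _ h0')
      have h1 := (HP' M.blank (cS O z B) x c ((hs0 M.blank).cs ![0, c.2.out.length, 0]) hxz hview hih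
        (hok _)).2 a ha (hok' _)
      have ho : (c.2.upd x.length a.1).out = c.2.out ++ a.1.out.toList := rfl
      dsimp only at h4 h5 hw' hih'
      rw [ho] at h4 h5 hw'
      have hww : w = a.1.out.toList ++ w' := by
        rw [hw', List.append_assoc] at hw
        exact (List.append_cancel_left hw).symm
      rcases hao : a.1.out with _ | b
      · rw [hao] at h1 h4 h5 hww
        simp only [Option.toList_none, List.append_nil, List.nil_append] at h4 h5 hww
        obtain ⟨_, h3⟩ := graph_bind (K := fun o : Option (M.Q × Option β) =>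
          o.elim ((chk In.rend).bind fun b => ret (Sum.inr b)) fun p =>
            p.2.elim (ret (Sum.inl p.1)) fun b => (chk (In.sym (Sum.inr b))).bind fun g =>
              ret (if g = true then Sum.inl p.1 else Sum.inr false)) ⟨_, h1⟩ ⟨_, hv_ret _ (hok' _)⟩
        exact ⟨e, s', ⟨_, hv_iter_more h3 h4⟩, hww ▸ h5⟩
      · rw [hao] at h1 h4 h5 hww
        simp only [Option.toList_some, List.length_append, List.length_singleton,
          List.singleton_append] at h4 h5 hww
        have h2 := Hc B c.2.out.length ((hs0 M.blank).load (c.2.upd x.length a.1))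
          (In.sym (Sum.inr b)) (hbd _ _ h0') (hih'.trans (by omega))
          (hlog _ (by rw [hw]; simp))
        obtain ⟨_, h3⟩ := graph_bind (K := fun o : Option (M.Q × Option β) =>
          o.elim ((chk In.rend).bind fun b => ret (Sum.inr b)) fun p =>
            p.2.elim (ret (Sum.inl p.1)) fun b => (chk (In.sym (Sum.inr b))).bind fun g =>
              ret (if g = true then Sum.inl p.1 else Sum.inr false)) ⟨_, h1⟩
          (graph_bind (K := fun g => ret (if g = true then Sum.inl (nxt O c.2 a) else Sum.inr false :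
            M.Q ⊕ Bool)) h2 ⟨_, hv_ret _ (hok' _)⟩)
        rw [hww, List.map_cons, graph_drop]
        by_cases hg : (r[c.2.out.length]?).elim In.rend In.sym = In.sym (Sum.inr b)
        · rw [if_pos (decide_eq_true hg)] at h3
          exact ⟨e, s', ⟨_, hv_iter_more h3 h4⟩, by rw [h5]; simp [hg]⟩
        · rw [if_neg (by simpa using hg)] at h3
          exact ⟨false, _, ⟨_, hv_iter_done h3⟩, by simp [hg]⟩
  obtain ⟨e, s', ⟨t, h1⟩, h2⟩ := key T M.init hrun 0 (.nil _) (f x) rfl
  refine ⟨t, e, s'.dat M.blank, ?_, h2⟩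
  have h3 : (![0, 0, 0] : Fin 3 → ℕ) = fun _ => 0 := by
    funext k; fin_cases k <;> rfl
  have h4 : ((hs0 M.blank : HS Empty M.Γ M.ι (Fin 3) Bool).load M.init.2).cs
      ![0, M.init.2.out.length, 0] = hs0 M.blank := by
    rw [← cs_zero M.blank, ← h3]; rfl
  rw [h4] at h1
  rw [← hs0_dat]
  exact h1

end Pool.Agent.P.MP_d0c5d0_lc
end

-- part Pool.Agent.P.MP_d0c5d0_lc.VRun
section

/-! Running a machine on a virtual input stored on an own tape. -/

namespace Pool.Agent.P.MP_d0c5d0_lc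

open Classical Function

variable {α β α' Γ ι κ X : Type}

/-- the tapes `j i` are blank for `M`, own tape `v` holds the input `w` with its end markers -/
def VInit (M : TM α' Empty) (j : M.ι → ι) (get : Γ → M.Γ) (v : κ) (vw : Option X → In α')
    (s : HS β Γ ι κ X) (w : List α') : Prop :=
  (∀ i z, get (s.tp (j i) z) = M.blank) ∧ (∀ i, s.hd (j i) = 0) ∧ s.p v = 0 ∧
    (∀ h : ℕ, h ≤ w.length + 1 → vw (s.f v h) = inp w h) ∧ s.qt = []

/-- what a virtual run leaves unchanged -/
def VFr {ι' : Type} (j : ι' → ι) (v : κ) (s s' : HS β Γ ι κ X) : Prop :=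
  s'.ih = s.ih ∧ s'.f = s.f ∧ s'.out = s.out ∧ (∀ k, k ≠ v → s'.p k = s.p k) ∧
    ∀ i, i ∉ Set.range j → s'.tp i = s.tp i ∧ s'.hd i = s.hd i

/-- move of the virtual input head -/
def vrunMv (i : In α') (m : SignType) : SignType :=
  In.casesOn i (if m = -1 then 0 else m) (if m = 1 then 0 else m) (fun _ => m)

/-- host effect simulating one step -/
noncomputable def vrunEff {G I : Type} (j : I → ι) (put : G → Γ) (v : κ) (i : In α')
    (g : ι ⊕ κ → Γ × Option X) (e : Eff Empty G I) : Eff β (Γ × Option X) (ι ⊕ κ) where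
  wr := Sum.elim (fun k => (extend j (fun i => put (e.wr i)) (fun k => (g (Sum.inl k)).1) k, none))
    (fun k => g (Sum.inr k))
  mv := Sum.elim (extend j e.mv (fun _ => 0)) (update (fun _ => 0) v (vrunMv i e.im))
  im := 0
  out := none
  qo := e.qo

/-- host state after one simulated step -/
noncomputable def vrunNx {G I : Type} (j : I → ι) (put : G → Γ) (v : κ) (i : In α')
    (s : HS β Γ ι κ X) (e : Eff Empty G I) : HS β Γ ι κ X where
  ih := s.ih
  tp := fun k => update (s.tp k) (s.hd k)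
    (extend j (fun i => put (e.wr i)) (fun k => s.tp k (s.hd k)) k)
  hd := fun k => s.hd k + ((extend j e.mv (fun _ => 0) k : SignType) : ℤ)
  f := s.f
  p := update s.p v (s.p v + (vrunMv i e.im : ℤ))
  out := s.out
  qt := Qop.casesOn (motive := fun _ => List Bool) e.qo s.qt (fun b => s.qt ++ [b]) []

theorem vrun_upd {G I : Type} (j : I → ι) (put : G → Γ) (v : κ) (i : In α') (bl : Γ) (n : ℕ)
    (s : HS β Γ ι κ X) (e : Eff Empty G I) :
    (s.dat bl).upd n (vrunEff j put v i (s.dat bl).rd e) = (vrunNx j put v i s e).dat bl := by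
  simp only [Dat.upd, HS.dat, vrunEff, vrunNx, Dat.mk.injEq]
  refine ⟨by simp, ?_, ?_, by simp, trivial⟩
  · funext k z
    rcases k with k | k
    · by_cases hz : z = s.hd k
      · subst hz; simp [Dat.rd]
      · simp [hz]
    · by_cases hz : z = s.p k
      · subst hz; simp [Dat.rd]
      · simp [hz]
  · funext k
    rcases k with k | k
    · simp
    · by_cases hk : k = v
      · subst hk; simp
      · simp [hk]

/-- the host state `s` represents the tapes `c` -/
def vrunR {G I : Type} (j : I → ι) (get : Γ → G) (v : κ) (vw : Option X → In α') (w : List α')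
    (c : Dat Empty G I) (s : HS β Γ ι κ X) : Prop :=
  (∀ i z, get (s.tp (j i) z) = c.tp i z) ∧ (∀ i, s.hd (j i) = c.hd i) ∧ s.p v = c.ih ∧
    (∀ h : ℕ, h ≤ w.length + 1 → vw (s.f v h) = inp w h) ∧ s.qt = c.qt ∧ c.ih ≤ w.length + 1

theorem vrun_mv (w : List α') (h : ℕ) (hh : h ≤ w.length + 1) (m : SignType) :
    (h : ℤ) + (vrunMv (inp w h) m : ℤ) =
      ((if m = 1 then min (h + 1) (w.length + 1) else if m = -1 then h - 1 else h : ℕ) : ℤ) := by
  rcases h with _ | h
  · rw [inp_zero]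
    cases m <;> simp [vrunMv]
  · rcases Nat.lt_or_ge h w.length with h1 | h1
    · rw [inp_lt _ h1]
      cases m <;> simp [vrunMv]
      omega
    · obtain rfl : h = w.length := by omega
      rw [inp_end]
      cases m <;> simp [vrunMv]

theorem vrun_step {G I : Type} {j : I → ι} (hj : Injective j) {get : Γ → G} {put : G → Γ}
    (hgp : ∀ a, get (put a) = a) {v : κ} {vw : Option X → In α'} {w : List α'}
    {c : Dat Empty G I} {s : HS β Γ ι κ X} (h : vrunR j get v vw w c s) (e : Eff Empty G I) :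
    vrunR j get v vw w (c.upd w.length e) (vrunNx j put v (inp w c.ih) s e) := by
  obtain ⟨h1, h2, h3, h4, h5, h6⟩ := h
  refine ⟨fun i z => ?_, fun i => ?_, ?_, h4, ?_, upd_ih_le _ h6⟩
  · simp only [vrunNx, Dat.upd, hj.extend_apply, h2]
    by_cases hz : z = c.hd i
    · subst hz; simp [hgp]
    · simp [hz, h1]
  · simp only [vrunNx, Dat.upd, hj.extend_apply, h2]
  · simp only [vrunNx, Dat.upd, update_self, h3]
    exact vrun_mv w c.ih h6 e.im
  · simp only [vrunNx, Dat.upd, h5]

theorem vrun_fr_refl {I : Type} (j : I → ι) (v : κ) (s : HS β Γ ι κ X) : VFr j v s s :=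
  ⟨rfl, rfl, rfl, fun _ _ => rfl, fun _ _ => ⟨rfl, rfl⟩⟩

theorem vrun_fr_trans {I : Type} {j : I → ι} {v : κ} {s s₁ s₂ : HS β Γ ι κ X}
    (h : VFr j v s s₁) (h' : VFr j v s₁ s₂) : VFr j v s s₂ :=
  ⟨h'.1.trans h.1, h'.2.1.trans h.2.1, h'.2.2.1.trans h.2.2.1,
    fun k hk => (h'.2.2.2.1 k hk).trans (h.2.2.2.1 k hk),
    fun i hi => ⟨(h'.2.2.2.2 i hi).1.trans (h.2.2.2.2 i hi).1,
      (h'.2.2.2.2 i hi).2.trans (h.2.2.2.2 i hi).2⟩⟩

theorem vrun_fr_nx {G I : Type} (j : I → ι) (put : G → Γ) (v : κ) (i : In α')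
    (s : HS β Γ ι κ X) (e : Eff Empty G I) : VFr j v s (vrunNx j put v i s e) := by
  refine ⟨rfl, rfl, rfl, fun k hk => ?_, fun k hk => ⟨?_, ?_⟩⟩
  · simp [vrunNx, hk]
  · simp only [vrunNx]
    rw [extend_apply' _ _ _ (by simpa using hk), update_eq_self]
  · simp only [vrunNx]
    rw [extend_apply' _ _ _ (by simpa using hk)]
    simp

/-- the actions of one simulated step -/
noncomputable def vrunF (β : Type) (M : TM α' Empty) (j : M.ι → ι) (get : Γ → M.Γ) (put : M.Γ → Γ)
    (v : κ) (vw : Option X → In α') (q : M.Q) (g : ι ⊕ κ → Γ × Option X) :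
    Set (Eff β (Γ × Option X) (ι ⊕ κ) × (M.Q ⊕ Bool) × (M.Q ⊕ Bool)) :=
  if M.δ q (vw (g (Sum.inr v)).2) (fun i => get (g (Sum.inl (j i))).1) = ∅ then
    {(nop g, Sum.inr (decide (q ∈ M.acc)), Sum.inr (decide (q ∈ M.acc)))}
  else (fun a => (vrunEff j put v (vw (g (Sum.inr v)).2) g a.1, Sum.inl a.2.1, Sum.inl a.2.2)) ''
    M.δ q (vw (g (Sum.inr v)).2) (fun i => get (g (Sum.inl (j i))).1)

theorem vrun_F {M : TM α' Empty} {j : M.ι → ι} {get : Γ → M.Γ} (put : M.Γ → Γ)
    {v : κ} {vw : Option X → In α'} {w : List α'} (q : M.Q) {c : Dat Empty M.Γ M.ι}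
    {s : HS β Γ ι κ X} (bl : Γ) (h : vrunR j get v vw w c s) :
    vrunF β M j get put v vw q (s.dat bl).rd =
      if M.δ q (inp w c.ih) c.rd = ∅ then
        {(nop (s.dat bl).rd, Sum.inr (decide (q ∈ M.acc)), Sum.inr (decide (q ∈ M.acc)))}
      else (fun a => (vrunEff j put v (inp w c.ih) (s.dat bl).rd a.1, Sum.inl a.2.1,
        Sum.inl a.2.2)) '' M.δ q (inp w c.ih) c.rd := by
  obtain ⟨h1, h2, h3, h4, h5, h6⟩ := h
  have e1 : vw ((s.dat bl).rd (Sum.inr v)).2 = inp w c.ih := by
    show vw (s.f v (s.p v)) = _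
    rw [h3]; exact h4 _ h6
  have e2 : (fun i => get ((s.dat bl).rd (Sum.inl (j i))).1) = c.rd := by
    funext i
    show get (s.tp (j i) (s.hd (j i))) = _
    rw [h1, h2]; rfl
  unfold vrunF
  rw [e1, e2]

theorem vrun_nxt {G I Q : Type} {j : I → ι} {get : Γ → G} (put : G → Γ) {v : κ}
    {vw : Option X → In α'} {w : List α'} {c : Dat Empty G I} {s : HS β Γ ι κ X} (bl : Γ)
    (h : vrunR j get v vw w c s) (O : Set (List Bool)) (i : In α') (g)
    (a : Eff Empty G I × Q × Q) :
    nxt O (s.dat bl) ((vrunEff j put v i g a.1 : Eff β _ _), (Sum.inl a.2.1 : Q ⊕ Bool),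
      (Sum.inl a.2.2 : Q ⊕ Bool)) = Sum.inl (nxt O c a) := by
  have e : (s.dat bl).qt = c.qt := h.2.2.2.2.1
  unfold nxt
  rw [e]
  show (if a.1.qo = Qop.ask ∧ c.qt ∈ O then _ else _) = _
  split_ifs <;> rfl

theorem vrun_ex (α β : Type) (M : TM α' Empty) (j : M.ι → ι) (hj : Injective j) (get : Γ → M.Γ)
    (put : M.Γ → Γ) (hgp : ∀ a, get (put a) = a) (v : κ) (vw : Option X → In α') :
    ∃ P : HP α β Γ ι κ X Bool, (M.Det → P.Det) ∧
      ∀ (bl : Γ) (O : Set (List Bool)) (x : List α) (s : HS β Γ ι κ X) (w : List α'),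
        VInit M j get v vw s w →
        (∀ t c, M.Ends O w t c → ∃ s', VFr j v s s' ∧
          Pg.Hv P bl (cT O x) s (2 * t + 2) (decide (c.1 ∈ M.acc)) s') ∧
        (∀ t e d', P.Ev (cT O x) (s.dat bl) t e d' → ∃ t' c s', M.Ends O w t' c ∧
          e = decide (c.1 ∈ M.acc) ∧ d' = s'.dat bl ∧ VFr j v s s') := by
  have := M.finQ
  let K : M.Q → HP α β Γ ι κ X (M.Q ⊕ Bool) := fun q =>
    Pg.one fun _ g => vrunF β M j get put v vw q g
  refine ⟨Pg.iter K M.start, fun hM => det_iter (fun q => det_one fun _ g => ?_) _, ?_⟩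
  · unfold vrunF
    split_ifs
    · exact Set.subsingleton_singleton
    · exact (hM _ _ _).image _
  intro bl O x s w hs
  have h0 : vrunR j get v vw w M.init.2 s :=
    ⟨hs.1, hs.2.1, hs.2.2.1, hs.2.2.2.1, hs.2.2.2.2, Nat.zero_le _⟩
  refine ⟨fun t c hc => ?_, fun t e d' h => ?_⟩
  · have key : ∀ (c₀ : M.Cfg) (t : ℕ) (c : M.Cfg), M.Run O w c₀ t c →
        M.δ c.1 (inp w c.2.ih) c.2.rd = ∅ → ∀ s : HS β Γ ι κ X, vrunR j get v vw w c₀.2 s →
        ∃ s', VFr j v s s' ∧
          Pg.Hv (Pg.iter K c₀.1) bl (cT O x) s (2 * t + 2) (decide (c.1 ∈ M.acc)) s' := by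
      intro c₀ t c hr
      induction hr with
      | nil c =>
        intro he s hR
        refine ⟨s, vrun_fr_refl _ _ _, hv_iter_done (t := 1) ?_⟩
        have := ev_one (C := cT O x) (d := s.dat bl)
          (f := fun _ g => vrunF β M j get put v vw c.1 g)
          (a := (nop (s.dat bl).rd, Sum.inr (decide (c.1 ∈ M.acc)),
            Sum.inr (decide (c.1 ∈ M.acc)))) (by rw [vrun_F put _ bl hR, if_pos he]; rfl)
          trivial trivial
        rw [nxt_same, upd_nop] at this
        exact this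
      | @cons c c₁ c' t h1 _ ih =>
        intro he s hR
        obtain ⟨a, ha, rfl⟩ := h1
        obtain ⟨s', h2, h3⟩ := ih he _ (vrun_step hj hgp hR a.1)
        refine ⟨s', vrun_fr_trans (vrun_fr_nx j put v _ s a.1) h2,
          (hv_iter_more (t₁ := 1) ?_ h3).mono (by omega)⟩
        have := ev_one (C := cT O x) (d := s.dat bl)
          (f := fun _ g => vrunF β M j get put v vw c.1 g)
          (a := (vrunEff j put v (inp w c.2.ih) (s.dat bl).rd a.1, Sum.inl a.2.1, Sum.inl a.2.2))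
          (by
            rw [vrun_F put _ bl hR, if_neg (Set.Nonempty.ne_empty ⟨a, ha⟩)]
            exact ⟨a, ha, rfl⟩) trivial trivial
        rw [vrun_upd] at this
        erw [vrun_nxt put bl hR] at this
        exact this
    exact key _ t c hc.1 hc.2 s h0
  · refine iter_inv (K := K) (fun r d => Sum.elim
      (fun q => ∃ t' c s', M.Run O w M.init t' c ∧ c.1 = q ∧ vrunR j get v vw w c.2 s' ∧
        d = s'.dat bl ∧ VFr j v s s')
      (fun e => ∃ t' c s', M.Ends O w t' c ∧ e = decide (c.1 ∈ M.acc) ∧ d = s'.dat bl ∧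
        VFr j v s s') r) ?_ ⟨0, M.init, s, .nil _, rfl, h0, rfl, vrun_fr_refl _ _ _⟩ h
    rintro q d t r d' ⟨t', c, s', h1, rfl, hR, rfl, h2⟩ h3
    obtain ⟨a, ha, rfl, rfl⟩ := one_inv h3
    rw [vrun_F put _ bl hR] at ha
    split_ifs at ha with he
    · obtain rfl := ha
      rw [nxt_same, upd_nop]
      exact ⟨t', c, s', ⟨h1, he⟩, rfl, rfl, h2⟩
    · obtain ⟨a, ha, rfl⟩ := ha
      rw [vrun_upd]
      erw [vrun_nxt put bl hR]
      exact ⟨t' + 1, (nxt O c.2 a, c.2.upd w.length a.1), _, h1.snoc ⟨a, ha, rfl⟩, rfl,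
        vrun_step hj hgp hR a.1, rfl, vrun_fr_trans h2 (vrun_fr_nx j put v _ s' a.1)⟩

end Pool.Agent.P.MP_d0c5d0_lc
end

-- part Pool.Agent.P.MP_d0c5d0_lc.NComp
section

/-! Guess the value, check the graph, run the second machine. -/

namespace Pool.Agent.P.MP_d0c5d0_lc

open Classical Function

section aux

variable {α β γ Γ ι X : Type}

/-- host states with blank simulated tapes and two lists on the own tapes -/
def ncompG (bl : Γ) (ih : ℕ) (a b : List X) (pa pb : ℤ) : HS Empty Γ ι Bool X :=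
  ⟨ih, fun _ _ => bl, fun _ => 0, fun k => lay (cond k a b), fun k => cond k pa pb, [], []⟩

/-- write a letter and move right -/
noncomputable def ncompApp (k : Bool) (c : X) : HP α Empty Γ ι Bool X Unit :=
  (wr k (some c)).seq (mv k 1)

theorem ncomp_det_app (k : Bool) (c : X) : (ncompApp k c : HP α Empty Γ ι Bool X Unit).Det :=
  det_seq (det_wr _ _) (det_mv _ _)

theorem ncomp_app1 {bl : Γ} {O : Set (List Bool)} {x : List α} (ih : ℕ) (a b : List X) (pb : ℤ)
    (c : X) : Pg.Hv (ncompApp true c) bl (cT O x) (ncompG (ι := ι) bl ih a b a.length pb) 3 ()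
      (ncompG bl ih (a ++ [c]) b (a ++ [c]).length pb) := by
  refine (hv_seq (hv_wr true (some c) (ok_cT _)) (hv_mv true 1 (ok_cT _) (ok_cT _))).cast rfl ?_
  simp only [ncompG, HS.mk.injEq, true_and, and_true]
  constructor
  · funext k
    cases k
    · simp
    · simp [update_lay_end]
  · funext k
    cases k
    · simp
    · simp

theorem ncomp_app2 {bl : Γ} {O : Set (List Bool)} {x : List α} (ih : ℕ) (a b : List X) (pa : ℤ)
    (c : X) : Pg.Hv (ncompApp false c) bl (cT O x) (ncompG (ι := ι) bl ih a b pa b.length) 3 ()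
      (ncompG bl ih a (b ++ [c]) pa (b ++ [c]).length) := by
  refine (hv_seq (hv_wr false (some c) (ok_cT _)) (hv_mv false 1 (ok_cT _) (ok_cT _))).cast rfl ?_
  simp only [ncompG, HS.mk.injEq, true_and, and_true]
  constructor
  · funext k
    cases k
    · simp [update_lay_end]
    · simp
  · funext k
    cases k
    · simp
    · simp

/-- move the head of an own tape back to the left end marker -/
noncomputable def ncompRew {κ : Type} [Finite γ] (k : κ) : HP α Empty Γ ι κ (In γ) Unit :=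
  whl (testT k fun o => decide (o ≠ some In.lend)) (mv k (-1))

theorem ncomp_det_rew {κ : Type} [Finite γ] (k : κ) :
    (ncompRew k : HP α Empty Γ ι κ (In γ) Unit).Det := det_whl (det_testT _ _) (det_mv _ _)

theorem ncomp_rew {κ : Type} [Finite γ] {bl : Γ} {O : Set (List Bool)} {x : List α} (k : κ)
    (s : HS Empty Γ ι κ (In γ)) (l : List (In γ)) (hl : In.lend ∉ l) (n : ℕ)
    (hf : s.f k = lay (In.lend :: l)) (hp : s.p k = n) :
    Pg.Hv (ncompRew k) bl (cT O x) s (8 * n + 6) () {s with p := update s.p k 0} := by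
  have := hv_whl (bl := bl) (C := cT O x) (c := testT k fun o => decide (o ≠ some In.lend))
    (b := mv k (-1)) n 3 1 (fun i => {s with p := update s.p k ((n - i : ℕ) : ℤ)})
    (fun i => {s with p := update s.p k ((n - i : ℕ) : ℤ)})
    (s' := {s with p := update s.p k 0})
    (fun i hi => (hv_testT _ _ (ok_cT _)).cast (by
      obtain ⟨m, hm⟩ : ∃ m, n - i = m + 1 := ⟨n - i - 1, by omega⟩
      simp only [update_self, hf, hm, lay_nat, List.getElem?_cons_succ, decide_eq_true_eq]
      intro h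
      exact hl (List.mem_of_getElem? h)) rfl)
    (fun i hi => (hv_mv k (-1) (ok_cT _) (ok_cT _)).cast rfl (by
      have e : ((n - i : ℕ) : ℤ) + ((-1 : SignType) : ℤ) = ((n - (i + 1) : ℕ) : ℤ) := by
        simp only [SignType.coe_neg, SignType.coe_one]
        omega
      simp only [update_self, update_idem, e]))
    ((hv_testT _ _ (ok_cT _)).cast (by
      simp only [update_self, hf, lay_nat, Nat.sub_self]
      simp) (by simp))
  have e0 : ({s with p := update s.p k ((n - 0 : ℕ) : ℤ)} : HS Empty Γ ι κ (In γ)) = s := by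
    rw [Nat.sub_zero, ← hp, update_eq_self]
  rw [e0] at this
  exact this.mono (by omega)

theorem ncomp_view {δ : Type} (vw : Option (In γ) → In δ) (g : δ → In γ)
    (h1 : vw (some In.lend) = In.lend) (h2 : vw (some In.rend) = In.rend)
    (h3 : ∀ a, vw (some (g a)) = In.sym a) (w : List δ) (h : ℕ) (hh : h ≤ w.length + 1) :
    vw (lay (In.lend :: (w.map g ++ [In.rend])) h) = inp w h := by
  rw [lay_nat]
  cases h with
  | zero => simpa [inp_zero] using h1
  | succ m =>
    rw [List.getElem?_cons_succ]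
    by_cases hm : m < w.length
    · rw [inp_lt _ hm, List.getElem?_append_left (by simpa using hm)]
      simp [hm, h3]
    · have e : m = w.length := by omega
      subst e
      rw [inp_end, List.getElem?_append_right (by simp)]
      simpa using h2

/-- input letters as letters of the first virtual tape -/
def ncompL (i : In α) : In (α ⊕ β) := In.casesOn i In.lend In.rend fun a => In.sym (Sum.inl a)

/-- what the second machine sees -/
def ncompV : Option (In (α ⊕ β)) → In β
  | some In.lend => In.lend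
  | some (In.sym (Sum.inr d)) => In.sym d
  | _ => In.rend

/-- contents of the two own tapes -/
def ncompA (x : List α) (y : List β) : List (In (α ⊕ β)) :=
  In.lend :: (x.map Sum.inl ++ y.map Sum.inr).map In.sym
def ncompB (α : Type) (y : List β) : List (In (α ⊕ β)) :=
  In.lend :: y.map fun d => In.sym (Sum.inr d)

/-- the state after copying the input and guessing `y` -/
def ncompS (bl : Γ) (x : List α) (y : List β) : HS Empty Γ ι Bool (In (α ⊕ β)) :=
  ncompG bl (x.length + 1) (ncompA x y) (ncompB α y) (ncompA x y).length (ncompB α y).length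

/-- phase 0: copy the input -/
noncomputable def ncompP0 [Finite α] : HP α Empty Γ ι Bool (In (α ⊕ β)) Unit :=
  (ncompApp true In.lend).seq ((ncompApp false In.lend).seq ((mvI 1).seq
    (whl (testI fun i => decide (i ≠ In.rend))
      (lookI.bind fun i => (ncompApp true (ncompL i)).seq (mvI 1)))))

theorem ncomp_det0 [Finite α] : (ncompP0 : HP α Empty Γ ι Bool (In (α ⊕ β)) Unit).Det :=
  det_seq (ncomp_det_app _ _) (det_seq (ncomp_det_app _ _) (det_seq (det_mvI _)
    (det_whl (det_testI _) (det_bind det_lookI fun _ => det_seq (ncomp_det_app _ _) (det_mvI _)))))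

theorem ncomp_hv0 [Finite α] (bl : Γ) (O : Set (List Bool)) (x : List α) :
    Pg.Hv (ncompP0 (β := β) (ι := ι)) bl (cT O x) (hs0 bl) (14 * x.length + 16) ()
      (ncompS bl x []) := by
  have hw := hv_whl (bl := bl) (C := cT O x) (c := testI fun i => decide (i ≠ In.rend))
    (b := lookI.bind fun i => (ncompApp true (ncompL (β := β) i)).seq (mvI 1))
    x.length 3 7
    (fun i => ncompG (ι := ι) bl (i + 1) (ncompA (x.take i) []) (ncompB α [])
      (ncompA (β := β) (x.take i) []).length (ncompB (β := β) α []).length)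
    (fun i => ncompG (ι := ι) bl (i + 1) (ncompA (x.take i) []) (ncompB α [])
      (ncompA (β := β) (x.take i) []).length (ncompB (β := β) α []).length)
    (s' := ncompS bl x [])
    (fun i hi => (hv_testI _ (ok_cT _)).cast (by simp [ncompG, cT, inp_lt _ hi]) rfl)
    (fun i hi => by
      have e : ncompA (β := β) (x.take i) [] ++ [ncompL (inp x (i + 1))]
          = ncompA (x.take (i + 1)) [] := by
        rw [List.take_add_one, List.getElem?_eq_getElem hi, inp_lt _ hi]
        simp [ncompA, ncompL, -List.take_append_getElem]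
      refine (hv_bind (K := fun i => (ncompApp true (ncompL (β := β) i)).seq (mvI 1))
        (hv_lookI (ok_cT _)) (hv_seq (ncomp_app1 _ _ _ _ _)
        (hv_right (ok_cT _) (show i + 1 ≤ x.length from hi)))).cast rfl ?_
      rw [← e]
      rfl)
    ((hv_testI _ (ok_cT _)).cast (by simp [ncompG, cT, inp_end]) (by simp [ncompS]))
  have e0 : (hs0 bl : HS Empty Γ ι Bool (In (α ⊕ β)))
      = ncompG bl 0 [] [] ([] : List (In (α ⊕ β))).length ([] : List (In (α ⊕ β))).length := by
    simp [hs0, ncompG, lay_nil]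
  rw [e0]
  refine (hv_seq (ncomp_app1 _ _ _ _ _) (hv_seq (ncomp_app2 _ _ _ _ _)
    (hv_seq (hv_right (ok_cT _) (Nat.zero_le _)) hw))).mono (by omega)

/-- one round of guessing -/
noncomputable def ncompK (o : Option β) : HP α Empty Γ ι Bool (In (α ⊕ β)) (Unit ⊕ Unit) :=
  o.elim (ret (Sum.inr ())) fun d => (ncompApp true (In.sym (Sum.inr d))).seq
    ((ncompApp false (In.sym (Sum.inr d))).seq (ret (Sum.inl ())))

theorem ncomp_detK (o : Option β) :
    (ncompK o : HP α Empty Γ ι Bool (In (α ⊕ β)) (Unit ⊕ Unit)).Det := by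
  cases o with
  | none => exact det_ret _
  | some d => exact det_seq (ncomp_det_app _ _) (det_seq (ncomp_det_app _ _) (det_ret _))

theorem ncomp_hvK (bl : Γ) (O : Set (List Bool)) (x : List α) (y : List β) (d : β) :
    Pg.Hv (ncompK (ι := ι) (some d)) bl (cT O x) (ncompS bl x y) 9 (Sum.inl ())
      (ncompS bl x (y ++ [d])) := by
  refine (hv_seq (ncomp_app1 _ _ _ _ _) (hv_seq (ncomp_app2 _ _ _ _ _)
    (hv_ret _ (ok_cT _)))).cast rfl ?_
  simp [ncompS, ncompA, ncompB]

/-- phase 1: guess a word -/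
noncomputable def ncompP1 [Finite β] : HP α Empty Γ ι Bool (In (α ⊕ β)) Unit :=
  Pg.iter (fun _ : Unit => (guess (Option β)).bind ncompK) ()

theorem ncomp_hv1 [Finite β] (bl : Γ) (O : Set (List Bool)) (x : List α) (y z : List β) :
    Pg.Hv (ncompP1 (ι := ι)) bl (cT O x) (ncompS bl x y) (12 * z.length + 4) ()
      (ncompS bl x (y ++ z)) := by
  induction z generalizing y with
  | nil =>
    rw [List.append_nil]
    exact (hv_iter_done (hv_bind (K := ncompK) (hv_guess none (ok_cT _))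
      (hv_ret _ (ok_cT _)))).mono (by simp)
  | cons d z ih =>
    have h := ih (y ++ [d])
    rw [List.append_assoc, List.singleton_append] at h
    exact (hv_iter_more (hv_bind (K := ncompK) (hv_guess (some d) (ok_cT _))
      (ncomp_hvK bl O x y d)) h).mono (by simp; omega)

theorem ncomp_inv1 [Finite β] (bl : Γ) (O : Set (List Bool)) (x : List α) (y : List β) {t e d'}
    (h : (ncompP1 (ι := ι)).Ev (cT O x) ((ncompS bl x y).dat bl) t e d') :
    ∃ z : List β, d' = (ncompS bl x z).dat bl := by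
  refine iter_inv (fun _ d => ∃ z : List β, d = (ncompS (ι := ι) bl x z).dat bl) ?_ ⟨y, rfl⟩ h
  rintro s d t r d' ⟨z, rfl⟩ h1
  obtain ⟨o, d₁, t₁, t₂, h2, h3⟩ := bind_inv h1
  rw [guess_inv h2] at h3
  cases o with
  | none => exact ⟨z, (Pg.Hv.only (ncomp_detK none) (hv_ret _ (ok_cT _)) h3).2⟩
  | some c => exact ⟨z ++ [c], (Pg.Hv.only (ncomp_detK _) (ncomp_hvK bl O x z c) h3).2⟩

/-- phase 2: right end markers, rewind -/
noncomputable def ncompP2 [Finite α] [Finite β] : HP α Empty Γ ι Bool (In (α ⊕ β)) Unit :=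
  (ncompApp true In.rend).seq ((ncompApp false In.rend).seq ((ncompRew true).seq (ncompRew false)))

theorem ncomp_det2 [Finite α] [Finite β] :
    (ncompP2 : HP α Empty Γ ι Bool (In (α ⊕ β)) Unit).Det :=
  det_seq (ncomp_det_app _ _) (det_seq (ncomp_det_app _ _)
    (det_seq (ncomp_det_rew _) (ncomp_det_rew _)))

/-- the state before the two virtual runs -/
def ncompT (bl : Γ) (x : List α) (y : List β) : HS Empty Γ ι Bool (In (α ⊕ β)) :=
  ncompG bl (x.length + 1) (ncompA x y ++ [In.rend]) (ncompB α y ++ [In.rend]) 0 0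

theorem ncomp_hv2 [Finite α] [Finite β] (bl : Γ) (O : Set (List Bool)) (x : List α) (y : List β) :
    Pg.Hv (ncompP2 (ι := ι)) bl (cT O x) (ncompS bl x y) (8 * x.length + 16 * y.length + 53) ()
      (ncompT bl x y) := by
  refine ((hv_seq (ncomp_app1 _ _ _ _ _) (hv_seq (ncomp_app2 _ _ _ _ _) (hv_seq
    (ncomp_rew true _ ((x.map Sum.inl ++ y.map Sum.inr).map In.sym ++ [In.rend]) (by simp)
      (x.length + y.length + 2) rfl (by simp [ncompG, ncompA]; omega))
    (ncomp_rew false _ ((y.map fun d => In.sym (Sum.inr d)) ++ [In.rend]) (by simp)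
      (y.length + 2) rfl (by simp [ncompG, ncompB]; omega))))).mono (by omega)).cast rfl ?_
  simp only [ncompT, ncompG, HS.mk.injEq, true_and, and_true]
  funext k
  cases k <;> simp

theorem ncomp_split {x x' : List α} {y y' : List β}
    (h : x.map Sum.inl ++ y.map Sum.inr = x'.map Sum.inl ++ y'.map (Sum.inr : β → α ⊕ β)) :
    x = x' ∧ y = y' := by
  have h1 := congrArg (List.filterMap Sum.getLeft?) h
  have h2 := congrArg (List.filterMap Sum.getRight?) h
  simp [List.filterMap_map] at h1 h2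
  exact ⟨h1, h2⟩

end aux

theorem ncomp {α β : Type} [Finite α] [Finite β] {O : Set (List Bool)} {f : List α → List β} {k : ℕ}
    (hk : 1 ≤ k) (s : ℕ) (hs : ∀ x, (f x).length ≤ s * (x.length + 1)) {B : Set (List β)}
    (hG : NTIME O k (Graph f)) (hB : NTIME O k B) : NTIME O k {x | f x ∈ B} := by
  obtain ⟨M1, s1, h1⟩ := hG
  obtain ⟨M2, s2, h2⟩ := hB
  have := M1.finΓ
  have := M2.finΓ
  have := M1.finι
  have := M2.finι
  obtain ⟨V1, -, hV1⟩ := vrun_ex (Γ := M1.Γ × M2.Γ) (ι := M1.ι ⊕ M2.ι) (κ := Bool)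
    (X := In (α ⊕ β)) α Empty M1 Sum.inl Sum.inl_injective Prod.fst (fun a => (a, M2.blank))
    (fun _ => rfl) true (fun o => o.getD In.rend)
  obtain ⟨V2, -, hV2⟩ := vrun_ex (Γ := M1.Γ × M2.Γ) (ι := M1.ι ⊕ M2.ι) (κ := Bool)
    (X := In (α ⊕ β)) α Empty M2 Sum.inr Sum.inr_injective Prod.snd (fun a => (M1.blank, a))
    (fun _ => rfl) false ncompV
  have hi1 : ∀ (x : List α) (y : List β), VInit M1 (Sum.inl : M1.ι → M1.ι ⊕ M2.ι) Prod.fst true
      (fun o => o.getD In.rend) (ncompT (M1.blank, M2.blank) x y)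
      (x.map Sum.inl ++ y.map Sum.inr) := fun x y =>
    ⟨fun _ _ => rfl, fun _ => rfl, rfl,
      fun h hh => ncomp_view (fun o => o.getD In.rend) In.sym rfl rfl (fun _ => rfl) _ h hh, rfl⟩
  have hi2 : ∀ (x : List α) (y : List β) (s' : HS Empty (M1.Γ × M2.Γ) (M1.ι ⊕ M2.ι) Bool (In (α ⊕ β))),
      VFr (Sum.inl : M1.ι → M1.ι ⊕ M2.ι) true (ncompT (M1.blank, M2.blank) x y) s' →
      VInit M2 (Sum.inr : M2.ι → M1.ι ⊕ M2.ι) Prod.snd false ncompV {s' with qt := []} y := by
    rintro x y s' ⟨-, hf, -, hp, ht⟩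
    refine ⟨fun i z => ?_, fun i => ?_, ?_, fun h hh => ?_, rfl⟩
    · show (s'.tp (Sum.inr i) z).2 = M2.blank
      rw [(ht (Sum.inr i) (by simp)).1]
      rfl
    · show s'.hd (Sum.inr i) = 0
      rw [(ht (Sum.inr i) (by simp)).2]
      rfl
    · show s'.p false = 0
      rw [hp false (by simp)]
      rfl
    · show ncompV (s'.f false h) = inp y h
      rw [hf]
      exact ncomp_view ncompV (fun d => In.sym (Sum.inr d)) rfl rfl (fun _ => rfl) y h hh
  refine ntime_of (ncompP0.seq (ncompP1.seq (ncompP2.seq (V1.bind fun r =>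
    cond r (ask.bind fun _ => V2) (ret false))))) ((M1.blank, M2.blank), none)
    ((100 + 2 * s1 + 2 * s2) * (s + 1) ^ k) (fun x hx => ?_) (fun x t d' h => ?_)
  · obtain ⟨t1, ht1, c1, he1, ha1⟩ := (h1 (x.map Sum.inl ++ (f x).map Sum.inr)).1 ⟨x, rfl⟩
    obtain ⟨t2, ht2, c2, he2, ha2⟩ := (h2 (f x)).1 hx
    obtain ⟨s', hfr, hv1⟩ := (hV1 (M1.blank, M2.blank) O x _ _ (hi1 x (f x))).1 t1 c1 he1
    obtain ⟨s'', -, hv2⟩ := (hV2 (M1.blank, M2.blank) O x _ _ (hi2 x (f x) s' hfr)).1 t2 c2 he2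
    rw [decide_eq_true ha1] at hv1
    rw [decide_eq_true ha2] at hv2
    have hall := hv_seq (ncomp_hv0 (M1.blank, M2.blank) O x)
      (hv_seq (ncomp_hv1 (M1.blank, M2.blank) O x [] (f x))
        (hv_seq (ncomp_hv2 (M1.blank, M2.blank) O x (f x))
          (hv_bind (K := fun r => cond r (ask.bind fun _ => V2) (ret false)) hv1
            (hv_bind (K := fun _ => V2) (hv_ask (ok_cT _)) hv2))))
    refine ⟨s''.dat (M1.blank, M2.blank), ?_⟩
    rw [← hs0_dat]
    refine Pg.Ev.mono hall ?_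
    have hL : x.length + (f x).length + 1 ≤ (s + 1) * (x.length + 1) := by
      have := hs x
      nlinarith
    have hN : (s + 1) * (x.length + 1) ≤ ((s + 1) * (x.length + 1)) ^ k :=
      Nat.le_self_pow (by omega) _
    have hp1 : (x.length + (f x).length + 1) ^ k ≤ ((s + 1) * (x.length + 1)) ^ k :=
      Nat.pow_le_pow_left hL k
    have hp2 : ((f x).length + 1) ^ k ≤ ((s + 1) * (x.length + 1)) ^ k :=
      Nat.pow_le_pow_left (by omega) k
    have ht1' : t1 ≤ s1 * ((s + 1) * (x.length + 1)) ^ k := by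
      refine ht1.trans (Nat.mul_le_mul_left _ ?_)
      simpa using hp1
    have ht2' : t2 ≤ s2 * ((s + 1) * (x.length + 1)) ^ k := ht2.trans (Nat.mul_le_mul_left _ hp2)
    rw [mul_assoc, ← mul_pow, add_mul, add_mul, mul_assoc, mul_assoc]
    omega
  · rw [← hs0_dat] at h
    obtain ⟨e0, d0, t0, t0', h3, h4⟩ := bind_inv h
    rw [(Pg.Hv.only ncomp_det0 (ncomp_hv0 (M1.blank, M2.blank) O x) h3).2] at h4
    obtain ⟨e1, d1, t1, t1', h5, h6⟩ := bind_inv h4
    obtain ⟨y, rfl⟩ := ncomp_inv1 _ O x [] h5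
    obtain ⟨e2, d2, t2, t2', h7, h8⟩ := bind_inv h6
    rw [(Pg.Hv.only ncomp_det2 (ncomp_hv2 (M1.blank, M2.blank) O x y) h7).2] at h8
    obtain ⟨e3, d3, t3, t3', h9, h10⟩ := bind_inv h8
    obtain ⟨u1, c1, s', he1, hd1, rfl, hfr⟩ :=
      (hV1 (M1.blank, M2.blank) O x _ _ (hi1 x y)).2 _ _ _ h9
    cases e3 with
    | false => exact absurd (Pg.Hv.only (det_ret false) (hv_ret _ (ok_cT _)) h10).1 (by simp)
    | true =>
      obtain ⟨e4, d4, t4, t4', h11, h12⟩ := bind_inv h10
      rw [(Pg.Hv.only det_ask (hv_ask (ok_cT _)) h11).2] at h12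
      obtain ⟨u2, c2, s'', he2, hd2, -, -⟩ :=
        (hV2 (M1.blank, M2.blank) O x _ _ (hi2 x y s' hfr)).2 _ _ _ h12
      obtain ⟨x', hx'⟩ := (h1 _).2 u1 c1 he1 (of_decide_eq_true hd1.symm)
      obtain ⟨rfl, rfl⟩ := ncomp_split hx'
      exact (h2 _).2 u2 c2 he2 (of_decide_eq_true hd2.symm)

end Pool.Agent.P.MP_d0c5d0_lc
end

-- part Pool.Agent.P.MP_d0c5d0_lc.Small
section

/-! Small facts on time classes. -/

namespace Pool.Agent.P.MP_d0c5d0_lc

open Classical Function

variable {α : Type} {O : Set (List Bool)} {A : Set (List α)} {k k' : ℕ}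

theorem DTIME.mono (h : DTIME O k A) (hk : k ≤ k') : DTIME O k' A := by
  obtain ⟨M, hM, s, h⟩ := h
  refine ⟨M, hM, s, fun x => ?_⟩
  obtain ⟨t, ht, c, hc⟩ := h x
  exact ⟨t, ht.trans (Nat.mul_le_mul_left _ (Nat.pow_le_pow_right (by omega) hk)), c, hc⟩

theorem NTIME.mono (h : NTIME O k A) (hk : k ≤ k') : NTIME O k' A := by
  obtain ⟨M, s, h⟩ := h
  refine ⟨M, s, fun x => ⟨fun hx => ?_, (h x).2⟩⟩
  obtain ⟨t, ht, c, hc⟩ := (h x).1 hx
  exact ⟨t, ht.trans (Nat.mul_le_mul_left _ (Nat.pow_le_pow_right (by omega) hk)), c, hc⟩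

theorem small_halt {β : Type} {M : TM α β} (hM : M.Det) {x : List α} {c c₁ c₂ : M.Cfg} {t₁ t₂ : ℕ}
    (h₁ : M.Run O x c t₁ c₁) (h₂ : M.Run O x c t₂ c₂)
    (e₁ : M.δ c₁.1 (inp x c₁.2.ih) c₁.2.rd = ∅) (e₂ : M.δ c₂.1 (inp x c₂.2.ih) c₂.2.rd = ∅) :
    c₁ = c₂ := by
  induction h₁ generalizing t₂ with
  | nil c =>
    cases h₂ with
    | nil => rfl
    | cons h _ => obtain ⟨a, ha, -⟩ := h; rw [e₁] at ha; cases ha
  | cons h _ ih =>
    obtain ⟨a, ha, rfl⟩ := h
    cases h₂ with
    | nil => rw [e₂] at ha; cases ha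
    | cons h' h3 =>
      obtain ⟨b, hb, rfl⟩ := h'
      have := hM _ _ _ ha hb
      subst this
      exact ih h3 e₁

theorem DTIME.ntime (h : DTIME O k A) : NTIME O k A := by
  obtain ⟨M, hM, s, h⟩ := h
  refine ⟨M, s, fun x => ?_⟩
  obtain ⟨t, ht, c, hc, ha⟩ := h x
  refine ⟨fun hx => ⟨t, ht, c, hc, ha.2 hx⟩, fun t' c' hc' ha' => ha.1 ?_⟩
  rw [small_halt hM hc.1 hc'.1 hc.2 hc'.2]
  exact ha'

theorem dtime_head [Finite α] (a : α) : DTIME O 1 {y : List α | y.head? = some a} := by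
  refine dtime_of (Γ := Unit × Option Unit) (ι := Empty ⊕ Empty)
    ((mvI 1).seq (testI fun i => decide (i = In.sym a))) ((), none)
    (det_seq (det_mvI _) (det_testI _)) 5 fun x => ?_
  have h1 := hv_seq (hv_right (bl := ()) (C := cT O x)
    (s := (hs0 () : HS Empty Unit Empty Empty Unit)) (ok_cT _) (Nat.zero_le _))
    (hv_testI (fun i => decide (i = In.sym a)) (ok_cT _))
  rw [Pg.Hv, hs0_dat] at h1
  refine ⟨_, _, h1.mono (by rw [pow_one]; omega), ?_⟩
  show decide (inp x (0 + 1) = In.sym a) = true ↔ x.head? = some a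
  rw [inp_succ]
  cases x <;> simp

theorem dtime_bet : DTIME O 1 {y : List Bool | bet y ∈ O} := by
  refine dtime_of (Γ := Unit × Option Unit) (ι := Empty ⊕ Empty)
    ((pushes [false, false]).seq ((copyI fun b => [b]).seq ask)) ((), none)
    (det_seq (det_pushes _) (det_seq (det_copyI _) det_ask)) 40 fun x => ?_
  have h1 := hv_seq (hv_pushes (bl := ()) (C := cT O x)
    (s := (hs0 () : HS Empty Unit Empty Empty Unit)) [false, false] (ok_cT _))
    (hv_seq (hv_copyI (fun b => [b]) 1 (fun _ => le_rfl) (ok_cT _) rfl) (hv_ask (ok_cT _)))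
  rw [Pg.Hv, hs0_dat] at h1
  refine ⟨_, _, h1.mono ?_, ?_⟩
  · show 2 * 2 + 1 + ((2 * 1 + 30) * (x.length + 1) + 1 + 1) + 1 ≤ 40 * (x.length + 1) ^ 1
    rw [pow_one]
    omega
  · show decide (([] ++ [false, false]) ++ x.flatMap (fun b => [b]) ∈ O) = true ↔ bet x ∈ O
    simp [bet]

end Pool.Agent.P.MP_d0c5d0_lc
end

-- part Pool.Agent.P.MP_d0c5d0_lc.Iff
section

/-! Nondeterministic time is closed iff it contains logarithmic space. -/

namespace Pool.Agent.P.MP_d0c5d0_lc

open Classical Function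

variable {O : Set (List Bool)} {k : ℕ}

theorem loglin_ind {α : Type} {A : Set (List α)} (h : LOG O A) :
    LogLin O A {y : List Unit | y.head? = some ()} :=
  ⟨ind A, log_fun h, ⟨1, fun x => by unfold ind; split_ifs <;> simp⟩, fun x => by
    unfold ind; split_ifs with hx <;> simp [hx]⟩

theorem n_iff (hk : 1 ≤ k) : Closed O (NTIME O k) ↔ HasLog O (NTIME O k) := by
  refine ⟨fun h α _ A hA => h α Unit A _ (loglin_ind hA) ((dtime_head ()).mono hk).ntime, ?_⟩
  rintro h α β _ _ A B ⟨f, hf, ⟨s, hs⟩, hA⟩ hB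
  have : A = {x | f x ∈ B} := Set.ext hA
  rw [this]
  exact ncomp hk s hs (h _ _ (graph_log hf s hs)) hB

end Pool.Agent.P.MP_d0c5d0_lc
end
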