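import Pool.Agent.K.MP_d0c5d0_lc.C0

-- part Pool.Agent.P.MP_d0c5d0_lc.Hard
section

/-! The long free cells are read in logarithmic space. -/

namespace Pool.Agent.P.MP_d0c5d0_lc

open Classical Function

section

variable {κ E F : Type}

/-- programs with counters only -/
abbrev HardP (κ E : Type) := HP Bool Bool Unit Empty κ Bool E

/-- states with counters only -/
def hardSt (ih : ℕ) (v : κ → ℕ) (o q : List Bool) : HS Bool Unit Empty κ Bool :=
  ⟨ih, fun _ _ => (), fun _ => 0, fun k => cn (v k), fun _ => 0, o, q⟩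

/-- evaluation in some number of steps -/
def HardEv (C : Ctx Bool (Empty ⊕ κ)) (P : HardP κ E) (s : HS Bool Unit Empty κ Bool) (e : E)
    (s' : HS Bool Unit Empty κ Bool) : Prop := ∃ t, P.Hv () C s t e s'

variable {C : Ctx Bool (Empty ⊕ κ)} {s s' s₁ s₂ : HS Bool Unit Empty κ Bool}

theorem HardEv.cast {P : HardP κ E} {e e'} (h : HardEv C P s e s₁) (he : e = e') (hs : s₁ = s₂) :
    HardEv C P s e' s₂ := he ▸ hs ▸ h

theorem HardEv.bind [Finite E] {P : HardP κ E} {K : E → HardP κ F} {e f} (h : HardEv C P s e s₁)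
    (h' : HardEv C (K e) s₁ f s₂) : HardEv C (P.bind K) s f s₂ :=
  let ⟨_, h⟩ := h; let ⟨_, h'⟩ := h'; ⟨_, hv_bind h h'⟩

theorem HardEv.seq {P : HardP κ Unit} {R : HardP κ F} {f} (h : HardEv C P s () s₁)
    (h' : HardEv C R s₁ f s₂) : HardEv C (P.seq R) s f s₂ :=
  let ⟨_, h⟩ := h; let ⟨_, h'⟩ := h'; ⟨_, hv_seq h h'⟩

theorem hard_whl {c : HardP κ Bool} {b : HardP κ Unit} (n : ℕ)
    (σ σ' : ℕ → HS Bool Unit Empty κ Bool) (hc : ∀ i < n, HardEv C c (σ i) true (σ' i))
    (hb : ∀ i < n, HardEv C b (σ' i) () (σ (i + 1))) (he : HardEv C c (σ n) false s') :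
    HardEv C (whl c b) (σ 0) () s' := by
  induction n generalizing σ σ' with
  | zero => exact let ⟨_, h⟩ := he; ⟨_, hv_whl_stop h⟩
  | succ n ih =>
    obtain ⟨_, h1⟩ := hc 0 (by omega)
    obtain ⟨_, h2⟩ := hb 0 (by omega)
    obtain ⟨_, h3⟩ := ih (fun i => σ (i + 1)) (fun i => σ' (i + 1)) (fun i hi => hc _ (by omega))
      (fun i hi => hb _ (by omega)) he
    exact ⟨_, hv_whl_more h1 h2 h3⟩

variable (inc : κ → HardP κ Unit) (dec : κ → HardP κ Bool)

/-- add the input length to a counter -/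
noncomputable def hardLoad (k : κ) : HardP κ Unit :=
  (mvI 1).seq ((whl (testI fun i => decide (i ≠ In.rend)) ((inc k).seq (mvI 1))).seq rewI)

/-- move one counter to another one, appending a word in each round -/
def hardMov (a b : κ) (w : List Bool) : HardP κ Unit := whl (dec a) ((pushes w).seq (inc b))

/-- nested loops -/
noncomputable def hardPad (ks : List κ) : HardP κ Unit :=
  ks.foldr (fun k P => (hardLoad inc k).seq (whl (dec k) P)) (push true)

variable {inc dec}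

theorem hard_det_load (hi : ∀ k, (inc k).Det) (k : κ) : (hardLoad inc k).Det :=
  det_seq (det_mvI _) (det_seq (det_whl (det_testI _) (det_seq (hi k) (det_mvI _))) det_rewI)

theorem hard_det_mov (hi : ∀ k, (inc k).Det) (hd : ∀ k, (dec k).Det) (a b : κ) (w : List Bool) :
    (hardMov inc dec a b w).Det := det_whl (hd a) (det_seq (det_pushes w) (hi b))

theorem hard_det_pad (hi : ∀ k, (inc k).Det) (hd : ∀ k, (dec k).Det) (ks : List κ) :
    (hardPad inc dec ks).Det := by
  induction ks with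
  | nil => exact det_push _
  | cons k ks ih => exact det_seq (hard_det_load hi k) (det_whl (hd k) ih)

/-- what is used about the counters -/
structure HardOk (C : Ctx Bool (Empty ⊕ κ)) (inc : κ → HardP κ Unit) (dec : κ → HardP κ Bool) :
    Prop where
  ok : ∀ ih v o q, (hardSt ih v o q).ok C
  inc : ∀ k ih v o q, v k ≤ C.x.length →
    HardEv C (inc k) (hardSt ih v o q) () (hardSt ih (update v k (v k + 1)) o q)
  dec : ∀ k ih v o q, v k ≤ C.x.length →
    HardEv C (dec k) (hardSt ih v o q) (decide (0 < v k)) (hardSt ih (update v k (v k - 1)) o q)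

theorem HardOk.pushes (H : HardOk C inc dec) (w : List Bool) (ih v o q) :
    HardEv C (pushes w : HardP κ Unit) (hardSt ih v o q) () (hardSt ih v o (q ++ w)) :=
  ⟨_, hv_pushes w (H.ok _ _ _ _)⟩

theorem HardOk.push (H : HardOk C inc dec) (b : Bool) (ih v o q) :
    HardEv C (push b : HardP κ Unit) (hardSt ih v o q) () (hardSt ih v o (q ++ [b])) :=
  ⟨_, hv_push b (H.ok _ _ _ _)⟩

theorem HardOk.emit (H : HardOk C inc dec) (b : Bool) (ih v o q) :
    HardEv C (emit b : HardP κ Unit) (hardSt ih v o q) () (hardSt ih v (o ++ [b]) q) :=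
  ⟨_, hv_emit b (H.ok _ _ _ _)⟩

theorem HardOk.ask (H : HardOk C inc dec) (ih v o q) :
    HardEv C (ask : HardP κ Bool) (hardSt ih v o q) (decide (q ∈ C.O)) (hardSt ih v o []) :=
  ⟨_, hv_ask (H.ok _ _ _ _)⟩

theorem HardOk.copy (H : HardOk C inc dec) (v o q) :
    HardEv C (copyI fun b => [b] : HardP κ Unit) (hardSt 0 v o q) () (hardSt 0 v o (q ++ C.x)) :=
  ⟨_, (hv_copyI _ 1 (fun _ => le_rfl) (H.ok _ _ _ _) rfl).cast rfl (by simp [hardSt])⟩

theorem hard_load (H : HardOk C inc dec) (k : κ) (v : κ → ℕ) (hv : v k = 0) (o q : List Bool) :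
    HardEv C (hardLoad inc k) (hardSt 0 v o q) () (hardSt 0 (update v k C.x.length) o q) := by
  have h := hard_whl (C := C) (c := testI fun i => decide (i ≠ In.rend))
    (b := (inc k).seq (mvI 1)) C.x.length (fun i => hardSt (i + 1) (update v k i) o q)
    (fun i => hardSt (i + 1) (update v k i) o q)
    (s' := hardSt (C.x.length + 1) (update v k C.x.length) o q)
    (fun i hi => ⟨_, (hv_testI _ (H.ok _ _ _ _)).cast (by simp [hardSt, inp_lt _ hi]) rfl⟩)
    (fun i hi => ((H.inc k _ _ o q (by simp; omega)).cast rfl (by rw [update_idem, update_self])).seq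
      ⟨_, hv_right (H.ok _ _ _ _) hi⟩)
    ⟨_, (hv_testI _ (H.ok _ _ _ _)).cast (by simp [hardSt, inp_end]) rfl⟩
  have e : update v k 0 = v := by rw [← hv, update_eq_self]
  simp only [e] at h
  exact HardEv.seq ⟨_, hv_right (H.ok _ _ _ _) (Nat.zero_le _)⟩
    (HardEv.seq h ⟨_, hv_rewI (H.ok _ _ _ _)⟩)

theorem hard_mov (H : HardOk C inc dec) {a b : κ} (hab : a ≠ b) (w : List Bool) (v : κ → ℕ)
    (ha : v a ≤ C.x.length) (hb : v b = 0) (o q : List Bool) :
    HardEv C (hardMov inc dec a b w) (hardSt 0 v o q) ()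
      (hardSt 0 (update (update v b (v a)) a 0) o (q ++ (List.replicate (v a) w).flatten)) := by
  have h := hard_whl (C := C) (c := dec a) (b := (pushes w).seq (inc b)) (v a)
    (fun i => hardSt 0 (update (update v b i) a (v a - i)) o (q ++ (List.replicate i w).flatten))
    (fun i => hardSt 0 (update (update v b i) a (v a - (i + 1))) o
      (q ++ (List.replicate i w).flatten))
    (s' := hardSt 0 (update (update v b (v a)) a 0) o (q ++ (List.replicate (v a) w).flatten))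
    (fun i hi => (H.dec a _ _ _ _ (by simp; omega)).cast (by simp; omega)
      (by rw [update_idem, update_self, Nat.sub_sub]))
    (fun i hi => HardEv.seq (H.pushes w _ _ _ _)
      ((H.inc b _ _ _ _ (by simp [hab.symm]; omega)).cast rfl (by
        rw [update_comm hab, update_idem, update_of_ne hab.symm, update_self,
          List.replicate_succ', List.flatten_append, ← List.append_assoc]
        simp)))
    ((H.dec a _ _ _ _ (by simp)).cast (by simp) (by simp))
  have e : update (update v b 0) a (v a) = v := by rw [← hb, update_eq_self, update_eq_self]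
  simp only [Nat.sub_zero, List.replicate_zero, List.flatten_nil, List.append_nil, e] at h
  exact h

theorem hard_pad (H : HardOk C inc dec) (ks : List κ) (hks : ks.Nodup) (v : κ → ℕ)
    (hv : ∀ k ∈ ks, v k = 0) (o q : List Bool) :
    HardEv C (hardPad inc dec ks) (hardSt 0 v o q) ()
      (hardSt 0 v o (q ++ List.replicate (C.x.length ^ ks.length) true)) := by
  induction ks generalizing v q with
  | nil => exact ⟨_, hv_push true (H.ok _ _ _ _)⟩
  | cons k ks ih =>
    rw [List.nodup_cons] at hks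
    have hk := hv k (by simp)
    have h := hard_whl (C := C) (c := dec k) (b := hardPad inc dec ks) C.x.length
      (fun i => hardSt 0 (update v k (C.x.length - i)) o
        (q ++ List.replicate (C.x.length ^ ks.length * i) true))
      (fun i => hardSt 0 (update v k (C.x.length - (i + 1))) o
        (q ++ List.replicate (C.x.length ^ ks.length * i) true))
      (s' := hardSt 0 v o (q ++ List.replicate (C.x.length ^ (k :: ks).length) true))
      (fun i hi => (H.dec k _ _ _ _ (by simp)).cast (by simp; omega)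
        (by rw [update_idem, update_self, Nat.sub_sub]))
      (fun i hi => (ih hks.2 _ (fun k' hk' => by
        rw [update_of_ne (fun e : k' = k => hks.1 (e ▸ hk'))]
        exact hv k' (by simp [hk'])) _).cast rfl (by
          rw [List.append_assoc, ← List.replicate_add, Nat.mul_succ]))
      ((H.dec k _ _ _ _ (by simp)).cast (by simp) (by
        rw [update_idem, update_self, Nat.sub_self, Nat.zero_sub, ← hk, update_eq_self,
          List.length_cons, pow_succ]))
    simp only [Nat.sub_zero, Nat.mul_zero, List.replicate_zero, List.append_nil] at h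
    exact (hard_load H k v hk o q).seq h

end

/-- values of the counters -/
def hardV (K a b c : ℕ) : Fin 3 ⊕ Fin K → ℕ := Sum.elim ![a, b, c] fun _ => 0

theorem hardV_0 (K a b c d : ℕ) {_ : DecidableEq (Fin 3 ⊕ Fin K)} :
    update (hardV K a b c) (Sum.inl 0) d = hardV K d b c := by
  funext k; rcases k with k | k
  · fin_cases k <;> simp [hardV]
  · simp [hardV]

theorem hardV_1 (K a b c d : ℕ) {_ : DecidableEq (Fin 3 ⊕ Fin K)} :
    update (hardV K a b c) (Sum.inl 1) d = hardV K a d c := by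
  funext k; rcases k with k | k
  · fin_cases k <;> simp [hardV]
  · simp [hardV]

theorem hardV_2 (K a b c d : ℕ) {_ : DecidableEq (Fin 3 ⊕ Fin K)} :
    update (hardV K a b c) (Sum.inl 2) d = hardV K a b d := by
  funext k; rcases k with k | k
  · fin_cases k <;> simp [hardV]
  · simp [hardV]

theorem hard_fun (O : Set (List Bool)) (K : ℕ) : LogFun O (hardF O K) := by
  choose inc dec hi hd hc using fun k : Fin 3 ⊕ Fin K => cnt_ex Bool Bool Unit Empty k
  let ks : List (Fin 3 ⊕ Fin K) := (List.finRange K).map Sum.inr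
  let body : HardP (Fin 3 ⊕ Fin K) Unit := (pushes [false, true]).seq ((copyI fun b => [b]).seq
    ((hardMov inc dec (Sum.inl 0) (Sum.inl 1) [true]).seq
      ((hardMov inc dec (Sum.inl 1) (Sum.inl 0) []).seq ((push false).seq
        ((hardPad inc dec ks).seq (ask.bind fun b => (emit b).seq (inc (Sum.inl 0))))))))
  refine logfun_of (P := ((hardLoad inc (Sum.inl 2)).seq (whl (dec (Sum.inl 2)) body)).seq
    (ret true)) ((), none)
    (det_seq (det_seq (hard_det_load hi _) (det_whl (hd _) (det_seq (det_pushes _)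
      (det_seq (det_copyI _) (det_seq (hard_det_mov hi hd _ _ _) (det_seq (hard_det_mov hi hd _ _ _)
        (det_seq (det_push _) (det_seq (hard_det_pad hi hd _) (det_bind det_ask fun b =>
          det_seq (det_emit _) (hi _)))))))))) (det_ret _)) 4 fun x => ?_
  set B := 4 * (Nat.log 2 (x.length + 1) + 1) with hB
  have hlog : ∀ m ≤ x.length, Nat.log 2 (m + 2) + 2 ≤ B := fun m hm => by
    have h1 : Nat.log 2 (m + 2) ≤ Nat.log 2 ((x.length + 1) * 2) := Nat.log_mono_right (by omega)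
    rw [Nat.log_mul_base (by norm_num) (by omega)] at h1
    omega
  have H : HardOk (cS O x B) inc dec :=
    ⟨fun ih v o q => ok_cS.2 ⟨fun i => i.elim, fun _ => by simp [hardSt]⟩,
      fun k ih v o q h => (hc k () O x B (hardSt ih v o q) v (fun i => i.elim) (hlog _ h)).1,
      fun k ih v o q h => (hc k () O x B (hardSt ih v o q) v (fun i => i.elim) (hlog _ h)).2⟩
  have hb : ∀ i < x.length, ∀ r o, HardEv (cS O x B) body (hardSt 0 (hardV K i 0 r) o []) ()
      (hardSt 0 (hardV K (i + 1) 0 r) (o ++ [decide (hard K x i ∈ O)]) []) := by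
    intro i hi r o
    refine (H.pushes _ _ _ _ _).seq ((H.copy _ _ _).seq ?_)
    have m1 := hard_mov H (a := Sum.inl 0) (b := Sum.inl 1) (by simp) [true] (hardV K i 0 r) hi.le
      rfl o
    have m2 := hard_mov H (a := Sum.inl 1) (b := Sum.inl 0) (by simp) [] (hardV K 0 i r) hi.le
      rfl o
    rw [hardV_1, hardV_0] at m1
    rw [hardV_0, hardV_1] at m2
    refine (m1 _).seq ((m2 _).seq ((H.push _ _ _ _ _).seq ?_))
    refine (hard_pad H ks ((List.nodup_finRange K).map Sum.inr_injective) _ (fun k hk => ?_)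
      _ _).seq ?_
    · obtain ⟨j, -, rfl⟩ := List.mem_map.1 hk
      rfl
    refine (H.ask _ _ _ _).bind ((H.emit _ _ _ _ _).seq ?_)
    refine (H.inc (Sum.inl 0) _ _ _ _ hi.le).cast rfl ?_
    rw [hardV_0]
    simp [hardSt, hard, hardV, ks, cS]
  have h := hard_whl (C := cS O x B) (c := dec (Sum.inl 2)) (b := body) x.length
    (fun i => hardSt 0 (hardV K i 0 (x.length - i))
      ((List.range i).map fun i => decide (hard K x i ∈ O)) [])
    (fun i => hardSt 0 (hardV K i 0 (x.length - (i + 1)))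
      ((List.range i).map fun i => decide (hard K x i ∈ O)) [])
    (s' := hardSt 0 (hardV K x.length 0 0) (hardF O K x) [])
    (fun i hi => (H.dec (Sum.inl 2) _ _ _ _ (Nat.sub_le _ _)).cast (by simp [hardV]; omega)
      (by rw [hardV_2]; rfl))
    (fun i hi => (hb i hi _ _).cast rfl (by rw [List.range_succ, List.map_append]; rfl))
    ((H.dec (Sum.inl 2) _ _ _ _ (Nat.sub_le _ _)).cast (by simp [hardV]) (by
      rw [hardV_2]; simp [hardV, hardF]))
  have h0 := hard_load H (Sum.inl 2) (hardV K 0 0 0) rfl [] []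
  rw [hardV_2] at h0
  obtain ⟨t, ht⟩ := (h0.seq h).seq (R := ret true) ⟨_, hv_ret true (H.ok _ _ _ _)⟩
  refine ⟨t, true, (hardSt 0 (hardV K x.length 0 0) (hardF O K x) []).dat (), ?_, rfl⟩
  have e : hardSt 0 (hardV K 0 0 0) [] [] = hs0 () := by
    have : hardV K 0 0 0 = fun _ => 0 := by
      funext k; rcases k with k | k
      · fin_cases k <;> rfl
      · rfl
    rw [this, ← cs_zero]; rfl
  rw [← hs0_dat, ← e]
  exact ht

end Pool.Agent.P.MP_d0c5d0_lc
end

-- part Pool.Agent.P.MP_d0c5d0_lc.QW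
section

/-! Writing the fixed part of a coding cell on the query tape in time O(n^j). -/

namespace Pool.Agent.P.MP_d0c5d0_lc

open Classical Function

variable {α β Γ ι κ X : Type}

/-- the `j` padding tapes hold `m` marks each, heads on cell 0 -/
def HS.pad {j : ℕ} (s : HS β Γ ι (Fin j ⊕ κ) X) (x0 : X) (m : ℕ) : HS β Γ ι (Fin j ⊕ κ) X :=
  {s with f := Sum.elim (fun _ => lay (List.replicate m x0)) (fun k => s.f (Sum.inr k)),
          p := Sum.elim (fun _ => 0) (fun k => s.p (Sum.inr k))}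

/-- is the scanned cell of tape `k` marked -/
noncomputable def qw_tst [Finite X] (k : κ) : HP α β Γ ι κ X Bool :=
  testT k fun o => o.isSome

/-- from the right end of the marks back to cell 0 -/
noncomputable def qw_back [Finite X] (k : κ) : HP α β Γ ι κ X Unit :=
  (mv k (-1)).seq ((whl (qw_tst k) (mv k (-1))).seq (mv k 1))

/-- write `n` more marks -/
noncomputable def qw_marks (k : κ) (x0 : X) : ℕ → HP α β Γ ι κ X Unit
  | 0 => ret ()
  | n + 1 => (wr k (some x0)).seq ((mv k 1).seq (qw_marks k x0 n))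

/-- write as many marks on tape `k` as the name of the input is long -/
noncomputable def qw_one [Finite α] [Finite X] (x0 : X) (e : ℕ) (idx : α → ℕ) (k : κ) :
    HP α β Γ ι κ X Unit :=
  (qw_marks k x0 (e + 1)).seq ((mvI 1).seq ((whl (testI fun i => decide (i ≠ In.rend))
    (lookI.bind fun i => (qw_marks k x0 (In.casesOn i 0 0 fun a => idx a + 1)).seq (mvI 1))).seq
      (rewI.seq (qw_back k))))

/-- the same on every tape of a list -/
noncomputable def qw_all [Finite α] [Finite X] (x0 : X) (e : ℕ) (idx : α → ℕ) (l : List κ) :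
    HP α β Γ ι κ X Unit :=
  l.foldr (fun k P => (qw_one x0 e idx k).seq P) (ret ())

/-- nested loops over the tapes of a list -/
noncomputable def qw_pad [Finite X] (l : List κ) : HP α β Γ ι κ X Unit :=
  l.foldr (fun k P => (whl (qw_tst k) (P.seq (mv k 1))).seq (qw_back k)) (push true)

theorem qw_det_tst [Finite X] (k : κ) : (qw_tst k : HP α β Γ ι κ X Bool).Det := det_testT _ _

theorem qw_det_back [Finite X] (k : κ) : (qw_back k : HP α β Γ ι κ X Unit).Det :=
  det_seq (det_mv _ _) (det_seq (det_whl (qw_det_tst k) (det_mv _ _)) (det_mv _ _))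

theorem qw_det_marks (k : κ) (x0 : X) (n : ℕ) : (qw_marks k x0 n : HP α β Γ ι κ X Unit).Det := by
  induction n with
  | zero => exact det_ret _
  | succ n ih => exact det_seq (det_wr _ _) (det_seq (det_mv _ _) ih)

theorem qw_det_one [Finite α] [Finite X] (x0 : X) (e : ℕ) (idx : α → ℕ) (k : κ) :
    (qw_one x0 e idx k : HP α β Γ ι κ X Unit).Det :=
  det_seq (qw_det_marks _ _ _) (det_seq (det_mvI _) (det_seq (det_whl (det_testI _)
    (det_bind det_lookI fun _ => det_seq (qw_det_marks _ _ _) (det_mvI _)))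
      (det_seq det_rewI (qw_det_back k))))

theorem qw_det_all [Finite α] [Finite X] (x0 : X) (e : ℕ) (idx : α → ℕ) (l : List κ) :
    (qw_all x0 e idx l : HP α β Γ ι κ X Unit).Det := by
  induction l with
  | nil => exact det_ret _
  | cons k l ih => exact det_seq (qw_det_one x0 e idx k) ih

theorem qw_det_pad [Finite X] (l : List κ) : (qw_pad l : HP α β Γ ι κ X Unit).Det := by
  induction l with
  | nil => exact det_push _
  | cons k l ih => exact det_seq (det_whl (qw_det_tst k) (det_seq ih (det_mv _ _))) (qw_det_back k)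

section hv

variable {bl : Γ} {O : Set (List Bool)} {x : List α}

theorem qw_lay_lt (x0 : X) {m i : ℕ} (h : i < m) :
    lay (List.replicate m x0) (i : ℤ) = some x0 := by
  rw [lay_nat]; simp [h]

theorem qw_lay_end (x0 : X) (m : ℕ) : lay (List.replicate m x0) (m : ℤ) = none := by
  rw [lay_nat]; simp

theorem qw_hv_mv (k : κ) (m : SignType) (s : HS β Γ ι κ X) :
    Pg.Hv (mv k m) bl (cT O x) s 1 () {s with p := update s.p k (s.p k + m)} :=
  hv_mv k m (ok_cT _) (ok_cT _)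

theorem qw_hv_tst [Finite X] (k : κ) (s : HS β Γ ι κ X) :
    Pg.Hv (qw_tst k) bl (cT O x) s 3 (s.f k (s.p k)).isSome s :=
  hv_testT k _ (ok_cT _)

theorem qw_hv_back [Finite X] (k : κ) (x0 : X) (m : ℕ) (s : HS β Γ ι κ X)
    (hf : s.f k = lay (List.replicate m x0)) (hp : s.p k = m) :
    Pg.Hv (qw_back k) bl (cT O x) s (8 * m + 10) () {s with p := update s.p k 0} := by
  have h2 := hv_whl (bl := bl) (C := (cT O x : Ctx α (ι ⊕ κ))) (c := qw_tst k) (b := mv k (-1))
    m 3 1 (fun i => {s with p := update s.p k ((m : ℤ) - 1 - i)})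
    (fun i => {s with p := update s.p k ((m : ℤ) - 1 - i)})
    (s' := {s with p := update s.p k (-1)})
    (fun i hi => (qw_hv_tst k _).cast (by
      have h : (m : ℤ) - 1 - i = ((m - 1 - i : ℕ) : ℤ) := by omega
      simp only [update_self, hf, h]
      rw [qw_lay_lt x0 (by omega)]; rfl) rfl)
    (fun i hi => (qw_hv_mv k _ _).cast rfl (by
      simp only [update_self, update_idem, SignType.coe_neg_one, Nat.cast_add, Nat.cast_one]
      congr 2; ring))
    ((qw_hv_tst k _).cast (by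
      simp only [update_self, hf]
      rw [lay_neg _ (by omega)]; rfl) (by congr 2; ring))
  have h1 := (qw_hv_mv (bl := bl) (O := O) (x := x) k (-1) s).cast rfl
    (show _ = ({s with p := update s.p k ((m : ℤ) - 1 - (0 : ℕ))} : HS β Γ ι κ X) by
      simp only [hp, SignType.coe_neg_one]; congr 2; simp; ring)
  refine ((hv_seq h1 (hv_seq h2 (qw_hv_mv k 1 _))).mono (by omega)).cast rfl ?_
  simp

theorem qw_hv_marks (k : κ) (x0 : X) (n m : ℕ) (s : HS β Γ ι κ X)
    (hf : s.f k = lay (List.replicate m x0)) (hp : s.p k = m) :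
    Pg.Hv (qw_marks k x0 n) bl (cT O x) s (4 * n + 1) ()
      {s with f := update s.f k (lay (List.replicate (m + n) x0)),
              p := update s.p k ((m + n : ℕ) : ℤ)} := by
  induction n generalizing m s with
  | zero => exact (hv_ret () (ok_cT _)).cast rfl (by simp [← hf, ← hp])
  | succ n ih =>
    have h3 := ih (m + 1) ({s with f := update s.f k (update (s.f k) (s.p k) (some x0)),
                                   p := update s.p k (s.p k + (1 : SignType))})
      (by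
        have := update_lay_end (List.replicate m x0) x0
        simp only [List.length_replicate] at this
        simp only [update_self, hf, hp, this, List.replicate_succ'])
      (by simp [hp])
    refine ((hv_seq (hv_wr k (some x0) (ok_cT _)) (hv_seq (qw_hv_mv k 1 _) h3)).mono
      (by omega)).cast rfl ?_
    simp only [update_idem, Nat.add_assoc, Nat.add_comm 1 n]

theorem qw_code_take (idx : α → ℕ) (x : List α) {i : ℕ} (hi : i < x.length) :
    (code idx (x.take (i + 1))).length = (code idx (x.take i)).length + (idx x[i] + 1) := by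
  rw [List.take_add_one, List.getElem?_eq_getElem hi, code_append]
  simp [code, cod1, -List.take_append_getElem]

theorem qw_hv_one [Finite α] [Finite X] (x0 : X) (e : ℕ) (idx : α → ℕ) (c : ℕ)
    (hc : ∀ a, idx a ≤ c) (k : κ) (s : HS β Γ ι κ X) (h0 : s.ih = 0)
    (hf : s.f k = lay (List.replicate 0 x0)) (hp : s.p k = 0) :
    Pg.Hv (qw_one x0 e idx k) bl (cT O x) s ((12 * c + 12 * e + 60) * (x.length + 1)) ()
      {s with f := update s.f k (lay (List.replicate (tau e idx x).length x0))} := by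
  have h1 := qw_hv_marks (bl := bl) (O := O) (x := x) k x0 (e + 1) 0 s hf (by simpa using hp)
  let σ : ℕ → HS β Γ ι κ X := fun i =>
    {s with ih := i + 1,
            f := update s.f k (lay (List.replicate (e + 1 + (code idx (x.take i)).length) x0)),
            p := update s.p k ((e + 1 + (code idx (x.take i)).length : ℕ) : ℤ)}
  have h3 := hv_whl (bl := bl) (C := (cT O x : Ctx α (ι ⊕ κ)))
    (c := testI fun i => decide (i ≠ In.rend))
    (b := lookI.bind fun i =>
      (qw_marks k x0 (In.casesOn i 0 0 fun a => idx a + 1)).seq (mvI 1))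
    x.length 3 (4 * c + 9) σ σ (s' := σ x.length)
    (fun i hi => (hv_testI _ (ok_cT _)).cast (by simp [σ, cT, inp_lt _ hi]) rfl)
    (fun i hi => by
      have ha : inp (cT O x : Ctx α (ι ⊕ κ)).x (σ i).ih = In.sym x[i] := inp_lt x hi
      have hl := hv_lookI (bl := bl) (C := (cT O x : Ctx α (ι ⊕ κ))) (s := σ i) (ok_cT _)
      rw [ha] at hl
      have hm := qw_hv_marks (bl := bl) (O := O) (x := x) k x0 (idx x[i] + 1)
        (e + 1 + (code idx (x.take i)).length) (σ i) (by simp [σ]) (by simp [σ])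
      refine ((hv_bind (K := fun i =>
        (qw_marks k x0 (In.casesOn i 0 0 fun a => idx a + 1)).seq (mvI 1)) hl
        (hv_seq hm (hv_right (ok_cT _) (by simp only [σ, cT]; omega)))).mono ?_).cast rfl ?_
      · have := hc x[i]; omega
      · simp only [σ, update_idem, qw_code_take idx x hi, Nat.add_assoc])
    ((hv_testI _ (ok_cT _)).cast (by simp [σ, cT, inp_end]) rfl)
  have h2 := (hv_right (bl := bl) (C := (cT O x : Ctx α (ι ⊕ κ)))
    (s := {s with f := update s.f k (lay (List.replicate (0 + (e + 1)) x0)),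
                  p := update s.p k ((0 + (e + 1) : ℕ) : ℤ)}) (ok_cT _) (by simp [h0])).cast rfl
    (show _ = σ 0 by simp [σ, h0, code_nil])
  have h4 := hv_rewI (bl := bl) (C := (cT O x : Ctx α (ι ⊕ κ))) (s := σ x.length) (ok_cT _)
  have h5 := qw_hv_back (bl := bl) (O := O) (x := x) k x0 (tau e idx x).length
    ({σ x.length with ih := 0}) (by simp [σ, tau_len]) (by simp [σ, tau_len])
  have hl := code_len_le idx hc x
  refine ((hv_seq h1 (hv_seq h2 (hv_seq h3 (hv_seq h4 h5)))).mono ?_).cast rfl ?_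
  · simp only [σ, tau_len]
    nlinarith [Nat.zero_le (e * x.length), Nat.zero_le (c * x.length)]
  · simp only [σ, update_idem, List.take_length, tau_len]
    rw [← hp, update_eq_self, ← h0]

theorem qw_hv_all [Finite α] [Finite X] (x0 : X) (e : ℕ) (idx : α → ℕ) (c : ℕ)
    (hc : ∀ a, idx a ≤ c) (l : List κ) (hl : l.Nodup) (s : HS β Γ ι κ X) (h0 : s.ih = 0)
    (hf : ∀ k ∈ l, s.f k = lay (List.replicate 0 x0) ∧ s.p k = 0) :
    Pg.Hv (qw_all x0 e idx l) bl (cT O x) s
      (l.length * ((12 * c + 12 * e + 60) * (x.length + 1) + 1) + 1) ()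
      {s with f := fun k => if k ∈ l then lay (List.replicate (tau e idx x).length x0)
        else s.f k} := by
  induction l generalizing s with
  | nil => exact ((hv_ret () (ok_cT _)).mono (by simp)).cast rfl (by simp)
  | cons k l ih =>
    rw [List.nodup_cons] at hl
    have h1 := qw_hv_one (bl := bl) (O := O) (x := x) x0 e idx c hc k s h0
      (hf k (by simp)).1 (hf k (by simp)).2
    have h2 := ih hl.2 {s with f := update s.f k (lay (List.replicate (tau e idx x).length x0))}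
      h0 (fun k' hk' => by
        have hne : k' ≠ k := fun h => hl.1 (h ▸ hk')
        simpa [update_of_ne hne] using hf k' (by simp [hk']))
    refine ((hv_seq h1 h2).mono ?_).cast rfl ?_
    · rw [List.length_cons, Nat.succ_mul l.length]; omega
    · simp only [HS.mk.injEq, true_and, and_true]
      funext k'
      by_cases h : k' = k
      · subst h; simp
      · simp [h]

theorem qw_hv_pad [Finite X] (x0 : X) (l : List κ) (hl : l.Nodup) :
    ∃ c : ℕ, ∀ (bl : Γ) (O : Set (List Bool)) (x : List α) (m : ℕ) (s : HS β Γ ι κ X),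
      (∀ k ∈ l, s.f k = lay (List.replicate m x0) ∧ s.p k = 0) →
      Pg.Hv (qw_pad l) bl (cT O x) s (c * (m + 1) ^ l.length) ()
        {s with qt := s.qt ++ List.replicate (m ^ l.length) true} := by
  induction l with
  | nil => exact ⟨1, fun bl O x m s _ => ((hv_push true (ok_cT _)).mono (by simp)).cast rfl (by simp)⟩
  | cons k l ih =>
    rw [List.nodup_cons] at hl
    obtain ⟨c, hc⟩ := ih hl.2
    refine ⟨c + 30, fun bl O x m s hf => ?_⟩
    obtain ⟨hf1, hp1⟩ := hf k (by simp)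
    let σ : ℕ → HS β Γ ι κ X := fun i =>
      {s with qt := s.qt ++ List.replicate (i * m ^ l.length) true, p := update s.p k (i : ℤ)}
    have h1 := hv_whl (bl := bl) (C := (cT O x : Ctx α (ι ⊕ κ))) (c := qw_tst k)
      (b := (qw_pad l).seq (mv k 1)) m 3 (c * (m + 1) ^ l.length + 2) σ σ (s' := σ m)
      (fun i hi => (qw_hv_tst k _).cast (by
        simp only [σ, update_self, hf1]
        rw [qw_lay_lt x0 hi]; rfl) rfl)
      (fun i hi => by
        have h2 := hc bl O x m (σ i) (fun k' hk' => by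
          have hne : k' ≠ k := fun h => hl.1 (h ▸ hk')
          simpa [σ, update_of_ne hne] using hf k' (by simp [hk']))
        refine ((hv_seq h2 (qw_hv_mv k 1 _)).mono (by omega)).cast rfl ?_
        simp only [σ, update_self, update_idem, List.append_assoc, ← List.replicate_add,
          Nat.succ_mul, SignType.coe_one, Nat.cast_add, Nat.cast_one])
      ((qw_hv_tst k _).cast (by
        simp only [σ, update_self, hf1]
        rw [qw_lay_end]; rfl) rfl)
    have h2 := qw_hv_back (bl := bl) (O := O) (x := x) k x0 m (σ m) (by simp [σ, hf1])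
      (by simp [σ])
    have h0 : σ 0 = s := by simp [σ, ← hp1]
    rw [h0] at h1
    refine ((hv_seq h1 h2).mono ?_).cast rfl ?_
    · have hp : 1 ≤ (m + 1) ^ l.length := Nat.one_le_pow _ _ (by omega)
      rw [List.length_cons, pow_succ]
      generalize (m + 1) ^ l.length = P at hp ⊢
      nlinarith [Nat.mul_le_mul_left m hp, Nat.zero_le (c * P)]
    · simp only [σ, update_idem, List.length_cons, pow_succ, Nat.mul_comm m]
      rw [← hp1, update_eq_self]

end hv

theorem qw_flat (g : Bool → List Bool) (idx : α → ℕ) (x : List α) :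
    (code idx x).flatMap g = x.flatMap fun a => (cod1 idx a).flatMap g := by
  simp [code, List.flatMap_assoc]

theorem qw_dlen (u : List Bool) : (u.flatMap fun b => [true, b]).length = 2 * u.length := by
  have := enc_len u
  simp only [enc, List.length_append, List.length_singleton] at this
  omega

theorem qw_ex (β Γ ι κ : Type) [Finite α] [Finite X] (j e : ℕ) (hj : 1 ≤ j) (idx : α → ℕ) (x0 : X) :
    ∃ (prep qw : HP α β Γ ι (Fin j ⊕ κ) X Unit) (c : ℕ), prep.Det ∧ qw.Det ∧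
      ∀ (bl : Γ) (O : Set (List Bool)) (x : List α) (s : HS β Γ ι (Fin j ⊕ κ) X), s.ih = 0 →
        Pg.Hv prep bl (cT O x) (s.pad x0 0) (c * (x.length + 1)) ()
          (s.pad x0 (tau e idx x).length) ∧
        Pg.Hv qw bl (cT O x) (s.pad x0 (tau e idx x).length) (c * (x.length + 1) ^ j) ()
          (HS.pad {s with qt := s.qt ++ cell (tau e idx x) ((tau e idx x).length ^ j) []} x0
            (tau e idx x).length) := by
  obtain ⟨c, hc⟩ := idx_bdd idx
  let l : List (Fin j ⊕ κ) := (List.finRange j).map Sum.inl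
  have hl : l.Nodup := (List.nodup_finRange j).map Sum.inl_injective
  have hlen : l.length = j := by simp [l]
  have hmem : ∀ k ∈ l, ∃ i, k = Sum.inl i := fun k hk => by
    obtain ⟨i, -, rfl⟩ := List.mem_map.1 hk; exact ⟨i, rfl⟩
  obtain ⟨d, hd⟩ := qw_hv_pad (α := α) (β := β) (Γ := Γ) (ι := ι) x0 l hl
  let w : List Bool := true :: (List.replicate e true ++ [false]).flatMap fun b => [true, b]
  have hw : w.length = 2 * e + 3 := by simp only [w, List.length_cons, qw_dlen]; simp; omega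
  refine ⟨qw_all x0 e idx l,
    (pushes w).seq ((copyI fun a => (cod1 idx a).flatMap fun b => [true, b]).seq
      ((push false).seq ((qw_pad l).seq (push false)))),
    j * (12 * c + 12 * e + 61) + (4 * e + 4 * c + 50) + d * (e + c + 3) ^ j,
    qw_det_all _ _ _ _, det_seq (det_pushes _) (det_seq (det_copyI _) (det_seq (det_push _)
      (det_seq (qw_det_pad _) (det_push _)))), fun bl O x s h0 => ⟨?_, ?_⟩⟩
  · have h1 := qw_hv_all (bl := bl) (O := O) (x := x) x0 e idx c hc l hl (s.pad x0 0) h0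
      (fun k hk => by obtain ⟨i, rfl⟩ := hmem k hk; exact ⟨rfl, rfl⟩)
    refine (h1.mono ?_).cast rfl ?_
    · rw [hlen]
      generalize d * (e + c + 3) ^ j = D
      generalize 12 * c + 12 * e = A
      nlinarith [Nat.zero_le (j * x.length), Nat.zero_le (D * x.length),
        Nat.zero_le ((4 * e + 4 * c + 50) * x.length)]
    · simp only [HS.pad, HS.mk.injEq, true_and, and_true]
      funext k
      rcases k with i | k
      · simp [l]
      · simp [l]
  · have h1 := hv_pushes (bl := bl) (C := (cT O x : Ctx α (ι ⊕ (Fin j ⊕ κ))))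
      (s := s.pad x0 (tau e idx x).length) w (ok_cT _)
    have h2 := hv_copyI (bl := bl) (C := (cT O x : Ctx α (ι ⊕ (Fin j ⊕ κ))))
      (s := {s.pad x0 (tau e idx x).length with qt := (s.pad x0 (tau e idx x).length).qt ++ w})
      (fun a => (cod1 idx a).flatMap fun b => [true, b]) (2 * c + 2)
      (fun a => by have := hc a; rw [qw_dlen]; simp [cod1]; omega) (ok_cT _) h0
    have h4 := hd bl O x (tau e idx x).length
      {s.pad x0 (tau e idx x).length with
        qt := (s.pad x0 (tau e idx x).length).qt ++ w ++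
          x.flatMap (fun a => (cod1 idx a).flatMap fun b => [true, b]) ++ [false]}
      (fun k hk => by obtain ⟨i, rfl⟩ := hmem k hk; exact ⟨rfl, rfl⟩)
    refine ((hv_seq h1 (hv_seq h2 (hv_seq (hv_push false (ok_cT _))
      (hv_seq h4 (hv_push false (ok_cT _)))))).mono ?_).cast rfl ?_
    · rw [hlen, hw]
      have e1 : (tau e idx x).length + 1 ≤ (e + c + 3) * (x.length + 1) := by
        have := code_len_le idx hc x
        rw [tau_len]
        nlinarith [Nat.zero_le (e * x.length)]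
      have e2 : ((tau e idx x).length + 1) ^ j ≤ (e + c + 3) ^ j * (x.length + 1) ^ j := by
        rw [← mul_pow]; exact Nat.pow_le_pow_left e1 j
      have e3 : x.length + 1 ≤ (x.length + 1) ^ j := Nat.le_self_pow (by omega) _
      have e4 := Nat.mul_le_mul_left d e2
      have e5 := Nat.mul_le_mul_left (4 * e + 4 * c + 50) e3
      simp only [cT]
      generalize (x.length + 1) ^ j = P at *
      generalize (e + c + 3) ^ j = Q at *
      generalize ((tau e idx x).length + 1) ^ j = R at *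
      nlinarith [Nat.zero_le (j * (12 * c + 12 * e + 61) * P), Nat.zero_le (e * x.length)]
    · simp only [HS.pad, HS.mk.injEq, true_and, hlen, cT]
      simp [w, cell, enc, tau, qw_flat]

end Pool.Agent.P.MP_d0c5d0_lc
end

-- part Pool.Agent.P.MP_d0c5d0_lc.DCode
section

/-! Deterministic decoding of a stored value in time O(n^(j+1)). -/

namespace Pool.Agent.P.MP_d0c5d0_lc

open Classical Function

section tape

variable {α β Γ ι κ X : Type} {bl : Γ} {O : Set (List Bool)} {x : List α}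

/-- append a word at the end of own tape `k` -/
noncomputable def dcApp (k : κ) (w : List X) : HP α β Γ ι κ X Unit :=
  w.foldr (fun a P => (wr k (some a)).seq ((mv k 1).seq P)) (ret ())

theorem dcode_det_app (k : κ) (w : List X) : (dcApp k w : HP α β Γ ι κ X Unit).Det := by
  induction w with
  | nil => exact det_ret _
  | cons a w ih => exact det_seq (det_wr _ _) (det_seq (det_mv _ _) ih)

theorem dcode_hv_app (k : κ) (w l : List X) (s : HS β Γ ι κ X) (hf : s.f k = lay l)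
    (hp : s.p k = l.length) :
    Pg.Hv (dcApp k w) bl (cT O x) s (4 * w.length + 1) ()
      {s with f := update s.f k (lay (l ++ w)), p := update s.p k ((l ++ w).length : ℕ)} := by
  induction w generalizing s l with
  | nil => exact (hv_ret () (ok_cT _)).cast rfl (by simp [← hf, ← hp])
  | cons a w ih =>
    refine ((hv_seq (hv_wr k (some a) (ok_cT _)) (hv_seq (hv_mv k 1 (ok_cT _) (ok_cT _))
      (ih (l ++ [a]) _ ?_ ?_))).mono (by simp; omega)).cast rfl (by simp)
    · simp [hf, hp, update_lay_end]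
    · simp [hp]

/-- move the head of own tape `k` from the end of its word to cell 0 -/
noncomputable def dcRew [Finite X] (k : κ) : HP α β Γ ι κ X Unit :=
  (mv k (-1)).seq ((whl (testT k Option.isSome) (mv k (-1))).seq (mv k 1))

theorem dcode_det_rew [Finite X] (k : κ) : (dcRew k : HP α β Γ ι κ X Unit).Det :=
  det_seq (det_mv _ _) (det_seq (det_whl (det_testT _ _) (det_mv _ _)) (det_mv _ _))

theorem dcode_hv_rew [Finite X] (k : κ) (l : List X) (s : HS β Γ ι κ X) (hf : s.f k = lay l)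
    (hp : s.p k = l.length) :
    Pg.Hv (dcRew k) bl (cT O x) s (8 * l.length + 10) () {s with p := update s.p k 0} := by
  have := hv_whl (bl := bl) (C := cT O x) (c := testT k Option.isSome) (b := mv k (-1))
    l.length 3 1 (fun i => {s with p := update s.p k ((l.length : ℤ) - 1 - i)})
    (fun i => {s with p := update s.p k ((l.length : ℤ) - 1 - i)})
    (s' := {s with p := update s.p k (-1)})
    (fun i hi => (hv_testT _ _ (ok_cT _)).cast (by
      have e : (l.length : ℤ) - 1 - i = ((l.length - 1 - i : ℕ) : ℤ) := by omega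
      simp only [update_self, hf]
      rw [e, lay_nat, List.getElem?_eq_getElem (by omega)]
      rfl) rfl)
    (fun i hi => (hv_mv k (-1) (ok_cT _) (ok_cT _)).cast rfl (by
      simp only [update_self, update_idem]
      congr 2
      push_cast
      simp
      ring))
    ((hv_testT _ _ (ok_cT _)).cast (by
      simp only [update_self, hf]
      rw [lay_neg _ (by omega)]
      rfl) (by congr 2; omega))
  refine ((hv_seq ((hv_mv k (-1) (ok_cT _) (ok_cT _)).cast rfl ?_)
    (hv_seq this (hv_mv k 1 (ok_cT _) (ok_cT _)))).mono (by omega)).cast rfl (by simp)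
  congr 2
  simp [hp]
  ring

/-- copy the word on own tape `k` to the query tape -/
noncomputable def dcCpy [Finite X] (k : κ) (g : Option X → Bool) : HP α β Γ ι κ X Unit :=
  whl (testT k Option.isSome) ((look k).bind fun o => (push (g o)).seq (mv k 1))

theorem dcode_det_cpy [Finite X] (k : κ) (g) : (dcCpy k g : HP α β Γ ι κ X Unit).Det :=
  det_whl (det_testT _ _) (det_bind (det_look _) fun _ => det_seq (det_push _) (det_mv _ _))

theorem dcode_hv_cpy [Finite X] (k : κ) (g : Option X → Bool) (l : List X) (s : HS β Γ ι κ X)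
    (hf : s.f k = lay l) (hp : s.p k = 0) :
    Pg.Hv (dcCpy k g) bl (cT O x) s (12 * l.length + 6) ()
      {s with p := update s.p k (l.length : ℕ), qt := s.qt ++ l.map fun a => g (some a)} := by
  have := hv_whl (bl := bl) (C := cT O x) (c := testT k Option.isSome)
    (b := (look k).bind fun o => (push (g o)).seq (mv k 1)) l.length 3 5
    (fun i => {s with p := update s.p k (i : ℕ), qt := s.qt ++ (l.take i).map fun a => g (some a)})
    (fun i => {s with p := update s.p k (i : ℕ), qt := s.qt ++ (l.take i).map fun a => g (some a)})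
    (s' := {s with p := update s.p k (l.length : ℕ), qt := s.qt ++ l.map fun a => g (some a)})
    (fun i hi => (hv_testT _ _ (ok_cT _)).cast (by
      simp only [update_self, hf]
      rw [lay_nat, List.getElem?_eq_getElem hi]
      rfl) rfl)
    (fun i hi => (hv_bind (K := fun o => (push (g o)).seq (mv k 1)) (hv_look k (ok_cT _))
      (hv_seq (hv_push _ (ok_cT _)) (hv_mv k 1 (ok_cT _) (ok_cT _)))).cast rfl (by
        simp only [update_self, update_idem, hf]
        rw [lay_nat, List.take_add_one, List.getElem?_eq_getElem hi]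
        simp [-List.take_append_getElem]))
    ((hv_testT _ _ (ok_cT _)).cast (by
      simp only [update_self, hf]
      rw [lay_len]
      rfl) (by simp))
  have e : ∀ s' : HS β Γ ι κ X, s' = ⟨s.ih, s.tp, s.hd, s.f, update s.p k ((0 : ℕ) : ℤ), s.out,
      s.qt ++ (l.take 0).map fun a => g (some a)⟩ → s' = s := by
    rintro _ rfl
    simp [← hp]
  rw [e _ rfl] at this
  exact this.mono (by omega)

end tape

section main

variable {α Γ ι X : Type} {j : ℕ}

/-- host states of the decoder -/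
def dcS (bl : Γ) (x0 : X) (m : ℕ) (a b : List X) (pa pb : ℤ) (q : List Bool) :
    HS Empty Γ ι (Fin j ⊕ Bool) X :=
  ⟨0, fun _ _ => bl, fun _ => 0,
    Sum.elim (fun _ => lay (List.replicate m x0)) (fun k => cond k (lay b) (lay a)),
    Sum.elim (fun _ => 0) (fun k => cond k pb pa), [], q⟩

theorem dcode_upd0 {Y : Type} [DecidableEq (Fin j ⊕ Bool)] (A : Fin j → Y) (b a a' : Y) :
    update (Sum.elim A fun k : Bool => cond k b a) (Sum.inr false) a' =
      Sum.elim A fun k : Bool => cond k b a' := by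
  funext k
  rcases k with k | _ | _ <;> simp

theorem dcode_upd1 {Y : Type} [DecidableEq (Fin j ⊕ Bool)] (A : Fin j → Y) (b a b' : Y) :
    update (Sum.elim A fun k : Bool => cond k b a) (Sum.inr true) b' =
      Sum.elim A fun k : Bool => cond k b' a := by
  funext k
  rcases k with k | _ | _ <;> simp

theorem dcode_hs0 (bl : Γ) (x0 : X) :
    (hs0 bl : HS Empty Γ ι (Fin j ⊕ Bool) X) = dcS bl x0 0 [] [] 0 0 [] := by
  simp only [hs0, dcS, HS.mk.injEq, true_and, and_true]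
  constructor
  · funext k
    rcases k with k | _ | _ <;> simp [lay_nil]
  · funext k
    rcases k with k | _ | _ <;> simp

variable {Y : Type} [Finite Y] {bl : Γ} {O : Set (List Bool)} {x : List α}

/-- both heads at the ends of the words, empty query tape -/
def dcE (bl : Γ) (m : ℕ) (u : List Bool) (v : List (Bool ⊕ Y)) :
    HS Empty Γ ι (Fin j ⊕ Bool) (Bool ⊕ Y) :=
  dcS bl (Sum.inl true) m (u.map Sum.inl) v (u.map (Sum.inl : Bool → Bool ⊕ Y)).length v.length []

/-- ask whether the word found so far can be extended by `w` -/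
noncomputable def dcExt (qw : HP α Empty Γ ι (Fin j ⊕ Bool) (Bool ⊕ Y) Unit) (w : List Bool) :
    HP α Empty Γ ι (Fin j ⊕ Bool) (Bool ⊕ Y) Bool :=
  qw.seq ((dcRew (Sum.inr false)).seq
    ((dcCpy (Sum.inr false) fun o => decide (o = some (Sum.inl true))).seq ((pushes w).seq ask)))

/-- try the candidates in turn -/
noncomputable def dcSrch (qw : HP α Empty Γ ι (Fin j ⊕ Bool) (Bool ⊕ Y) Unit)
    (L : List (List Bool × List (Bool ⊕ Y) × Bool)) :
    HP α Empty Γ ι (Fin j ⊕ Bool) (Bool ⊕ Y) Bool :=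
  L.foldr (fun c P => (dcExt qw c.1).bind fun r => Bool.casesOn (motive := fun _ => _) r P
    ((dcApp (Sum.inr false) (c.1.map Sum.inl)).seq ((dcApp (Sum.inr true) c.2.1).seq (ret c.2.2))))
    (ret false)

theorem dcode_det_srch {qw : HP α Empty Γ ι (Fin j ⊕ Bool) (Bool ⊕ Y) Unit} (h : qw.Det)
    (L : List (List Bool × List (Bool ⊕ Y) × Bool)) : (dcSrch qw L).Det := by
  induction L with
  | nil => exact det_ret _
  | cons c L ih =>
    refine det_bind (det_seq h (det_seq (dcode_det_rew _) (det_seq (dcode_det_cpy _ _)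
      (det_seq (det_pushes _) det_ask)))) fun r => ?_
    cases r
    · exact ih
    · exact det_seq (dcode_det_app _ _) (det_seq (dcode_det_app _ _) (det_ret _))

/-- `qw` writes the word `z` within `T` steps, and the oracle knows the starts of `W` -/
def DcOk (qw : HP α Empty Γ ι (Fin j ⊕ Bool) (Bool ⊕ Y) Unit) (bl : Γ) (O : Set (List Bool))
    (x : List α) (m T : ℕ) (z W : List Bool) : Prop :=
  (∀ a b pa pb, Pg.Hv qw bl (cT O x) (dcS bl (Sum.inl true) m a b pa pb []) T ()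
    (dcS bl (Sum.inl true) m a b pa pb z)) ∧ ∀ u, z ++ u ∈ O ↔ u <+: W

variable {qw : HP α Empty Γ ι (Fin j ⊕ Bool) (Bool ⊕ Y) Unit} {m T : ℕ} {z W : List Bool}

theorem dcode_hv_ext (h : DcOk qw bl O x m T z W) {u R : List Bool} (hW : W = u ++ R)
    (w : List Bool) (v : List (Bool ⊕ Y)) :
    Pg.Hv (dcExt qw w) bl (cT O x) (dcE bl m u v) (T + 20 * W.length + 2 * w.length + 22)
      (decide (w <+: R)) (dcE bl m u v) := by
  have hl : u.length ≤ W.length := by rw [hW]; simp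
  refine ((hv_seq (h.1 _ _ _ _) (hv_seq (dcode_hv_rew _ (u.map Sum.inl) _ rfl rfl)
    (hv_seq (dcode_hv_cpy _ _ (u.map Sum.inl) _ rfl (by simp))
      (hv_seq (hv_pushes w (ok_cT _)) (hv_ask (ok_cT _)))))).mono (by simp; omega)).cast ?_ ?_
  · have e : (u.map (Sum.inl : Bool → Bool ⊕ Y)).map
        (fun a => decide (some a = some (Sum.inl true))) = u := by
      rw [List.map_map]
      conv_rhs => rw [← List.map_id u]
      refine List.map_congr_left fun b _ => ?_
      cases b <;> simp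
    rw [e]
    refine decide_eq_decide.mpr ?_
    show z ++ u ++ w ∈ O ↔ _
    rw [List.append_assoc, h.2, hW, List.prefix_append_right_inj]
  · simp only [dcE, dcS, update_idem, dcode_upd0]

theorem dcode_hv_none (h : DcOk qw bl O x m T z W) {u R : List Bool} (hW : W = u ++ R)
    (v : List (Bool ⊕ Y)) (L : List (List Bool × List (Bool ⊕ Y) × Bool)) {b : ℕ}
    (hb : ∀ c ∈ L, c.1.length ≤ b) (hL : ∀ c ∈ L, ¬ c.1 <+: R) :
    Pg.Hv (dcSrch qw L) bl (cT O x) (dcE bl m u v)
      (L.length * (T + 20 * W.length + 2 * b + 23) + 1) false (dcE bl m u v) := by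
  induction L with
  | nil => exact (hv_ret _ (ok_cT _)).mono (by simp)
  | cons c L ih =>
    have h1 := (dcode_hv_ext h hW c.1 v).cast (decide_eq_false (hL c (by simp))) rfl
    have h2 := hb c (by simp)
    refine (hv_bind h1 (ih (fun c hc => hb c (by simp [hc])) fun c hc => hL c (by simp [hc]))).mono ?_
    rw [List.length_cons, Nat.add_one_mul L.length]
    omega

theorem dcode_hv_some (h : DcOk qw bl O x m T z W) {u R : List Bool} (hW : W = u ++ R)
    (v : List (Bool ⊕ Y)) (L : List (List Bool × List (Bool ⊕ Y) × Bool)) {b : ℕ}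
    (hb : ∀ c ∈ L, c.1.length ≤ b) {c : List Bool × List (Bool ⊕ Y) × Bool} (hc : c ∈ L)
    (hR : c.1 <+: R) (h1 : c.2.1.length ≤ 1) (hL : ∀ c' ∈ L, c'.1 <+: R → c' = c) :
    Pg.Hv (dcSrch qw L) bl (cT O x) (dcE bl m u v)
      (L.length * (T + 20 * W.length + 2 * b + 23) + (4 * b + 9)) c.2.2
      (dcE bl m (u ++ c.1) (v ++ c.2.1)) := by
  induction L with
  | nil => simp at hc
  | cons c' L ih =>
    have h2 := hb c' (by simp)
    by_cases hg : c'.1 <+: R
    · obtain rfl := hL c' (by simp) hg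
      have h3 := (dcode_hv_ext h hW c'.1 v).cast (decide_eq_true hg) rfl
      refine ((hv_bind h3 (hv_seq (dcode_hv_app _ (c'.1.map Sum.inl) (u.map Sum.inl) _ rfl rfl)
        (hv_seq (dcode_hv_app _ c'.2.1 v _ (by simp [dcE, dcS]) (by simp [dcE, dcS]))
          (hv_ret c'.2.2 (ok_cT _))))).mono ?_).cast rfl ?_
      · rw [List.length_cons, Nat.add_one_mul L.length, List.length_map]
        omega
      · simp only [dcE, dcS, dcode_upd0, dcode_upd1, List.map_append]
    · have h3 := (dcode_hv_ext h hW c'.1 v).cast (decide_eq_false hg) rfl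
      have hc' : c ∈ L := by
        rcases List.mem_cons.mp hc with rfl | hc
        · exact absurd hR hg
        · exact hc
      refine (hv_bind h3 (ih (fun c hc => hb c (by simp [hc])) hc'
        fun c hc => hL c (by simp [hc]))).mono ?_
      rw [List.length_cons, Nat.add_one_mul L.length]
      omega

/-- candidates while the password is read -/
def dcL1 (Y : Type) : List (List Bool × List (Bool ⊕ Y) × Bool) :=
  [([true, true], [], true), ([true, false], [], true), ([false], [], false)]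

theorem dcode_phase1 (h : DcOk qw bl O x m T z W) (p : List Bool) {u R : List Bool}
    (hW : W = u ++ (enc p ++ R)) (v : List (Bool ⊕ Y)) :
    Pg.Hv (whl (dcSrch qw (dcL1 Y)) (ret ())) bl (cT O x) (dcE bl m u v)
      ((p.length + 1) * (3 * (T + 20 * W.length + 27) + 22)) () (dcE bl m (u ++ enc p) v) := by
  have hb : ∀ c ∈ dcL1 Y, c.1.length ≤ 2 := by simp [dcL1]
  induction p generalizing u with
  | nil =>
    have h1 := dcode_hv_some h hW v (dcL1 Y) hb (c := ([false], [], false)) (by simp [dcL1])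
      (by simp [enc_nil]) (by simp) (by simp [dcL1, enc_nil])
    refine ((hv_whl_stop h1).mono ?_).cast rfl (by simp [enc_nil])
    simp only [dcL1, List.length_cons, List.length_nil]
    omega
  | cons b p ih =>
    have h1 := dcode_hv_some h hW v (dcL1 Y) hb (c := ([true, b], [], true))
      (by cases b <;> simp [dcL1]) (by simp [enc_cons]) (by simp)
      (by cases b <;> simp [dcL1, enc_cons])
    have h2 := ih (u := u ++ [true, b]) (by rw [hW, enc_cons]; simp)
    refine ((hv_whl_more h1 (hv_ret () (ok_cT _)) (by simpa using h2)).mono ?_).cast rfl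
      (by simp [enc_cons])
    simp only [dcL1, List.length_cons, List.length_nil]
    rw [Nat.succ_mul (p.length + 1)]
    omega

end main

section letters

variable {α β Γ ι : Type} {j : ℕ} [Finite β] {bl : Γ} {O : Set (List Bool)} {x : List α}
  {qw : HP α Empty Γ ι (Fin j ⊕ Bool) (Bool ⊕ In β) Unit} {m T : ℕ} {z W : List Bool}

/-- candidates while the value is read -/
def dcL2 (idy : β → ℕ) (l : List β) : List (List Bool × List (Bool ⊕ In β) × Bool) :=
  l.map fun d => (cod1 idy d, [Sum.inr (In.sym d)], true)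

theorem dcode_phase2 {idy : β → ℕ} (hy : Injective idy) {l : List β} (hl : ∀ d, d ∈ l) {b : ℕ}
    (hb : ∀ d, idy d ≤ b) (h : DcOk qw bl O x m T z W) (y : List β) {u : List Bool}
    (hW : W = u ++ code idy y) (v : List (Bool ⊕ In β)) :
    Pg.Hv (whl (dcSrch qw (dcL2 idy l)) (ret ())) bl (cT O x) (dcE bl m u v)
      ((y.length + 1) * (l.length * (T + 20 * W.length + 2 * (b + 1) + 23) + (4 * b + 18))) ()
      (dcE bl m W (v ++ y.map fun d => Sum.inr (In.sym d))) := by
  have hb' : ∀ c ∈ dcL2 idy l, c.1.length ≤ b + 1 := by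
    intro c hc
    obtain ⟨d, -, rfl⟩ := List.mem_map.mp hc
    simpa [cod1] using hb d
  have hlen : (dcL2 idy l).length = l.length := List.length_map _
  induction y generalizing u v with
  | nil =>
    have h1 := dcode_hv_none h hW v (dcL2 idy l) hb' (by
      intro c hc
      obtain ⟨d, -, rfl⟩ := List.mem_map.mp hc
      simp [cod1, code_nil])
    refine ((hv_whl_stop h1).mono ?_).cast rfl (by simp [hW, code_nil])
    rw [hlen, List.length_nil]
    omega
  | cons a y ih =>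
    have e1 : ∀ d, cod1 idy d = code idy [d] := fun d => by simp [code]
    have e2 : code idy (a :: y) = cod1 idy a ++ code idy y := by simp [code]
    have h1 := dcode_hv_some h hW v (dcL2 idy l) hb' (c := (cod1 idy a, [Sum.inr (In.sym a)], true))
      (List.mem_map.mpr ⟨a, hl a, rfl⟩) (by rw [e2]; exact List.prefix_append _ _) (by simp) (by
        intro c hc hp
        obtain ⟨d, -, rfl⟩ := List.mem_map.mp hc
        rw [e1, code_pre hy] at hp
        obtain rfl : d = a := by simpa using hp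
        rfl)
    have h2 := ih (u := u ++ cod1 idy a) (by rw [hW, e2, List.append_assoc])
      (v ++ [Sum.inr (In.sym a)])
    refine ((hv_whl_more h1 (hv_ret () (ok_cT _)) h2).mono ?_).cast rfl (by simp)
    rw [hlen, List.length_cons, Nat.succ_mul (y.length + 1)]
    omega

/-- how the simulated machine reads the virtual input -/
def dcVw : Option (Bool ⊕ In β) → In β
  | some (Sum.inr i) => i
  | _ => In.rend

omit [Finite β] in
theorem dcode_vw (y : List β) (h : ℕ) :
    dcVw (lay ([Sum.inr In.lend] ++ y.map (fun d => Sum.inr (In.sym d)) ++ [Sum.inr In.rend] :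
      List (Bool ⊕ In β)) h) = inp y h := by
  rw [lay_nat]
  cases h with
  | zero => rfl
  | succ h =>
    rw [inp_succ]
    simp only [List.cons_append, List.nil_append, List.getElem?_cons_succ]
    by_cases hh : h < y.length
    · rw [List.getElem?_append_left (by simpa using hh)]
      simp [hh, dcVw]
    · rw [List.getElem?_append_right (by simpa using hh), List.getElem?_eq_none (l := y) (by omega)]
      cases h - (y.map fun d => (Sum.inr (In.sym d) : Bool ⊕ In β)).length <;> rfl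

end letters

theorem dcode_arith {N P Q D T w a b r : ℕ} (hN : 1 ≤ N) (hP : N ≤ P) (hQ : N * P ≤ Q)
    (hT : T ≤ D * P) (hw : w ≤ D * N) (ha : a ≤ D) (hb : b ≤ D) (hr : r ≤ D * N) :
    r * (a * (T + 20 * w + b) + b) ≤ (D * (D * (22 * D) + D)) * Q := by
  have h1 : w ≤ D * P := hw.trans (Nat.mul_le_mul_left _ hP)
  have h2 : b ≤ D * P := hb.trans (Nat.le_mul_of_pos_right _ (by omega))
  have h3 : T + 20 * w + b ≤ 22 * D * P := by rw [mul_assoc]; omega
  have h4 : a * (T + 20 * w + b) + b ≤ (D * (22 * D) + D) * P := by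
    have := Nat.mul_le_mul ha h3
    rw [add_mul, mul_assoc D]
    omega
  calc _ ≤ D * N * ((D * (22 * D) + D) * P) := Nat.mul_le_mul hr h4
    _ = (D * (D * (22 * D) + D)) * (N * P) := by ring
    _ ≤ _ := Nat.mul_le_mul_left _ hQ

theorem dcode_len {N n Y s τ e cx bx cy b P W r D : ℕ} (hN : N = n + 1) (a0 : Y ≤ s * N)
    (a1 : τ = e + 1 + cx) (a2 : cx ≤ (bx + 1) * n) (a3 : cy ≤ (b + 1) * Y) (hp : P ≤ 4 * τ + 3)
    (a4 : W = 2 * P + 1 + cy) (hD : D = r + 8 * (e + bx + 2) + (b + 2) * (s + 1) + 20) :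
    W ≤ D * N ∧ P + 1 ≤ D * N ∧ Y + 2 ≤ D * N := by
  have n1 : 1 ≤ N := by omega
  have b1 : τ ≤ (e + bx + 2) * N := by rw [a1, hN]; nlinarith
  have b2 : cy ≤ (b + 1) * (s * N) := a3.trans (Nat.mul_le_mul_left _ a0)
  have b3 : D * N = r * N + 8 * ((e + bx + 2) * N) + ((b + 1) * (s * N) + s * N + (b + 2) * N) +
      20 * N := by rw [hD]; ring
  omega

theorem dcode_total {N n Y s τ e cx bx cy b P W D c ll j k t sB : ℕ} (hN : N = n + 1) (hj : 1 ≤ j)
    (hk : j + 1 ≤ k) (a0 : Y ≤ s * N)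
    (a1 : τ = e + 1 + cx) (a2 : cx ≤ (bx + 1) * n) (a3 : cy ≤ (b + 1) * Y) (hp : P ≤ 4 * τ + 3)
    (a4 : W = 2 * P + 1 + cy) (hD : D = c + 8 * (e + bx + 2) + (b + 2) * (s + 1) + ll + 4 * b + 30)
    (ht : t ≤ sB * (Y + 1) ^ k) :
    c * N + (5 + ((P + 1) * (3 * (c * N ^ j + 20 * W + 27) + 22) +
      ((Y + 1) * (ll * (c * N ^ j + 20 * W + 2 * (b + 1) + 23) + (4 * b + 18)) +
        (4 * 1 + 1 + (8 * (Y + 2) + 10 + (2 * t + 2) + 1) + 1) + 1) + 1) + 1) + 1 ≤
      (2 * (D * (D * (22 * D) + D)) + 9 * D + 2 * (sB * D ^ k) + 50) * N ^ k := by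
  have n1 : 1 ≤ N := by omega
  have n2 : N ≤ N ^ j := Nat.le_self_pow (by omega) N
  have n3 : N * N ^ j ≤ N ^ k := by
    rw [← pow_succ']; exact Nat.pow_le_pow_right n1 hk
  have n4 : N ≤ N ^ k := Nat.le_self_pow (by omega) N
  obtain ⟨b3, b4, b5⟩ := dcode_len (r := c + ll + 4 * b + 10) (D := D) hN a0 a1 a2 a3 hp a4
    (by omega)
  have d1 : c ≤ D ∧ 27 ≤ D ∧ ll ≤ D ∧ 4 * b + 25 ≤ D := by omega
  have b6 : c * N ^ j ≤ D * N ^ j := Nat.mul_le_mul_right _ d1.1
  have c1 := dcode_arith (a := 3) (b := 27) n1 n2 n3 b6 b3 (by omega) d1.2.1 b4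
  have c2 := dcode_arith (a := ll) (b := 4 * b + 25) (r := Y + 1) n1 n2 n3 b6 b3
    d1.2.2.1 d1.2.2.2 (by omega)
  have c5 : t ≤ sB * D ^ k * N ^ k := by
    rw [mul_assoc, ← mul_pow]
    exact ht.trans (Nat.mul_le_mul_left _ (Nat.pow_le_pow_left (by omega) k))
  have c6 : D * N ≤ D * N ^ k := Nat.mul_le_mul_left _ n4
  have c7 : c * N ≤ D * N := Nat.mul_le_mul_right _ d1.1
  rw [add_mul _ 50, add_mul _ (2 * (sB * D ^ k)), add_mul _ (9 * D), mul_assoc 2, mul_assoc 9,
    mul_assoc 2]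
  clear a0 a1 a2 a3 a4 hp hD ht b3 b4 b6 n3 d1
  generalize c * N ^ j = T at c1 c2 ⊢
  generalize D * (D * (22 * D) + D) * N ^ k = Z at c1 c2 ⊢
  generalize sB * D ^ k * N ^ k = Z' at c5 ⊢
  generalize D * N ^ k = Z'' at c6 ⊢
  generalize N ^ k = Q at n4 ⊢
  have c3 : (P + 1) * (3 * (T + 20 * W + 27) + 22) ≤ Z :=
    (Nat.mul_le_mul_left _ (Nat.add_le_add_left (by norm_num) _)).trans c1
  have c4 : (Y + 1) * (ll * (T + 20 * W + 2 * (b + 1) + 23) + (4 * b + 18)) ≤ Z :=
    (Nat.mul_le_mul_left _ (Nat.add_le_add (Nat.mul_le_mul_left _ (by clear c1 c2 c3; omega))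
      (Nat.add_le_add_left (by norm_num) _))).trans c2
  clear c1 c2
  generalize (P + 1) * (3 * (T + 20 * W + 27) + 22) = U at c3 ⊢
  generalize (Y + 1) * (ll * (T + 20 * W + 2 * (b + 1) + 23) + (4 * b + 18)) = U' at c4 ⊢
  omega

theorem dcode {α β : Type} [Finite α] [Finite β] {O : Set (List Bool)} {j e k : ℕ} {idx : α → ℕ}
    {idy : β → ℕ} (hy : Injective idy) {f : List α → List β} (hj : 1 ≤ j) (hk : j + 1 ≤ k)
    (hc : Coded O j e idx idy f) (s : ℕ) (hs : ∀ x, (f x).length ≤ s * (x.length + 1))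
    {B : Set (List β)} (hB : DTIME O k B) : DTIME O k {x | f x ∈ B} := by
  obtain ⟨M, hM, sB, hrun⟩ := hB
  have := M.finΓ
  have := M.finι
  obtain ⟨prep, qw, c, hd1, hd2, hq⟩ :=
    qw_ex Empty M.Γ M.ι Bool j e hj idx (Sum.inl true : Bool ⊕ In β)
  obtain ⟨V, hd3, hV⟩ := vrun_ex (κ := Fin j ⊕ Bool) α Empty M id injective_id id id (fun _ => rfl)
    (Sum.inr true) (dcVw (β := β))
  obtain ⟨bx, hbx⟩ := idx_bdd idx
  obtain ⟨b, hb⟩ := idx_bdd idy
  obtain ⟨l, hl⟩ : ∃ l : List β, ∀ d, d ∈ l := by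
    have := Fintype.ofFinite β
    exact ⟨Finset.univ.toList, fun d => by simp⟩
  obtain ⟨D, hD⟩ : ∃ D, D = c + 8 * (e + bx + 2) + (b + 2) * (s + 1) + l.length + 4 * b + 30 :=
    ⟨_, rfl⟩
  refine dtime_of (prep.seq ((dcApp (Sum.inr true) [Sum.inr In.lend]).seq
    ((whl (dcSrch qw (dcL1 _)) (ret ())).seq ((whl (dcSrch qw (dcL2 idy l)) (ret ())).seq
      ((dcApp (Sum.inr true) [Sum.inr In.rend]).seq ((dcRew (Sum.inr true)).seq V))))))
    (M.blank, none) (det_seq hd1 (det_seq (dcode_det_app _ _)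
      (det_seq (det_whl (dcode_det_srch hd2 _) (det_ret _))
        (det_seq (det_whl (dcode_det_srch hd2 _) (det_ret _))
          (det_seq (dcode_det_app _ _) (det_seq (dcode_det_rew _) (hd3 hM)))))))
    (2 * (D * (D * (22 * D) + D)) + 9 * D + 2 * (sB * D ^ k) + 50) fun x => ?_
  obtain ⟨p, hp, hO⟩ := hc x
  obtain ⟨t, ht, cf, hE, hacc⟩ := hrun (f x)
  have hok : DcOk qw M.blank O x (tau e idx x).length (c * (x.length + 1) ^ j)
      (cell (tau e idx x) ((tau e idx x).length ^ j) []) (enc p ++ code idy (f x)) := by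
    refine ⟨fun a b pa pb => (hq M.blank O x (dcS M.blank (Sum.inl true) 0 a b pa pb []) rfl).2,
      fun u => ?_⟩
    rw [← hO]
    simp [cell]
  have h1 := (hq M.blank O x (dcS M.blank (Sum.inl true) 0 [] [] 0 0 []) rfl).1
  have h2 : Pg.Hv (dcApp (Sum.inr true) [Sum.inr In.lend]) M.blank (cT O x)
      (dcS M.blank (Sum.inl true) (tau e idx x).length [] [] 0 0 []) 5 ()
      (dcE (ι := M.ι) (j := j) M.blank (tau e idx x).length [] [Sum.inr (In.lend : In β)]) :=
    (dcode_hv_app _ _ [] _ rfl rfl).cast rfl (by simp only [dcE, dcS, dcode_upd1]; rfl)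
  have h3 := dcode_phase1 hok p (u := []) rfl [Sum.inr In.lend]
  have h4 := dcode_phase2 hy hl hb hok (f x) (u := [] ++ enc p) rfl [Sum.inr In.lend]
  have h5 := dcode_hv_app (bl := M.blank) (O := O) (x := x) (Sum.inr true) [Sum.inr In.rend] _
    (dcE (ι := M.ι) (j := j) M.blank (tau e idx x).length (enc p ++ code idy (f x))
      ([Sum.inr In.lend] ++ (f x).map fun d => Sum.inr (In.sym d))) rfl rfl
  replace h5 := h5.cast rfl (s₂ := dcE M.blank (tau e idx x).length (enc p ++ code idy (f x))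
    ([Sum.inr In.lend] ++ (f x).map (fun d => Sum.inr (In.sym d)) ++ [Sum.inr In.rend]))
    (by simp only [dcE, dcS, dcode_upd1])
  have h6 := dcode_hv_rew (bl := M.blank) (O := O) (x := x) (Sum.inr true) _
    (dcE (ι := M.ι) (j := j) M.blank (tau e idx x).length (enc p ++ code idy (f x))
      ([Sum.inr In.lend] ++ (f x).map (fun d => Sum.inr (In.sym d)) ++ [Sum.inr In.rend])) rfl rfl
  replace h6 := h6.cast rfl (s₂ := dcS M.blank (Sum.inl true) (tau e idx x).length
    ((enc p ++ code idy (f x)).map Sum.inl)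
    ([Sum.inr In.lend] ++ (f x).map (fun d => Sum.inr (In.sym d)) ++ [Sum.inr In.rend])
    ((enc p ++ code idy (f x)).map (Sum.inl : Bool → Bool ⊕ In β)).length 0 [])
    (by simp only [dcE, dcS, dcode_upd1])
  obtain ⟨s', h7⟩ : ∃ s', Pg.Hv V M.blank (cT O x) _ (2 * t + 2) (decide (cf.1 ∈ M.acc)) s' :=
    ((hV M.blank O x (dcS M.blank (Sum.inl true) (tau e idx x).length
      ((enc p ++ code idy (f x)).map Sum.inl)
      ([Sum.inr In.lend] ++ (f x).map (fun d => Sum.inr (In.sym d)) ++ [Sum.inr In.rend])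
      ((enc p ++ code idy (f x)).map (Sum.inl : Bool → Bool ⊕ In β)).length 0 []) (f x)
      ⟨fun _ _ => rfl, fun _ => rfl, rfl, fun h _ => dcode_vw (f x) h, rfl⟩).1 t cf hE).imp
      fun _ h => h.2
  refine ⟨decide (cf.1 ∈ M.acc), s'.dat M.blank, ?_, by simpa using hacc⟩
  rw [← hs0_dat, dcode_hs0 M.blank (Sum.inl true)]
  refine (hv_seq h1 (hv_seq h2 (hv_seq h3 (hv_seq h4 (hv_seq h5 (hv_seq h6 h7)))))).mono ?_
  have a4 : (enc p ++ code idy (f x)).length = 2 * p.length + 1 + (code idy (f x)).length := by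
    rw [List.length_append, enc_len]
  have a5 : ([Sum.inr In.lend] ++ (f x).map (fun d => Sum.inr (In.sym d)) ++ [Sum.inr In.rend] :
      List (Bool ⊕ In β)).length = (f x).length + 2 := by simp
  rw [a5]
  exact dcode_total rfl hj hk (hs x) (tau_len e idx x) (code_len_le idx hbx x)
    (code_len_le idy hb (f x)) hp a4 hD ht

end Pool.Agent.P.MP_d0c5d0_lc
end

-- part Pool.Agent.P.MP_d0c5d0_lc.NCode
section

/-! Nondeterministic access to a stored bit in time O(n^j). -/

namespace Pool.Agent.P.MP_d0c5d0_lc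

open Classical Function

section guessing

variable {α β Γ ι κ X : Type}

/-- one round of the guessing loop -/
def ncodeB : Option Bool → HP α β Γ ι κ X (Unit ⊕ Unit)
  | none => ret (Sum.inr ())
  | some b => (pushes [true, b]).seq (ret (Sum.inl ()))

/-- guess a bit string and append it, doubled, to the query tape -/
def ncodeG : HP α β Γ ι κ X Unit :=
  Pg.iter (fun _ : Unit => (guess (Option Bool)).bind ncodeB) ()

theorem ncode_hv {bl : Γ} {O : Set (List Bool)} {x : List α} (p : List Bool) (s : HS β Γ ι κ X) :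
    Pg.Hv ncodeG bl (cT O x) s (10 * p.length + 4) ()
      {s with qt := s.qt ++ p.flatMap fun b => [true, b]} := by
  induction p generalizing s with
  | nil =>
    exact (hv_iter_done (K := fun _ : Unit => (guess (Option Bool)).bind ncodeB)
      (hv_bind (hv_guess none (ok_cT _)) (hv_ret _ (ok_cT _)))).cast rfl (by simp)
  | cons b p ih =>
    refine ((hv_iter_more (K := fun _ : Unit => (guess (Option Bool)).bind ncodeB)
      (hv_bind (hv_guess (some b) (ok_cT _))
        (hv_seq (hv_pushes [true, b] (ok_cT _)) (hv_ret _ (ok_cT _)))) (ih _)).mono ?_).cast rfl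
      (by simp)
    simp
    omega

theorem ncode_inv {bl : Γ} {O : Set (List Bool)} {x : List α} {s : HS β Γ ι κ X} {t e d'}
    (h : (ncodeG : HP α β Γ ι κ X Unit).Ev (cT O x) (s.dat bl) t e d') :
    ∃ p : List Bool, d' = HS.dat bl {s with qt := s.qt ++ p.flatMap fun b => [true, b]} := by
  refine iter_inv (fun _ d => ∃ p : List Bool,
    d = HS.dat bl {s with qt := s.qt ++ p.flatMap fun b => [true, b]}) ?_ ⟨[], by simp⟩ h
  rintro _ d t r d' ⟨p, rfl⟩ h1
  obtain ⟨g, d₁, t₁, t₂, h2, h3⟩ := bind_inv h1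
  rw [guess_inv h2] at h3
  cases g with
  | none => exact ⟨p, (Pg.Hv.only (det_ret _) (hv_ret _ (ok_cT _)) h3).2⟩
  | some b =>
    refine ⟨p ++ [b], ?_⟩
    rw [(Pg.Hv.only (det_seq (det_pushes _) (det_ret _))
      (hv_seq (hv_pushes [true, b] (ok_cT _)) (hv_ret _ (ok_cT _))) h3).2]
    simp

theorem ncode_cell (τ p w : List Bool) (m : ℕ) :
    cell τ m [] ++ (p.flatMap fun b => [true, b]) ++ false :: w = cell τ m (enc p ++ w) := by
  simp [cell, enc]

end guessing

theorem ncode {α : Type} [Finite α] {O : Set (List Bool)} {j e : ℕ} {idx : α → ℕ} {idy : Unit → ℕ}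
    {A : Set (List α)} (hj : 1 ≤ j) (hc : Coded O j e idx idy (ind A)) : NTIME O j A := by
  obtain ⟨prep, qw, c, dp, dq, h⟩ := qw_ex (X := Unit) Empty Unit Empty Empty j e hj idx ()
  obtain ⟨c', hc'⟩ := idx_bdd idx
  have h0 : (hs0 () : HS Empty Unit Empty (Fin j ⊕ Empty) Unit).pad () 0 = hs0 () := by
    simp only [HS.pad, hs0, HS.mk.injEq, true_and, and_true]
    constructor <;> (funext k; cases k <;> simp [lay_nil])
  refine ntime_of (prep.seq (qw.seq (ncodeG.seq ((pushes (false :: cod1 idy ())).seq ask))))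
    ((), none) (2 * c + 40 * (e + c' + 2) + 2 * idy () + 50) (fun x hx => ?_) fun x t d' hd => ?_
  · obtain ⟨p, hp, hO⟩ := hc x
    obtain ⟨h1, h2⟩ := h () O x (hs0 ()) rfl
    rw [h0] at h1
    have h3 := hv_seq h1 (hv_seq h2 (hv_seq (ncode_hv p _)
      (hv_seq (hv_pushes (false :: cod1 idy ()) (ok_cT _)) (hv_ask (ok_cT _)))))
    rw [← hs0_dat]
    refine ⟨_, (h3.mono ?_).cast ?_ rfl⟩
    · have h4 := code_len_le idx hc' x
      have h5 := tau_len e idx x
      have h6 : x.length + 1 ≤ (x.length + 1) ^ j := Nat.le_self_pow (by omega) _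
      have h7 : (false :: cod1 idy ()).length = idy () + 2 := by simp [cod1]
      rw [h7]
      generalize (x.length + 1) ^ j = N at h6 ⊢
      have h8 : c * (x.length + 1) ≤ c * N := Nat.mul_le_mul_left _ h6
      have h9 : (e + c' + 2) * (x.length + 1) ≤ (e + c' + 2) * N := Nat.mul_le_mul_left _ h6
      have h10 : (2 * idy () + 50) * 1 ≤ (2 * idy () + 50) * N := Nat.mul_le_mul_left _ (by omega)
      nlinarith [Nat.zero_le (e * x.length), Nat.zero_le x.length]
    · refine decide_eq_true ?_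
      show [] ++ cell _ _ [] ++ _ ++ _ ∈ O
      rw [List.nil_append, ncode_cell, hO, ind, if_pos hx]
      simp [code]
  · obtain ⟨p, -, hO⟩ := hc x
    obtain ⟨h1, h2⟩ := h () O x (hs0 ()) rfl
    rw [h0] at h1
    rw [← hs0_dat] at hd
    obtain ⟨_, d₁, _, _, k1, hd⟩ := bind_inv hd
    rw [(Pg.Hv.only dp h1 k1).2] at hd
    obtain ⟨_, d₂, _, _, k2, hd⟩ := bind_inv hd
    rw [(Pg.Hv.only dq h2 k2).2] at hd
    obtain ⟨_, d₃, _, _, k3, hd⟩ := bind_inv hd
    obtain ⟨p', rfl⟩ := ncode_inv k3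
    have h3 := (Pg.Hv.only (det_seq (det_pushes _) det_ask)
      (hv_seq (hv_pushes (false :: cod1 idy ()) (ok_cT _)) (hv_ask (ok_cT _))) hd).1
    have h4 : [] ++ cell _ _ [] ++ _ ++ _ ∈ O := of_decide_eq_true h3.symm
    rw [List.nil_append, ncode_cell, hO] at h4
    obtain ⟨z, hz⟩ := h4
    rw [List.append_assoc] at hz
    have h5 := (enc_app_inj hz).2
    by_contra hx
    rw [ind, if_neg hx, code_nil] at h5
    simp [cod1] at h5

end Pool.Agent.P.MP_d0c5d0_lc
end

-- part Pool.Agent.P.MP_d0c5d0_lc.QSys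
section

/-! A space bounded machine has few potential queries, whatever the oracle. -/

namespace Pool.Agent.P.MP_d0c5d0_lc

open Classical Function

variable {α β : Type}

/-- a finite set of words and a value that depends only on the oracle on these words -/
structure QS where
  Q : Finset (List Bool)
  a : Set (List Bool) → List Bool
  dep : ∀ O O' : Set (List Bool), (∀ w ∈ Q, w ∈ O ↔ w ∈ O') → a O = a O'

/-- the next query asked from a configuration -/
inductive QsysNq (M : TM α β) (x : List α) : M.Cfg → List Bool → Prop where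
  | ask {c : M.Cfg} {a : Eff β M.Γ M.ι × M.Q × M.Q} :
      a ∈ M.δ c.1 (inp x c.2.ih) c.2.rd → a.1.qo = Qop.ask → QsysNq M x c c.2.qt
  | step {c : M.Cfg} {a : Eff β M.Γ M.ι × M.Q × M.Q} {w : List Bool} :
      a ∈ M.δ c.1 (inp x c.2.ih) c.2.rd → a.1.qo ≠ Qop.ask →
      QsysNq M x (a.2.2, c.2.upd x.length a.1) w → QsysNq M x c w

variable {M : TM α β} {x : List α} {O O' : Set (List Bool)} {B : ℕ}

theorem qsys_out {c : M.Cfg} {w : List Bool} (h : QsysNq M x c w) (o : List β) :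
    QsysNq M x (c.1, { c.2 with out := o }) w := by
  induction h generalizing o with
  | @ask c a h1 h2 => exact QsysNq.ask (c := (c.1, { c.2 with out := o })) h1 h2
  | @step c a w h1 h2 _ ih =>
    exact QsysNq.step (c := (c.1, { c.2 with out := o })) h1 h2 (ih (o ++ a.1.out.toList))

theorem qsys_uniq (hM : M.Det) {c : M.Cfg} {w w' : List Bool} (h : QsysNq M x c w)
    (h' : QsysNq M x c w') : w = w' := by
  induction h with
  | ask h1 h2 =>
    cases h' with
    | ask _ _ => rfl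
    | step h3 h4 _ => exact absurd (hM _ _ _ h1 h3 ▸ h2) h4
  | step h1 h2 _ ih =>
    cases h' with
    | ask h3 h4 => exact absurd (hM _ _ _ h3 h1 ▸ h4) h2
    | step h3 _ h5 =>
      have := hM _ _ _ h1 h3
      subst this
      exact ih h5

theorem qsys_halt (hM : M.Det) {c c₁ c₂ : M.Cfg} {t t' : ℕ} (h : M.Run O x c t c₁)
    (h' : M.Run O x c t' c₂) (e₁ : M.δ c₁.1 (inp x c₁.2.ih) c₁.2.rd = ∅)
    (e₂ : M.δ c₂.1 (inp x c₂.2.ih) c₂.2.rd = ∅) : c₁ = c₂ := by
  induction h generalizing t' with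
  | nil c =>
    cases h' with
    | nil => rfl
    | cons h3 _ => obtain ⟨a, ha, -⟩ := h3; rw [e₁] at ha; exact absurd ha (Set.notMem_empty _)
  | cons h1 _ ih =>
    obtain ⟨a, ha, rfl⟩ := h1
    cases h' with
    | nil => rw [e₂] at ha; exact absurd ha (Set.notMem_empty _)
    | cons h3 h4 =>
      obtain ⟨b, hb, rfl⟩ := h3
      have := hM _ _ _ ha hb
      subst this
      exact ih h4 e₁

/-- the next query of a reachable configuration is the next query of a reachable configuration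
with empty query tape -/
theorem qsys_back {t : ℕ} {c : M.Cfg} (h : M.Run O x M.init t c) :
    ∃ t₀ c₀, M.Run O x M.init t₀ c₀ ∧ c₀.2.qt = [] ∧ ∀ w, QsysNq M x c w → QsysNq M x c₀ w := by
  induction t generalizing c with
  | zero =>
    rw [h.zero_inv]
    exact ⟨0, _, .nil _, rfl, fun _ h => h⟩
  | succ t ih =>
    obtain ⟨c₁, h1, a, ha, e⟩ := h.succ_inv
    by_cases hq : a.1.qo = Qop.ask
    · refine ⟨t + 1, c, h, ?_, fun _ h => h⟩
      rw [e]
      simp only [Dat.upd, hq]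
    · obtain ⟨t₀, c₀, h2, h3, h4⟩ := ih h1
      refine ⟨t₀, c₀, h2, h3, fun w hw => h4 w (QsysNq.step ha hq ?_)⟩
      rw [e, nxt, if_neg (fun h => hq h.1)] at hw
      exact hw

/-- the run with oracle `O` stays within `B` cells -/
def QsysSp (M : TM α β) (x : List α) (B : ℕ) (O : Set (List Bool)) : Prop :=
  ∀ t c, M.Run O x M.init t c → ∀ i, |c.2.hd i| ≤ (B : ℤ)

theorem qsys_blank (hs : QsysSp M x B O) {t : ℕ} {c : M.Cfg} (h : M.Run O x M.init t c)
    (i : M.ι) (z : ℤ) (hz : ¬ |z| ≤ (B : ℤ)) : c.2.tp i z = M.blank := by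
  induction t generalizing c with
  | zero => rw [h.zero_inv]; rfl
  | succ t ih =>
    obtain ⟨c₁, h1, a, -, rfl⟩ := h.succ_inv
    have hne : z ≠ c₁.2.hd i := fun e => hz (e ▸ hs _ _ h1 i)
    simp only [Dat.upd, Function.update_of_ne hne]
    exact ih h1

/-- parameters of small configurations -/
abbrev QsysPar (M : TM α β) (n B : ℕ) : Type :=
  M.Q × Fin (n + 2) × (M.ι → Finset.Icc (-(B : ℤ)) B → M.Γ) × (M.ι → Finset.Icc (-(B : ℤ)) B)

/-- the configuration with given parameters -/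
noncomputable def qsysCfg (M : TM α β) {n B : ℕ} (p : QsysPar M n B) : M.Cfg :=
  (p.1, ⟨p.2.1, fun i z => if h : z ∈ Finset.Icc (-(B : ℤ)) B then p.2.2.1 i ⟨z, h⟩ else M.blank,
    fun i => p.2.2.2 i, [], []⟩)

theorem qsys_par (hs : QsysSp M x B O) {t : ℕ} {c : M.Cfg} (h : M.Run O x M.init t c)
    (hq : c.2.qt = []) :
    ∃ p : QsysPar M x.length B, qsysCfg M p = (c.1, { c.2 with out := [] }) := by
  have h1 := h.ih_le (Nat.zero_le _)
  refine ⟨(c.1, ⟨c.2.ih, by omega⟩, fun i z => c.2.tp i z,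
    fun i => ⟨c.2.hd i, Finset.mem_Icc.2 (abs_le.1 (hs _ _ h i))⟩), ?_⟩
  simp only [qsysCfg, hq, Prod.mk.injEq, Dat.mk.injEq, true_and, and_true]
  funext i z
  split_ifs with hz
  · rfl
  · exact (qsys_blank hs h i z fun e => hz (Finset.mem_Icc.2 (abs_le.1 e))).symm

/-- the potential queries -/
noncomputable def qsysQ (M : TM α β) (x : List α) (B : ℕ) : Finset (List Bool) :=
  haveI := M.finQ
  haveI := M.finΓ
  haveI := M.finι
  (Set.toFinite (Set.range fun p : QsysPar M x.length B =>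
    Classical.epsilon (QsysNq M x (qsysCfg M p)))).toFinset

theorem qsys_mem (hM : M.Det) (hs : QsysSp M x B O) {t : ℕ} {c : M.Cfg}
    (h : M.Run O x M.init t c) {w : List Bool} (hw : QsysNq M x c w) : w ∈ qsysQ M x B := by
  obtain ⟨t₀, c₀, h1, h2, h3⟩ := qsys_back h
  obtain ⟨p, hp⟩ := qsys_par hs h1 h2
  have h4 : QsysNq M x (qsysCfg M p) w := hp ▸ qsys_out (h3 w hw) []
  rw [qsysQ, Set.Finite.mem_toFinset]
  exact ⟨p, qsys_uniq hM (Classical.epsilon_spec ⟨w, h4⟩) h4⟩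

theorem qsys_step (hM : M.Det) (hs : QsysSp M x B O)
    (hO : ∀ w ∈ qsysQ M x B, w ∈ O ↔ w ∈ O') {t : ℕ} {c : M.Cfg}
    (h : M.Run O x M.init t c) (c' : M.Cfg) : M.Step O x c c' ↔ M.Step O' x c c' := by
  refine exists_congr fun a => and_congr_right fun ha => ?_
  have : nxt O c.2 a = nxt O' c.2 a := by
    by_cases hq : a.1.qo = Qop.ask
    · simp only [nxt, hO _ (qsys_mem hM hs h (QsysNq.ask ha hq))]
    · simp only [nxt, hq, false_and, if_false]
  rw [this]

theorem qsys_run (hM : M.Det) (hs : QsysSp M x B O)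
    (hO : ∀ w ∈ qsysQ M x B, w ∈ O ↔ w ∈ O') (t : ℕ) (c : M.Cfg) :
    M.Run O x M.init t c ↔ M.Run O' x M.init t c := by
  induction t generalizing c with
  | zero => exact ⟨fun h => h.zero_inv ▸ .nil _, fun h => h.zero_inv ▸ .nil _⟩
  | succ t ih =>
    constructor
    · intro h
      obtain ⟨c₁, h1, h2⟩ := h.succ_inv
      exact ((ih c₁).1 h1).snoc ((qsys_step hM hs hO h1 c).1 h2)
    · intro h
      obtain ⟨c₁, h1, h2⟩ := h.succ_inv
      exact ((ih c₁).2 h1).snoc ((qsys_step hM hs hO ((ih c₁).2 h1) c).2 h2)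

theorem qsys_card (M : TM α β) (x : List α) (B : ℕ) : (qsysQ M x B).card ≤ (x.length + 2) *
    (Nat.card M.Q * (Nat.card M.Γ ^ 2) ^ Nat.card M.ι * 2 ^ Nat.card M.ι) ^ (B + 1) := by
  have := M.finQ
  have := M.finΓ
  have := M.finι
  have : Nonempty M.Q := ⟨M.start⟩
  have : Nonempty M.Γ := ⟨M.blank⟩
  have h1 : (qsysQ M x B).card ≤ Nat.card (QsysPar M x.length B) := by
    rw [qsysQ, ← Set.ncard_eq_toFinset_card _ (Set.toFinite _), ← Nat.card_coe_set_eq]
    exact Finite.card_range_le _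
  have h2 : Nat.card (Finset.Icc (-(B : ℤ)) B) = 2 * B + 1 := by
    rw [Nat.card_eq_fintype_card, Fintype.card_coe, Int.card_Icc]
    omega
  refine h1.trans ?_
  rw [Nat.card_prod, Nat.card_prod, Nat.card_prod, Nat.card_fun, Nat.card_fun, Nat.card_fun, h2,
    Nat.card_eq_fintype_card (α := Fin _), Fintype.card_fin]
  have q1 : 1 ≤ Nat.card M.Q := Nat.card_pos
  have g1 : 1 ≤ Nat.card M.Γ := Nat.card_pos
  generalize Nat.card M.Q = q at q1
  generalize Nat.card M.Γ = g at g1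
  generalize Nat.card M.ι = i
  have a1 : q ≤ q ^ (B + 1) := Nat.le_self_pow (by omega) _
  have a2 : (g ^ (2 * B + 1)) ^ i ≤ ((g ^ 2) ^ i) ^ (B + 1) := by
    rw [← pow_mul, ← pow_mul, ← pow_mul]
    exact Nat.pow_le_pow_right g1 (by nlinarith)
  have a3 : (2 * B + 1) ^ i ≤ (2 ^ i) ^ (B + 1) := by
    rw [← pow_mul, mul_comm i, pow_mul]
    refine Nat.pow_le_pow_left ?_ _
    have := Nat.lt_two_pow_self (n := B)
    rw [pow_succ]
    omega
  rw [mul_pow, mul_pow, mul_left_comm, mul_assoc]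
  exact Nat.mul_le_mul_left _ (Nat.mul_le_mul a1 (Nat.mul_le_mul a2 a3))

/-- the value read off a halting relation -/
noncomputable def qsysVal (M : TM α β) (g : List β → List Bool) (R : ℕ → M.Cfg → Prop) :
    List Bool :=
  if h : ∃ p : ℕ × M.Cfg, R p.1 p.2 then g h.choose.2.2.out else []

theorem qsys_dep (hM : M.Det) (hs : QsysSp M x B O)
    (hO : ∀ w ∈ qsysQ M x B, w ∈ O ↔ w ∈ O') : QsysSp M x B O' ∧ M.Ends O x = M.Ends O' x := by
  refine ⟨fun t c h => hs t c ((qsys_run hM hs hO t c).2 h), ?_⟩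
  funext t c
  simp only [TM.Ends, qsys_run hM hs hO t c]

theorem qs_ex (M : TM α β) (hM : M.Det) (g : List β → List Bool) :
    ∃ K : ℕ, ∀ (x : List α) (B : ℕ), ∃ S : QS, S.Q.card ≤ (x.length + 2) * K ^ (B + 1) ∧
      ∀ O, (∀ t c, M.Run O x M.init t c → ∀ i, |c.2.hd i| ≤ (B : ℤ)) →
        ∀ t c, M.Ends O x t c → S.a O = g c.2.out := by
  refine ⟨_, fun x B => ⟨⟨qsysQ M x B,
    fun O => if QsysSp M x B O then qsysVal M g (M.Ends O x) else [], fun O O' hO => ?_⟩,
    qsys_card M x B, fun O hs t c h => ?_⟩⟩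
  · by_cases hs : QsysSp M x B O
    · obtain ⟨h1, h2⟩ := qsys_dep hM hs hO
      rw [if_pos hs, if_pos h1, h2]
    · have hs' : ¬ QsysSp M x B O' := fun h =>
        hs (qsys_dep hM h fun w hw => (hO w hw).symm).1
      rw [if_neg hs, if_neg hs']
  · have h1 : ∃ p : ℕ × M.Cfg, M.Ends O x p.1 p.2 := ⟨(t, c), h⟩
    have h2 := h1.choose_spec
    dsimp only
    rw [if_pos (show QsysSp M x B O from hs), qsysVal, dif_pos h1,
      qsys_halt hM h2.1 h.1 h2.2 h.2]

end Pool.Agent.P.MP_d0c5d0_lc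
end

-- part Pool.Agent.P.MP_d0c5d0_lc.Trans
section

/-! Standard copies of machines: there are countably many behaviours. -/

namespace Pool.Agent.P.MP_d0c5d0_lc

open Classical Function

variable {α β α' β' : Type}

/-- machines with standard finite types -/
def Std (α β : Type) : Type :=
  Σ n : ℕ × ℕ × ℕ, Fin n.1 × Fin n.2.1 × Set (Fin n.1) ×
    (Fin n.1 → In α → (Fin n.2.2 → Fin n.2.1) →
      Set (Eff β (Fin n.2.1) (Fin n.2.2) × Fin n.1 × Fin n.1))

def Std.tm (S : Std α β) : TM α β :=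
  ⟨Fin S.1.1, Fin S.1.2.1, Fin S.1.2.2, inferInstance, inferInstance, inferInstance,
    S.2.1, S.2.2.1, S.2.2.2.1, S.2.2.2.2⟩

theorem trans_fin_in [Finite α] : Finite (In α) := by
  refine Finite.of_surjective (fun o : Bool ⊕ α =>
    Sum.elim (fun b => if b then In.lend else In.rend) In.sym o) fun i => ?_
  cases i with
  | lend => exact ⟨Sum.inl true, rfl⟩
  | rend => exact ⟨Sum.inl false, rfl⟩
  | sym a => exact ⟨Sum.inr a, rfl⟩

theorem trans_fin_qop : Finite Qop := by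
  refine Finite.of_surjective (fun o : Bool ⊕ Bool =>
    Sum.elim (fun b => if b then Qop.no else Qop.ask) Qop.push o) fun i => ?_
  cases i with
  | no => exact ⟨Sum.inl true, rfl⟩
  | ask => exact ⟨Sum.inl false, rfl⟩
  | push a => exact ⟨Sum.inr a, rfl⟩

theorem trans_fin_eff {Γ ι : Type} [Finite β] [Finite Γ] [Finite ι] : Finite (Eff β Γ ι) := by
  have := trans_fin_qop
  exact Finite.of_surjective
    (fun o : (ι → Γ) × (ι → SignType) × SignType × Option β × Qop =>
      (⟨o.1, o.2.1, o.2.2.1, o.2.2.2.1, o.2.2.2.2⟩ : Eff β Γ ι))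
    fun e => ⟨(e.wr, e.mv, e.im, e.out, e.qo), rfl⟩

theorem std_countable [Finite α] [Finite β] : Countable (Std α β) := by
  have : Finite (In α) := trans_fin_in
  have : ∀ a b : ℕ, Finite (Eff β (Fin a) (Fin b)) := fun _ _ => trans_fin_eff
  have h : ∀ n : ℕ × ℕ × ℕ, Countable (Fin n.1 × Fin n.2.1 × Set (Fin n.1) ×
    (Fin n.1 → In α → (Fin n.2.2 → Fin n.2.1) →
      Set (Eff β (Fin n.2.1) (Fin n.2.2) × Fin n.1 × Fin n.1))) := fun n => Finite.to_countable
  exact @instCountableSigma _ _ _ h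

theorem trans_pre {A B : Type} (e : A ≃ B) (s : Set A) (r : A) : e r ∈ e.symm ⁻¹' s ↔ r ∈ s := by
  rw [Set.mem_preimage, Equiv.symm_apply_apply]

/-- transport of input symbols -/
def trans_in (e : α → α') : In α → In α'
  | In.lend => In.lend
  | In.rend => In.rend
  | In.sym a => In.sym (e a)

theorem trans_inp (e : α ≃ α') (x : List α) (h : ℕ) :
    trans_in e.symm (inp (x.map e) h) = inp x h := by
  unfold inp
  split_ifs
  · rfl
  · rw [List.getElem?_map]
    cases x[h - 1]? with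
    | none => rfl
    | some a => simp [trans_in]

/-- transport of effects -/
def trans_eff {Γ Γ' ι ι' : Type} (eβ : β ≃ β') (eΓ : Γ ≃ Γ') (eι : ι ≃ ι') :
    Eff β Γ ι ≃ Eff β' Γ' ι' where
  toFun e := ⟨fun i => eΓ (e.wr (eι.symm i)), fun i => e.mv (eι.symm i), e.im, e.out.map eβ, e.qo⟩
  invFun e := ⟨fun i => eΓ.symm (e.wr (eι i)), fun i => e.mv (eι i), e.im, e.out.map eβ.symm, e.qo⟩
  left_inv e := by
    cases e
    simp [Option.map_map]
  right_inv e := by
    cases e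
    simp [Option.map_map]

/-- transport of tapes -/
def trans_dat {Γ Γ' ι ι' : Type} (eβ : β ≃ β') (eΓ : Γ ≃ Γ') (eι : ι ≃ ι') :
    Dat β Γ ι ≃ Dat β' Γ' ι' where
  toFun d := ⟨d.ih, fun i z => eΓ (d.tp (eι.symm i) z), fun i => d.hd (eι.symm i), d.out.map eβ, d.qt⟩
  invFun d := ⟨d.ih, fun i z => eΓ.symm (d.tp (eι i) z), fun i => d.hd (eι i), d.out.map eβ.symm, d.qt⟩
  left_inv d := by
    cases d
    simp [List.map_map]
  right_inv d := by
    cases d
    simp [List.map_map]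

theorem trans_upd {Γ Γ' ι ι' : Type} (eβ : β ≃ β') (eΓ : Γ ≃ Γ') (eι : ι ≃ ι') (n : ℕ)
    (d : Dat β Γ ι) (e : Eff β Γ ι) :
    trans_dat eβ eΓ eι (d.upd n e) = (trans_dat eβ eΓ eι d).upd n (trans_eff eβ eΓ eι e) := by
  show Dat.mk _ _ _ _ _ = Dat.mk _ _ _ _ _
  congr 1
  · funext i z
    show eΓ (Function.update (d.tp (eι.symm i)) (d.hd (eι.symm i)) (e.wr (eι.symm i)) z) =
      Function.update (fun z => eΓ (d.tp (eι.symm i) z)) (d.hd (eι.symm i))
        (eΓ (e.wr (eι.symm i))) z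
    simp only [Function.update_apply]
    split_ifs <;> rfl
  · show (d.out ++ e.out.toList).map eβ = d.out.map eβ ++ (e.out.map eβ).toList
    rw [List.map_append]
    cases e.out <;> rfl

/-- the standard copy -/
def trans_std (M : TM α β) (eα : α ≃ α') (eβ : β ≃ β') {a b c : ℕ} (eQ : M.Q ≃ Fin a)
    (eΓ : M.Γ ≃ Fin b) (eι : M.ι ≃ Fin c) : Std α' β' :=
  ⟨(a, b, c), eQ M.start, eΓ M.blank, eQ.symm ⁻¹' M.acc, fun q i g =>
    ((trans_eff eβ eΓ eι).prodCongr (eQ.prodCongr eQ)).symm ⁻¹'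
      M.δ (eQ.symm q) (trans_in eα.symm i) fun j => eΓ.symm (g (eι j))⟩

theorem trans_del (M : TM α β) (eα : α ≃ α') (eβ : β ≃ β') {a b c : ℕ} (eQ : M.Q ≃ Fin a)
    (eΓ : M.Γ ≃ Fin b) (eι : M.ι ≃ Fin c) (x : List α) (q : M.Q) (d : Dat β M.Γ M.ι) :
    (trans_std M eα eβ eQ eΓ eι).tm.δ (eQ q) (inp (x.map eα) (trans_dat eβ eΓ eι d).ih)
      (trans_dat eβ eΓ eι d).rd =
    ((trans_eff eβ eΓ eι).prodCongr (eQ.prodCongr eQ)).symm ⁻¹' M.δ q (inp x d.ih) d.rd := by
  show ((trans_eff eβ eΓ eι).prodCongr (eQ.prodCongr eQ)).symm ⁻¹'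
      M.δ (eQ.symm (eQ q)) (trans_in eα.symm (inp (x.map eα) d.ih))
        (fun j => eΓ.symm (eΓ (d.tp (eι.symm (eι j)) (d.hd (eι.symm (eι j)))))) = _
  simp only [Equiv.symm_apply_apply, trans_inp]
  rfl

theorem trans_nxt {Γ Γ' ι ι' Q Q' : Type} (eβ : β ≃ β') (eΓ : Γ ≃ Γ') (eι : ι ≃ ι') (eQ : Q ≃ Q')
    (O : Set (List Bool)) (d : Dat β Γ ι) (a : Eff β Γ ι × Q × Q) :
    nxt O (trans_dat eβ eΓ eι d) ((trans_eff eβ eΓ eι).prodCongr (eQ.prodCongr eQ) a) =
      eQ (nxt O d a) := by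
  show (if a.1.qo = Qop.ask ∧ d.qt ∈ O then eQ a.2.1 else eQ a.2.2) =
    eQ (if a.1.qo = Qop.ask ∧ d.qt ∈ O then a.2.1 else a.2.2)
  split_ifs <;> rfl

theorem trans_step (M : TM α β) (eα : α ≃ α') (eβ : β ≃ β') {a b c : ℕ} (eQ : M.Q ≃ Fin a)
    (eΓ : M.Γ ≃ Fin b) (eι : M.ι ≃ Fin c) (O : Set (List Bool)) (x : List α) (u v : M.Cfg) :
    M.Step O x u v ↔ (trans_std M eα eβ eQ eΓ eι).tm.Step O (x.map eα)
      (eQ.prodCongr (trans_dat eβ eΓ eι) u) (eQ.prodCongr (trans_dat eβ eΓ eι) v) := by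
  have key : ∀ r : Eff β M.Γ M.ι × M.Q × M.Q,
      eQ.prodCongr (trans_dat eβ eΓ eι) (nxt O u.2 r, u.2.upd x.length r.1) =
        (nxt O (trans_dat eβ eΓ eι u.2) ((trans_eff eβ eΓ eι).prodCongr (eQ.prodCongr eQ) r),
          (trans_dat eβ eΓ eι u.2).upd (x.map eα).length
            ((trans_eff eβ eΓ eι).prodCongr (eQ.prodCongr eQ) r).1) := fun r => by
    rw [trans_nxt, List.length_map]
    exact Prod.ext rfl (trans_upd eβ eΓ eι _ _ _)
  have hd := trans_del M eα eβ eQ eΓ eι x u.1 u.2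
  constructor
  · rintro ⟨r, hr, rfl⟩
    refine ⟨(trans_eff eβ eΓ eι).prodCongr (eQ.prodCongr eQ) r, ?_, key r⟩
    exact hd.ge ((trans_pre _ _ _).2 hr)
  · rintro ⟨r', hr, h⟩
    obtain ⟨r, rfl⟩ := ((trans_eff eβ eΓ eι).prodCongr (eQ.prodCongr eQ)).surjective r'
    have hr' := (trans_pre _ _ _).1 (hd.le hr)
    exact ⟨r, hr', (eQ.prodCongr (trans_dat eβ eΓ eι)).injective (h.trans (key r).symm)⟩

theorem trans_run {M : TM α β} {N : TM α' β'} (φ : M.Cfg ≃ N.Cfg) {O : Set (List Bool)}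
    {x : List α} {y : List α'} (h : ∀ u v, M.Step O x u v → N.Step O y (φ u) (φ v))
    {c c' : M.Cfg} {t : ℕ} (r : M.Run O x c t c') : N.Run O y (φ c) t (φ c') := by
  induction r with
  | nil c => exact TM.Run.nil _
  | cons s _ ih => exact TM.Run.cons (h _ _ s) ih

theorem trans_ex (M : TM α β) (eα : α ≃ α') (eβ : β ≃ β') :
    ∃ (S : Std α' β') (φ : M.Cfg ≃ S.tm.Cfg), (M.Det → S.tm.Det) ∧ φ M.init = S.tm.init ∧
      (∀ O x c t c', M.Run O x c t c' ↔ S.tm.Run O (x.map eα) (φ c) t (φ c')) ∧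
      (∀ O x t c, M.Ends O x t c ↔ S.tm.Ends O (x.map eα) t (φ c)) ∧
      (∀ c, c.1 ∈ M.acc ↔ (φ c).1 ∈ S.tm.acc) ∧ (∀ c, (φ c).2.out = c.2.out.map eβ) ∧
      ∀ c (B : ℤ), (∀ i, |c.2.hd i| ≤ B) ↔ ∀ i, |(φ c).2.hd i| ≤ B := by
  have := M.finQ
  have := M.finΓ
  have := M.finι
  obtain ⟨a, ⟨eQ⟩⟩ := Finite.exists_equiv_fin M.Q
  obtain ⟨b, ⟨eΓ⟩⟩ := Finite.exists_equiv_fin M.Γ
  obtain ⟨c, ⟨eι⟩⟩ := Finite.exists_equiv_fin M.ι
  let φ : M.Cfg ≃ (trans_std M eα eβ eQ eΓ eι).tm.Cfg := eQ.prodCongr (trans_dat eβ eΓ eι)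
  have hi : φ M.init = (trans_std M eα eβ eQ eΓ eι).tm.init := rfl
  have hr : ∀ O x u t v, M.Run O x u t v ↔
      (trans_std M eα eβ eQ eΓ eι).tm.Run O (x.map eα) (φ u) t (φ v) := fun O x u t v => by
    refine ⟨trans_run φ fun u v => (trans_step M eα eβ eQ eΓ eι O x u v).1, fun h => ?_⟩
    have h1 := trans_run (N := M) (y := x) φ.symm (fun u' v' hs => by
      refine (trans_step M eα eβ eQ eΓ eι O x _ _).2 ?_
      show (trans_std M eα eβ eQ eΓ eι).tm.Step O (x.map eα) (φ (φ.symm u')) (φ (φ.symm v'))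
      rwa [φ.apply_symm_apply, φ.apply_symm_apply]) h
    rwa [φ.symm_apply_apply, φ.symm_apply_apply] at h1
  refine ⟨trans_std M eα eβ eQ eΓ eι, φ, fun hM q i g => ?_, hi, hr, fun O x t u => ?_,
    fun u => ?_, fun u => rfl, fun u B => ⟨fun h i => h (eι.symm i), fun h i => ?_⟩⟩
  · exact (hM _ _ _).preimage (Equiv.injective _)
  · refine and_congr (hi ▸ hr O x _ t u) ?_
    have hd := trans_del M eα eβ eQ eΓ eι x u.1 u.2
    constructor
    · intro h
      refine hd.trans ?_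
      rw [h]
      rfl
    · intro h
      have h2 := hd.symm.trans h
      refine Set.eq_empty_of_forall_notMem fun r hr => ?_
      exact h2.le ((trans_pre _ _ _).2 hr)
  · show u.1 ∈ M.acc ↔ eQ.symm (eQ u.1) ∈ M.acc
    rw [Equiv.symm_apply_apply]
  · have h1 : |u.2.hd (eι.symm (eι i))| ≤ B := h (eι i)
    rwa [Equiv.symm_apply_apply] at h1

theorem enum_ex : ∃ fam : ℕ → TM Bool Empty, ∀ M : TM Bool Empty, ∃ e, (M.Det → (fam e).Det) ∧
    ∀ O x t (b : Prop), (∃ c, M.Ends O x t c ∧ (c.1 ∈ M.acc ↔ b)) ↔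
      ∃ c, (fam e).Ends O x t c ∧ (c.1 ∈ (fam e).acc ↔ b) := by
  have : Countable (Std Bool Empty) := std_countable
  have : Nonempty (Std Bool Empty) :=
    ⟨⟨(1, 1, 0), (0 : Fin 1), (0 : Fin 1), ∅, fun _ _ _ => ∅⟩⟩
  obtain ⟨f, hf⟩ := exists_surjective_nat (Std Bool Empty)
  refine ⟨fun e => (f e).tm, fun M => ?_⟩
  obtain ⟨S, φ, h1, -, -, h2, h3, -⟩ := trans_ex M (Equiv.refl Bool) (Equiv.refl Empty)
  obtain ⟨e, rfl⟩ := hf S
  refine ⟨e, h1, fun O x t b => ?_⟩
  have h4 : ∀ c, M.Ends O x t c ↔ (f e).tm.Ends O x t (φ c) := fun c => by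
    have h := h2 O x t c
    rwa [Equiv.coe_refl, List.map_id] at h
  constructor
  · rintro ⟨c, hc, hb⟩
    exact ⟨φ c, (h4 c).1 hc, (h3 c).symm.trans hb⟩
  · rintro ⟨c', hc, hb⟩
    obtain ⟨c, rfl⟩ := φ.surjective c'
    exact ⟨c, (h4 c).2 hc, (h3 c).trans hb⟩

end Pool.Agent.P.MP_d0c5d0_lc
end

-- part Pool.Agent.P.MP_d0c5d0_lc.Univ
section

/-! One query system for all logarithmic space transducers. -/

namespace Pool.Agent.P.MP_d0c5d0_lc

open Classical Function

theorem univ_cube (L : ℕ) : (L + 1) ^ 3 ≤ 27 * 2 ^ L := by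
  have h1 : L / 3 < 2 ^ (L / 3) := Nat.lt_two_pow_self
  have h2 : L + 1 ≤ 3 * 2 ^ (L / 3) := by omega
  calc (L + 1) ^ 3 ≤ (3 * 2 ^ (L / 3)) ^ 3 := Nat.pow_le_pow_left h2 3
    _ = 27 * 2 ^ (L / 3 * 3) := by rw [mul_pow, ← pow_mul]; norm_num
    _ ≤ 27 * 2 ^ L := Nat.mul_le_mul_left _ (Nat.pow_le_pow_right two_pos (by omega))

theorem univ_num (K s : ℕ) : ∃ m, ∀ n, (n + 2) * K ^ (s * (Nat.log 2 (n + 1) + 1) + 1) ≤
    2 ^ Nat.sqrt (m + n) := by
  set c := 1 + K * (s + 1) with hc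
  refine ⟨c ^ 2 * (27 * c ^ 2) ^ 2 + 1, fun n => ?_⟩
  set L := Nat.log 2 (n + 1)
  have h1 : n + 1 < 2 ^ (L + 1) := Nat.lt_pow_succ_log_self one_lt_two _
  have h2 : 2 ^ L ≤ n + 1 := Nat.pow_log_le_self 2 (by omega)
  have h3 : K ≤ 2 ^ K := Nat.lt_two_pow_self.le
  have h4 : c * (L + 1) ≤ Nat.sqrt (c ^ 2 * (27 * c ^ 2) ^ 2 + 1 + n) := by
    rw [Nat.le_sqrt', mul_pow]
    rcases le_total (L + 1) (27 * c ^ 2) with h | h
    · have : c ^ 2 * (L + 1) ^ 2 ≤ c ^ 2 * (27 * c ^ 2) ^ 2 := by gcongr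
      omega
    · have h5 := univ_cube L
      have h6 : 27 * c ^ 2 * (L + 1) ^ 2 ≤ (L + 1) * (L + 1) ^ 2 := by gcongr
      have h7 : 27 * (c ^ 2 * (L + 1) ^ 2) ≤ 27 * 2 ^ L := by
        refine le_trans (le_of_eq (by ring)) (h6.trans (le_trans (le_of_eq (by ring)) h5))
      omega
  calc (n + 2) * K ^ (s * (L + 1) + 1) ≤ 2 ^ (L + 1) * (2 ^ K) ^ (s * (L + 1) + 1) := by
        gcongr
        omega
    _ = 2 ^ (L + 1 + K * (s * (L + 1) + 1)) := by rw [← pow_mul, ← pow_add]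
    _ ≤ 2 ^ (c * (L + 1)) := Nat.pow_le_pow_right two_pos (by rw [hc]; nlinarith)
    _ ≤ _ := Nat.pow_le_pow_right two_pos h4

/-- the empty system -/
def univ_empty : QS := ⟨∅, fun _ => [], fun _ _ _ => rfl⟩

theorem univ_qs {α β : Type} (M : TM α β) (g : List β → List Bool) (s : ℕ) :
    ∃ S : List α → QS, M.Det → ∃ m, ∀ x, (S x).Q.card ≤ 2 ^ Nat.sqrt (m + x.length) ∧
      ∀ O, (∀ t c, M.Run O x M.init t c → ∀ i,
        |c.2.hd i| ≤ ((s * (Nat.log 2 (x.length + 1) + 1) : ℕ) : ℤ)) →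
        ∀ t c, M.Ends O x t c → (S x).a O = g c.2.out := by
  by_cases hM : M.Det
  · obtain ⟨K, hK⟩ := qs_ex M hM g
    choose S h1 h2 using hK
    obtain ⟨m, hm⟩ := univ_num K s
    exact ⟨fun x => S x (s * (Nat.log 2 (x.length + 1) + 1)), fun _ =>
      ⟨m, fun x => ⟨(h1 x _).trans (hm _), h2 x _⟩⟩⟩
  · exact ⟨fun _ => univ_empty, fun h => absurd h hM⟩

theorem univ_code {α γ : Type} (i : γ → ℕ) (e : α → γ) (x : List α) :
    code (fun a => i (e a)) x = code i (x.map e) := by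
  induction x with
  | nil => rfl
  | cons a x ih => rw [List.map_cons, code_cons, code_cons, ih]

theorem univ_sys : ∃ sys : List Bool → QS, (∀ τ, (sys τ).Q.card ≤ 2 ^ Nat.sqrt τ.length) ∧
    ∀ (α β : Type) [Finite α] [Finite β] (O : Set (List Bool)) (f : List α → List β), LogFun O f →
      ∃ (e : ℕ) (idx : α → ℕ) (idy : β → ℕ), Injective idy ∧
        ∀ x, (sys (tau e idx x)).a O = code idy (f x) := by
  have hc : ∀ a b : ℕ, Countable (Std (Fin a) (Fin b)) := fun _ _ => std_countable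
  have hn : Nonempty (Σ p : ℕ × ℕ, Std (Fin p.1) (Fin p.2) × ℕ) :=
    ⟨⟨(0, 0), ⟨(1, 1, 0), 0, 0, ∅, fun _ _ _ => ∅⟩, 0⟩⟩
  obtain ⟨dec, hdec⟩ := exists_surjective_nat (Σ p : ℕ × ℕ, Std (Fin p.1) (Fin p.2) × ℕ)
  choose sy hsy using fun D : (Σ p : ℕ × ℕ, Std (Fin p.1) (Fin p.2) × ℕ) =>
    univ_qs D.2.1.tm (code Fin.val) D.2.2
  let R : List Bool → QS → Prop := fun τ S => ∃ (e : ℕ) (x : List (Fin (dec e.unpair.1).1.1)),
    τ = tau e Fin.val x ∧ S = sy (dec e.unpair.1) x
  have hR : ∀ τ S S', R τ S → R τ S' → S = S' := by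
    rintro τ S S' ⟨e, x, h1, rfl⟩ ⟨e', x', h2, rfl⟩
    obtain ⟨rfl, h3⟩ := rep_inj (h1.symm.trans h2)
    rw [code_inj Fin.val_injective h3]
  have hs : ∀ τ, ∃ S : QS, S.Q.card ≤ 2 ^ Nat.sqrt τ.length ∧
      ∀ S', R τ S' → S'.Q.card ≤ 2 ^ Nat.sqrt τ.length → S = S' := by
    intro τ
    by_cases h : ∃ S, R τ S ∧ S.Q.card ≤ 2 ^ Nat.sqrt τ.length
    · obtain ⟨S, h1, h2⟩ := h
      exact ⟨S, h2, fun S' h3 _ => hR τ S S' h1 h3⟩
    · exact ⟨univ_empty, Nat.zero_le _, fun S' h1 h2 => absurd ⟨S', h1, h2⟩ h⟩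
  choose sys h1 h2 using hs
  refine ⟨sys, h1, fun α β _ _ O f ⟨M, hM, ⟨s, hs⟩, hf⟩ => ?_⟩
  obtain ⟨a, ⟨eα⟩⟩ := Finite.exists_equiv_fin α
  obtain ⟨b, ⟨eβ⟩⟩ := Finite.exists_equiv_fin β
  obtain ⟨S, φ, t1, t2, t3, t4, -, t6, t7⟩ := trans_ex M eα eβ
  obtain ⟨e0, he⟩ := hdec ⟨(a, b), S, s⟩
  obtain ⟨m, hm⟩ := hsy ⟨(a, b), S, s⟩ (t1 hM)
  refine ⟨Nat.pair e0 m, fun u => (eα u).val, fun u => (eβ u).val,
    Fin.val_injective.comp eβ.injective, fun x => ?_⟩
  have e1 : tau (Nat.pair e0 m) (fun u => (eα u).val) x = tau (Nat.pair e0 m) Fin.val (x.map eα) := by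
    rw [tau, tau, univ_code]
  have e2 : R (tau (Nat.pair e0 m) Fin.val (x.map eα)) (sy ⟨(a, b), S, s⟩ (x.map eα)) := by
    have : ∀ (D : Σ p : ℕ × ℕ, Std (Fin p.1) (Fin p.2) × ℕ) (y : List (Fin D.1.1)),
        dec (Nat.pair e0 m).unpair.1 = D → R (tau (Nat.pair e0 m) Fin.val y) (sy D y) := by
      rintro D y rfl
      exact ⟨_, y, rfl, rfl⟩
    exact this ⟨(a, b), S, s⟩ _ (by rw [Nat.unpair_pair, he])
  obtain ⟨m1, m2⟩ := hm (x.map eα)
  obtain ⟨t, c, hc1, hc2⟩ := hf x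
  have l1 : m + (x.map eα).length ≤ (tau (Nat.pair e0 m) Fin.val (x.map eα)).length := by
    have := code_len_ge Fin.val (x.map eα)
    have := Nat.right_le_pair e0 m
    rw [tau_len]
    omega
  have l2 := m2 O (fun t' c' hr => by
    obtain ⟨c'', rfl⟩ := φ.surjective c'
    rw [List.length_map]
    refine (t7 c'' _).1 (hs x t' c'' ((t3 O x _ t' c'').2 ?_))
    rwa [t2]) t (φ c) ((t4 O x t c).1 hc1)
  rw [e1, h2 _ _ e2 (m1.trans (Nat.pow_le_pow_right two_pos (Nat.sqrt_le_sqrt l1))), l2, t6, hc2]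
  exact (univ_code Fin.val eβ (f x)).symm

end Pool.Agent.P.MP_d0c5d0_lc
end

-- part Pool.Agent.P.MP_d0c5d0_lc.Orc
section

/-! The oracle built from passwords and free bits. -/

namespace Pool.Agent.P.MP_d0c5d0_lc

open Classical Function

/-- parameters: query system, padding, truncation of the stored value -/
structure Par where
  sys : List Bool → QS
  small : ∀ τ, (sys τ).Q.card ≤ 2 ^ Nat.sqrt τ.length
  g : ℕ → ℕ
  tr : List Bool → List Bool

/-- a world: the password of each name and the bit of each free cell -/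
abbrev World := List Bool → List Bool × Bool

variable (R : Par)

/-- admissible passwords for the name `τ` -/
def Par.Adm (τ p : List Bool) : Prop :=
  p.length = 4 * τ.length + 3 ∧
    ∀ τ' : List Bool, τ'.length ≤ τ.length → ∀ m u, cell τ m u ∈ (R.sys τ').Q → ¬ enc p <+: u

def Par.AdmW (ω : World) : Prop := ∀ τ, R.Adm τ (ω τ).1

/-- the oracle for given stored values `a` -/
def Par.orc (ω : World) (a : List Bool → List Bool) : Set (List Bool) :=
  {w | (w.head? = some false ∧ (ω w).2 = true) ∨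
    ∃ τ m u, w = cell τ m u ∧ R.g τ.length ≤ m ∧ u <+: enc (ω τ).1 ++ R.tr (a τ)}

/-- stored values of names of length below `n` -/
noncomputable def Par.ansN (ω : World) (n : ℕ) : List Bool → List Bool :=
  Nat.rec (fun _ => []) (fun _ a τ => (R.sys τ).a (R.orc ω a)) n

/-- stored values -/
noncomputable def Par.ans (ω : World) (τ : List Bool) : List Bool := R.ansN ω (τ.length + 1) τ

/-- the oracle of a world -/
def Par.O (ω : World) : Set (List Bool) := R.orc ω (R.ans ω)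

/-- two worlds agree up to length `N` -/
def Near (N : ℕ) (ω ω' : World) : Prop := ∀ w : List Bool, w.length ≤ N → ω w = ω' w

/-- all potential queries of names of length below `m` -/
noncomputable def Par.Z (m : ℕ) : Finset (List Bool) :=
  (List.finite_length_lt Bool m).toFinset.biUnion fun τ => (R.sys τ).Q

variable {R} {ω ω' : World}

theorem pre_app_iff {u e z : List Bool} (h : ¬ e <+: u) : u <+: e ++ z ↔ u <+: e :=
  ⟨fun h1 => (List.prefix_or_prefix_of_prefix h1 (List.prefix_append e z)).resolve_right h,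
    fun h1 => h1.trans (List.prefix_append e z)⟩

theorem mem_orc_cell {a τ m u} :
    cell τ m u ∈ R.orc ω a ↔ R.g τ.length ≤ m ∧ u <+: enc (ω τ).1 ++ R.tr (a τ) := by
  constructor
  · rintro (⟨h, -⟩ | ⟨τ', m', u', h, h1⟩)
    · simp [cell] at h
    · obtain ⟨rfl, rfl, rfl⟩ := cell_inj h; exact h1
  · exact fun h => Or.inr ⟨τ, m, u, rfl, h⟩

theorem mem_orc_free {a w} (h : w.head? = some false) : w ∈ R.orc ω a ↔ (ω w).2 = true := by
  constructor
  · rintro (⟨-, h⟩ | ⟨τ', m', u', rfl, -⟩)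
    · exact h
    · simp [cell] at h
  · exact fun h1 => Or.inl ⟨h, h1⟩

/-- comparison of two oracles at one word -/
theorem orc_agree {a a' w} (h1 : w.head? = some false → (ω w).2 = (ω' w).2)
    (h2 : ∀ τ m u, w = cell τ m u → R.g τ.length ≤ m →
      (u <+: enc (ω τ).1 ++ R.tr (a τ) ↔ u <+: enc (ω' τ).1 ++ R.tr (a' τ))) :
    w ∈ R.orc ω a ↔ w ∈ R.orc ω' a' := by
  refine or_congr (and_congr_right fun h => by rw [h1 h]) ?_
  refine exists_congr fun τ => exists_congr fun m => exists_congr fun u => ?_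
  exact and_congr_right fun h => and_congr_right fun h' => h2 τ m u h h'

theorem step_congr (hω : R.AdmW ω) {a a' τ} (h : ∀ τ' : List Bool, τ'.length < τ.length → a τ' = a' τ') :
    (R.sys τ).a (R.orc ω a) = (R.sys τ).a (R.orc ω a') := by
  refine (R.sys τ).dep _ _ fun w hw => orc_agree (fun _ => rfl) ?_
  rintro τ' m u rfl -
  by_cases hl : τ'.length < τ.length
  · rw [h τ' hl]
  · have := (hω τ').2 τ (by omega) m u hw
    rw [pre_app_iff this, pre_app_iff this]

theorem ansN_stab (hω : R.AdmW ω) {n n' : ℕ} {τ : List Bool} (h : τ.length < n) (h' : τ.length < n') :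
    R.ansN ω n τ = R.ansN ω n' τ := by
  induction n generalizing n' τ with
  | zero => omega
  | succ n ih =>
    obtain ⟨n', rfl⟩ : ∃ k, n' = k + 1 := ⟨n' - 1, by omega⟩
    exact step_congr hω fun τ' h1 => ih (by omega) (by omega)

/-- the stored value is the value of the query system at the oracle itself -/
theorem ans_eq (hω : R.AdmW ω) (τ : List Bool) : R.ans ω τ = (R.sys τ).a (R.O ω) :=
  step_congr hω fun _ h1 => ansN_stab hω h1 (Nat.lt_succ_self _)

theorem mem_Z {m : ℕ} {w : List Bool} : w ∈ R.Z m ↔ ∃ τ : List Bool, τ.length < m ∧ w ∈ (R.sys τ).Q := by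
  simp [Par.Z]

/-- short names get the same values -/
theorem short_agree (hω : R.AdmW ω) (hω' : R.AdmW ω') {m : ℕ}
    (h0 : ∀ τ : List Bool, τ.length < m → (ω τ).1 = (ω' τ).1)
    (h1 : ∀ w ∈ R.Z m, w.head? = some false → (ω w).2 = (ω' w).2)
    (h2 : ∀ τ k u, cell τ k u ∈ R.Z m → m ≤ τ.length → (u <+: enc (ω τ).1 ↔ u <+: enc (ω' τ).1))
    {τ : List Bool} (hτ : τ.length < m) : R.ans ω τ = R.ans ω' τ := by
  induction hn : τ.length using Nat.strong_induction_on generalizing τ with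
  | _ n ih =>
    rw [ans_eq hω, ans_eq hω']
    refine (R.sys τ).dep _ _ fun w hw => orc_agree (h1 w (mem_Z.2 ⟨τ, hτ, hw⟩)) ?_
    rintro τ' k u rfl -
    by_cases hl : τ'.length < τ.length
    · rw [ih _ (hn ▸ hl) (by omega) rfl, h0 τ' (by omega)]
    · rw [pre_app_iff ((hω τ').2 τ (by omega) k u hw), pre_app_iff ((hω' τ').2 τ (by omega) k u hw)]
      by_cases hm : τ'.length < m
      · rw [h0 τ' hm]
      · exact h2 τ' k u (mem_Z.2 ⟨τ, hτ, hw⟩) (by omega)

/-- locality -/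
theorem loc (R : Par) (T : ℕ) : ∃ N, ∀ ω ω', R.AdmW ω → R.AdmW ω' → Near N ω ω' →
    ∀ w : List Bool, w.length ≤ T → (w ∈ R.O ω ↔ w ∈ R.O ω') := by
  refine ⟨max T ((R.Z T).sup List.length), fun ω ω' hω hω' h w hw => ?_⟩
  have hz : ∀ v ∈ R.Z T, v.length ≤ max T ((R.Z T).sup List.length) := fun v hv =>
    le_max_of_le_right (Finset.le_sup hv)
  refine orc_agree (fun _ => by rw [h w (le_max_of_le_left hw)]) ?_
  rintro τ m u rfl -
  rw [cell_len] at hw
  rw [h τ (le_max_of_le_left (by omega)), short_agree hω hω' (m := T)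
    (fun τ hτ => by rw [h τ (le_max_of_le_left hτ.le)]) (fun v hv _ => by rw [h v (hz v hv)])
    (fun τ k u hv _ => by
      have := hz _ hv
      rw [cell_len] at this
      rw [h τ (by omega)]) (by omega)]

theorem coded_of (hω : R.AdmW ω) {α β : Type} {j e : ℕ} {idx : α → ℕ} {idy : β → ℕ}
    {f : List α → List β} (hg : R.g = fun n => n ^ j)
    (h : ∀ x, R.tr ((R.sys (tau e idx x)).a (R.O ω)) = code idy (f x)) :
    Coded (R.O ω) j e idx idy f := fun x =>
  ⟨(ω (tau e idx x)).1, (hω _).1.le, fun u => by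
    rw [Par.O, mem_orc_cell, hg, ans_eq hω, h]; simp⟩

end Pool.Agent.P.MP_d0c5d0_lc
end

-- part Pool.Agent.P.MP_d0c5d0_lc.Count
section

/-! Counting passwords. -/

namespace Pool.Agent.P.MP_d0c5d0_lc

open Classical Function

theorem count_words (n : ℕ) :
    ∃ W : Finset (List Bool), W.card = 2 ^ n ∧ ∀ w, w ∈ W ↔ w.length = n := by
  refine ⟨Finset.univ.image (List.ofFn : (Fin n → Bool) → List Bool), ?_, fun w => ?_⟩
  · rw [Finset.card_image_of_injective _ List.ofFn_injective]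
    simp
  · simp only [Finset.mem_image, Finset.mem_univ, true_and]
    refine ⟨fun ⟨f, hf⟩ => hf ▸ List.length_ofFn, ?_⟩
    rintro rfl
    exact ⟨w.get, List.ofFn_get w⟩

theorem Z_card (R : Par) (m : ℕ) : (R.Z m).card ≤ 2 ^ (2 * m) := by
  obtain ⟨W, hW, hm⟩ := count_words m
  have h1 : (List.finite_length_lt Bool m).toFinset.card ≤ 2 ^ m := by
    rw [← hW]
    refine Finset.card_le_card_of_injOn
      (fun τ => List.replicate (m - 1 - τ.length) true ++ false :: τ) (fun τ hτ => ?_)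
      fun _ _ _ _ h => (rep_inj h).2
    have : τ.length < m := by simpa using hτ
    refine (hm _).2 ?_
    simp
    omega
  rw [two_mul, pow_add]
  refine (Finset.card_biUnion_le_card_mul _ _ (2 ^ m) fun τ hτ => (R.small τ).trans ?_).trans
    (Nat.mul_le_mul_right _ h1)
  have : τ.length < m := by simpa using hτ
  exact Nat.pow_le_pow_right two_pos ((Nat.sqrt_le_self _).trans this.le)

/-- words of a given length -/
theorem words_ex (n : ℕ) : ∃ W : Finset (List Bool), W.card = 2 ^ n ∧ ∀ w, w ∈ W ↔ w.length = n :=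
  count_words n

theorem adm_ex (R : Par) (τ : List Bool) :
    ∃ P : Finset (List Bool), 2 ^ (4 * τ.length + 2) ≤ P.card ∧ ∀ p ∈ P, R.Adm τ p := by
  obtain ⟨W, hW, hm⟩ := words_ex (4 * τ.length + 3)
  refine ⟨W.filter (R.Adm τ), ?_, fun p hp => (Finset.mem_filter.1 hp).2⟩
  have h1 : (W.filter fun p => ¬ R.Adm τ p).card ≤ (R.Z (τ.length + 1)).card := by
    refine Finset.card_le_card_of_forall_subsingleton
      (fun p w => ∃ m u, w = cell τ m u ∧ enc p <+: u) (fun p hp => ?_) ?_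
    · obtain ⟨h1, h2⟩ := Finset.mem_filter.1 hp
      by_contra h
      exact h2 ⟨(hm p).1 h1, fun τ' hτ m u hc hu =>
        h ⟨_, mem_Z.2 ⟨τ', Nat.lt_succ_of_le hτ, hc⟩, m, u, rfl, hu⟩⟩
    · rintro w - p ⟨-, m, u, rfl, hu⟩ p' ⟨-, m', u', e, hu'⟩
      exact enc_pre_inj hu ((cell_inj e).2.2 ▸ hu')
  have h2 := Finset.card_filter_add_card_filter_not (s := W) (R.Adm τ)
  have h3 := Z_card R (τ.length + 1)
  have h4 : 2 ^ (2 * (τ.length + 1)) ≤ 2 ^ (4 * τ.length + 2) :=
    Nat.pow_le_pow_right two_pos (by omega)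
  rw [hW, pow_succ] at h2
  omega

/-- one class of passwords answers all questions of `U` alike; a class with two passwords reveals none -/
theorem resolve (P U : Finset (List Bool)) (l : ℕ) (hP : ∀ p ∈ P, p.length = l) :
    ∃ P' ⊆ P, P.card ≤ (U.card + 1) * P'.card ∧
      (∀ u ∈ U, ∀ p ∈ P', ∀ p' ∈ P', (u <+: enc p ↔ u <+: enc p')) ∧
      (2 ≤ P'.card → ∀ u ∈ U, ∀ p ∈ P', ¬ enc p <+: u) := by
  have hk : ∀ p : List Bool, ∃ k ∈ insert [] (U.image (List.take (2 * l + 1))), k <+: enc p ∧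
      ∀ u ∈ U, u.take (2 * l + 1) <+: enc p → u.take (2 * l + 1) <+: k := by
    intro p
    obtain ⟨k, h1, h2⟩ := Finset.exists_max_image
      ((insert [] (U.image (List.take (2 * l + 1)))).filter (· <+: enc p)) List.length
      ⟨[], Finset.mem_filter.2 ⟨Finset.mem_insert_self _ _, List.nil_prefix⟩⟩
    obtain ⟨h3, h4⟩ := Finset.mem_filter.1 h1
    exact ⟨k, h3, h4, fun u hu h5 => List.prefix_of_prefix_length_le h5 h4 (h2 _
      (Finset.mem_filter.2 ⟨Finset.mem_insert_of_mem (Finset.mem_image_of_mem _ hu), h5⟩))⟩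
  choose key k1 k2 k3 using hk
  obtain ⟨k, -, hk⟩ := Finset.exists_max_image (insert [] (U.image (List.take (2 * l + 1))))
    (fun k => (P.filter fun p => key p = k).card) (Finset.insert_nonempty _ _)
  have main : ∀ u ∈ U, ∀ p ∈ P.filter fun p => key p = k, ∀ p' ∈ P.filter fun p => key p = k,
      u.take (2 * l + 1) <+: enc p → u.take (2 * l + 1) <+: enc p' := fun u hu p hp p' hp' h =>
    (k3 p u hu h).trans (by
      rw [(Finset.mem_filter.1 hp).2, ← (Finset.mem_filter.1 hp').2]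
      exact k2 p')
  have main2 : ∀ u ∈ U, ∀ p ∈ P.filter fun p => key p = k, ∀ p' ∈ P.filter fun p => key p = k,
      u <+: enc p → u <+: enc p' := by
    intro u hu p hp p' hp' h
    have h1 := h.length_le
    rw [enc_len, hP p (Finset.mem_filter.1 hp).1] at h1
    have h2 := main u hu p hp p' hp'
    rw [List.take_of_length_le h1] at h2
    exact h2 h
  refine ⟨P.filter fun p => key p = k, Finset.filter_subset _ _, ?_,
    fun u hu p hp p' hp' => ⟨main2 u hu p hp p' hp', main2 u hu p' hp' p hp⟩,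
    fun h2 u hu p hp h => ?_⟩
  · refine (Finset.card_le_mul_card_image_of_maps_to (fun p _ => k1 p) _ hk).trans ?_
    rw [mul_comm]
    exact Nat.mul_le_mul_right _ ((Finset.card_insert_le _ _).trans
      (Nat.succ_le_succ Finset.card_image_le))
  · obtain ⟨p', hp', hne⟩ := Finset.exists_mem_ne h2 p
    have h3 := main u hu p hp p' hp'
    rw [← hP p (Finset.mem_filter.1 hp).1, ← enc_len, ← List.prefix_iff_eq_take.1 h] at h3
    exact hne (enc_pre_inj List.prefix_rfl (h3 List.prefix_rfl))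

/-- an input whose long cells avoid a small set -/
theorem fresh_ex (S : Finset (List Bool)) (K n : ℕ) (h : S.card < 2 ^ n) :
    ∃ x : List Bool, x.length = n ∧ ∀ i, hard K x i ∉ S := by
  obtain ⟨W, hW, hm⟩ := words_ex n
  by_contra hc
  refine h.not_ge (hW ▸ Finset.card_le_card_of_forall_subsingleton
    (fun x w => ∃ i, w = hard K x i) (fun x hx => ?_) ?_)
  · by_contra h1
    exact hc ⟨x, (hm x).1 hx, fun i hi => h1 ⟨_, hi, i, rfl⟩⟩
  · rintro w - x ⟨hx, i, rfl⟩ x' ⟨hx', i', e⟩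
    exact (hard_inj (((hm x).1 hx).trans ((hm x').1 hx').symm) e).1

/-- finite extension argument -/
theorem fusion (R : Par) (Rq : ℕ → World → Prop)
    (h : ∀ e ω N, R.AdmW ω → ∃ ω' N', R.AdmW ω' ∧ Near N ω ω' ∧
      ∀ ω'', R.AdmW ω'' → Near N' ω' ω'' → Rq e ω'') : ∃ ω, R.AdmW ω ∧ ∀ e, Rq e ω := by
  have h0 : ∀ τ, ∃ p, R.Adm τ p := fun τ => by
    obtain ⟨P, h1, h2⟩ := adm_ex R τ
    obtain ⟨p, hp⟩ := Finset.card_pos.1 ((Nat.two_pow_pos _).trans_le h1)
    exact ⟨p, h2 p hp⟩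
  choose p hp using h0
  have h1 : ∀ (e : ℕ) (c : {ω // R.AdmW ω} × ℕ), ∃ c' : {ω // R.AdmW ω} × ℕ, c.2 < c'.2 ∧
      Near c.2 c.1.1 c'.1.1 ∧ ∀ ω'', R.AdmW ω'' → Near c'.2 c'.1.1 ω'' → Rq e ω'' := by
    intro e c
    obtain ⟨ω', N', a1, a2, a3⟩ := h e c.1.1 c.2 c.1.2
    exact ⟨(⟨ω', a1⟩, max N' (c.2 + 1)), lt_max_of_lt_right (Nat.lt_succ_self _), a2,
      fun ω'' b1 b2 => a3 ω'' b1 fun w hw => b2 w (le_max_of_le_left hw)⟩
  choose F f1 f2 f3 using h1
  obtain ⟨s, hs⟩ : ∃ s : ℕ → {ω // R.AdmW ω} × ℕ, ∀ e, s (e + 1) = F e (s e) :=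
    ⟨fun n => Nat.rec (⟨fun τ => (p τ, true), hp⟩, 0) F n, fun _ => rfl⟩
  have mono : StrictMono fun e => (s e).2 := strictMono_nat_of_lt_succ fun e => by
    rw [hs]
    exact f1 e _
  have near : ∀ e e', e ≤ e' → Near (s e).2 (s e).1.1 (s e').1.1 := by
    intro e e' he
    induction he with
    | refl => exact fun _ _ => rfl
    | step he ih =>
      intro w hw
      rw [ih w hw, Nat.succ_eq_add_one, hs]
      exact f2 _ _ w (hw.trans (mono.monotone he))
  refine ⟨fun w => (s w.length).1.1 w, fun τ => (s τ.length).1.2 τ, fun e => f3 e (s e) _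
    (fun τ => (s τ.length).1.2 τ) fun w hw => ?_⟩
  rw [← hs] at hw ⊢
  rcases le_total (e + 1) w.length with q | q
  · exact near _ _ q w hw
  · exact (near _ _ q w (mono.id_le _)).symm

end Pool.Agent.P.MP_d0c5d0_lc
end

-- part Pool.Agent.P.MP_d0c5d0_lc.AdvA
section

/-! Families of worlds kept by the adversary. -/

namespace Pool.Agent.P.MP_d0c5d0_lc

open Classical Function

variable (R : Par) (ω : World) (K : ℕ) (x : List Bool)

/-- free bits: the long cells of `x` spell `y`, the short cell of `y` is `b` -/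
noncomputable def fr (y : List Bool) (b : Bool) (w : List Bool) : Bool :=
  if ∃ i, w = hard K x i then decide (∃ i, w = hard K x i ∧ y[i]? = some true)
  else if w = bet y then b else (ω w).2

noncomputable def Wd (π : List Bool → List Bool) (y : List Bool) (b : Bool) : World :=
  fun w => (π w, fr ω K x y b w)

/-- candidate passwords, candidate values, committed names -/
structure St where
  P : List Bool → Finset (List Bool)
  Y : Finset (List Bool)
  Cm : Finset (List Bool)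

def St.In (σ : St) (π : List Bool → List Bool) (y : List Bool) : Prop := (∀ τ, π τ ∈ σ.P τ) ∧ y ∈ σ.Y

structure Good (m : ℕ) (σ : St) : Prop where
  adm : ∀ τ, ∀ p ∈ σ.P τ, R.Adm τ p
  short : ∀ τ : List Bool, τ.length < m → σ.P τ = {(ω τ).1}
  ylen : ∀ y ∈ σ.Y, y.length = x.length
  one : ∀ τ ∈ σ.Cm, ∃ p, σ.P τ = {p}
  val : ∀ τ : List Bool, (τ.length < m ∨ τ ∈ σ.Cm) → ∀ π y b π' y' b', σ.In π y → σ.In π' y' →
    R.tr (R.ans (Wd ω K x π y b) τ) = R.tr (R.ans (Wd ω K x π' y' b') τ)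

/-- the question `u` is answered alike by all of `P` and reveals no stored value -/
def Pat (P : Finset (List Bool)) (u : List Bool) : Prop :=
  (∀ p ∈ P, ∀ p' ∈ P, (u <+: enc p ↔ u <+: enc p')) ∧ ∀ p ∈ P, ¬ enc p <+: u

variable {R ω K x} {m : ℕ} {σ : St}

theorem Pat.sub {P P' : Finset (List Bool)} {u} (h : Pat P u) (h' : P' ⊆ P) : Pat P' u :=
  ⟨fun p hp p' hp' => h.1 p (h' hp) p' (h' hp'), fun p hp => h.2 p (h' hp)⟩

theorem fr_eq {y y' b b' w} (h1 : w ≠ bet y) (h2 : w ≠ bet y') (h : y = y' ∨ ∀ i, w ≠ hard K x i) :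
    fr ω K x y b w = fr ω K x y' b' w := by
  unfold fr
  rw [if_neg h1, if_neg h2]
  rcases h with rfl | h
  · rfl
  · rw [if_neg (by simpa using h), if_neg (by simpa using h)]

theorem Good.admW (G : Good R ω K x m σ) {π y} (h : σ.In π y) (b) : R.AdmW (Wd ω K x π y b) :=
  fun τ => G.adm τ _ (h.1 τ)

theorem Good.same (G : Good R ω K x m σ) {π y π' y'} (h : σ.In π y) (h' : σ.In π' y') {τ : List Bool}
    (hτ : τ.length < m ∨ τ ∈ σ.Cm) : π τ = π' τ := by
  have h1 := h.1 τ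
  have h2 := h'.1 τ
  rcases hτ with hτ | hτ
  · rw [G.short τ hτ, Finset.mem_singleton] at h1 h2; rw [h1, h2]
  · obtain ⟨p, hp⟩ := G.one τ hτ
    rw [hp, Finset.mem_singleton] at h1 h2; rw [h1, h2]

theorem Good.agree (G : Good R ω K x m σ) {π y b π' y' b' w} (h : σ.In π y) (h' : σ.In π' y')
    (hf : fr ω K x y b w = fr ω K x y' b' w)
    (hc : ∀ τ k u, w = cell τ k u → R.g τ.length ≤ k → m ≤ τ.length → τ ∉ σ.Cm → Pat (σ.P τ) u) :
    w ∈ R.O (Wd ω K x π y b) ↔ w ∈ R.O (Wd ω K x π' y' b') := by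
  refine orc_agree (fun _ => hf) fun τ k u hw hk => ?_
  by_cases hτ : τ.length < m ∨ τ ∈ σ.Cm
  · show u <+: enc (π τ) ++ _ ↔ u <+: enc (π' τ) ++ _
    rw [G.same h h' hτ, G.val τ hτ π y b π' y' b' h h']
  · have := hc τ k u hw hk (by omega) (fun h => hτ (Or.inr h))
    show u <+: enc (π τ) ++ _ ↔ u <+: enc (π' τ) ++ _
    rw [pre_app_iff (this.2 _ (h.1 τ)), pre_app_iff (this.2 _ (h'.1 τ))]
    exact this.1 _ (h.1 τ) _ (h'.1 τ)

/-- shrinking the candidate sets -/
theorem Good.shrink (G : Good R ω K x m σ) {P' : List Bool → Finset (List Bool)} {Y'}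
    (h1 : ∀ τ, P' τ ⊆ σ.P τ) (h2 : ∀ τ : List Bool, τ.length < m ∨ τ ∈ σ.Cm → P' τ = σ.P τ)
    (h3 : Y' ⊆ σ.Y) : Good R ω K x m ⟨P', Y', σ.Cm⟩ where
  adm τ p hp := G.adm τ p (h1 τ hp)
  short τ hτ := (h2 τ (Or.inl hτ)).trans (G.short τ hτ)
  ylen y hy := G.ylen y (h3 hy)
  one τ hτ := by rw [show St.P _ τ = P' τ from rfl, h2 τ (Or.inr hτ)]; exact G.one τ hτ
  val τ hτ π y b π' y' b' h h' := G.val τ hτ π y b π' y' b' ⟨fun τ => h1 τ (h.1 τ), h3 h.2⟩
    ⟨fun τ => h1 τ (h'.1 τ), h3 h'.2⟩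

theorem resolve_all (P : List Bool → Finset (List Bool)) (hP : ∀ τ, ∀ p ∈ P τ, R.Adm τ p)
    (S : Finset (List Bool)) (E : List Bool → Prop) :
    ∃ P' : List Bool → Finset (List Bool), (∀ τ, P' τ ⊆ P τ) ∧ (∀ τ, E τ → P' τ = P τ) ∧
      ∀ τ, ¬ E τ → (P τ).card ≤ (S.card + 1) * (P' τ).card ∧
        (∀ k u, cell τ k u ∈ S → ∀ p ∈ P' τ, ∀ p' ∈ P' τ, (u <+: enc p ↔ u <+: enc p')) ∧
        (2 ≤ (P' τ).card → ∀ k u, cell τ k u ∈ S → Pat (P' τ) u) := by
  let uc : List Bool → List Bool → List Bool := fun τ w =>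
    if h : ∃ q : ℕ × List Bool, w = cell τ q.1 q.2 then h.choose.2 else []
  have huc : ∀ τ k u, uc τ (cell τ k u) = u := by
    intro τ k u
    have h : ∃ q : ℕ × List Bool, cell τ k u = cell τ q.1 q.2 := ⟨(k, u), rfl⟩
    simp only [uc, dif_pos h]
    exact (cell_inj h.choose_spec).2.2.symm
  choose F h1 h2 h3 h4 using fun τ => resolve (P τ) (S.image (uc τ)) _ fun p hp => (hP τ p hp).1
  refine ⟨fun τ => if E τ then P τ else F τ, fun τ => ?_, fun τ hτ => if_pos hτ, fun τ hτ => ?_⟩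
  · dsimp only
    split_ifs
    · exact subset_rfl
    · exact h1 τ
  · have hm : ∀ k u, cell τ k u ∈ S → u ∈ S.image (uc τ) := fun k u h =>
      Finset.mem_image.2 ⟨_, h, huc τ k u⟩
    simp only [if_neg hτ]
    exact ⟨(h2 τ).trans (Nat.mul_le_mul_right _ (Nat.succ_le_succ Finset.card_image_le)),
      fun k u h => h3 τ u (hm k u h), fun h k u hu => ⟨h3 τ u (hm k u hu), h4 τ h u (hm k u hu)⟩⟩

theorem card_drop_bet (Y S : Finset (List Bool)) :
    Y.card ≤ (Y.filter fun y => bet y ∉ S).card + S.card := by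
  rw [← Finset.card_filter_add_card_filter_not (s := Y) (fun y => bet y ∉ S)]
  refine Nat.add_le_add_left (Finset.card_le_card_of_injOn bet (fun y hy => ?_)
    fun _ _ _ _ h => bet_inj h) _
  simpa using (Finset.mem_filter.1 hy).2

/-- the starting family -/
theorem start_ex (hω : R.AdmW ω) (hx : ∀ i, hard K x i ∉ R.Z m) :
    ∃ σ : St, Good R ω K x m σ ∧ σ.Cm = ∅ ∧ 2 ^ x.length ≤ σ.Y.card + 2 ^ (2 * m) ∧
      ∀ τ : List Bool, m ≤ τ.length → 2 ^ (4 * τ.length + 2) ≤ (2 ^ (2 * m) + 1) * (σ.P τ).card := by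
  choose A hA1 hA2 using adm_ex R
  obtain ⟨W, hW1, hW2⟩ := words_ex x.length
  let P0 : List Bool → Finset (List Bool) := fun τ => if τ.length < m then {(ω τ).1} else A τ
  have hP0 : ∀ τ, ∀ p ∈ P0 τ, R.Adm τ p := by
    intro τ p hp
    simp only [P0] at hp
    split_ifs at hp
    · rw [Finset.mem_singleton.1 hp]; exact hω τ
    · exact hA2 τ p hp
  obtain ⟨P, h1, h2, h3⟩ := resolve_all P0 hP0 (R.Z m) fun τ => τ.length < m
  have hs : ∀ τ : List Bool, τ.length < m → P τ = {(ω τ).1} := fun τ hτ => (h2 τ hτ).trans (if_pos hτ)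
  have hz := Z_card R m
  refine ⟨⟨P, W.filter fun y => bet y ∉ R.Z m, ∅⟩, ⟨fun τ p hp => hP0 τ p (h1 τ hp), hs,
    fun y hy => (hW2 y).1 (Finset.mem_filter.1 hy).1, by simp, ?_⟩, rfl, ?_, fun τ hτ => ?_⟩
  · intro τ hτ π y b π' y' b' h h'
    rw [short_agree (R := R) (ω := Wd ω K x π y b) (ω' := Wd ω K x π' y' b') (m := m)
      (fun τ => hP0 τ _ (h1 τ (h.1 τ))) (fun τ => hP0 τ _ (h1 τ (h'.1 τ))) (fun τ hτ => ?_)
      (fun w hw _ => ?_) (fun τ k u hw hτ => ?_) (by simpa using hτ)]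
    · have a := h.1 τ
      have a' := h'.1 τ
      rw [show St.P _ τ = P τ from rfl, hs τ hτ, Finset.mem_singleton] at a a'
      exact a.trans a'.symm
    · refine fr_eq ?_ ?_ (Or.inr fun i hi => hx i (hi ▸ hw))
      · rintro rfl; exact (Finset.mem_filter.1 h.2).2 hw
      · rintro rfl; exact (Finset.mem_filter.1 h'.2).2 hw
    · exact (h3 τ (by omega)).2.1 k u hw _ (h.1 τ) _ (h'.1 τ)
  · have := card_drop_bet W (R.Z m)
    dsimp only; omega
  · have h4 := (h3 τ (by omega)).1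
    have h5 := hA1 τ
    simp only [P0, if_neg (show ¬ τ.length < m by omega)] at h4
    exact h5.trans (h4.trans (Nat.mul_le_mul_right _ (by omega)))

/-- fixing the password and the stored value of one more name -/
theorem commit_ex (G : Good R ω K x m σ) (htr : ∀ a, R.tr a = [] ∨ R.tr a = [false]) {τ₀ p : List Bool}
    (hp : p ∈ σ.P τ₀) (hm : m ≤ τ₀.length) (h0 : τ₀ ∉ σ.Cm) {q : ℕ} (hq : (R.sys τ₀).Q.card ≤ q)
    (hbig : ∀ τ : List Bool, m ≤ τ.length → τ ∉ σ.Cm → τ ≠ τ₀ → q + 1 < (σ.P τ).card) :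
    ∃ σ' : St, Good R ω K x m σ' ∧ σ'.Cm = insert τ₀ σ.Cm ∧ (∀ π y, σ'.In π y → σ.In π y) ∧
      σ.Y.card ≤ 2 * σ'.Y.card + q ∧
      ∀ τ : List Bool, m ≤ τ.length → τ ∉ σ'.Cm → (σ.P τ).card ≤ (q + 1) * (σ'.P τ).card := by
  have hu : ∀ τ, update σ.P τ₀ {p} τ ⊆ σ.P τ := by
    intro τ
    by_cases h : τ = τ₀
    · subst h; simpa using hp
    · rw [update_of_ne h]
  obtain ⟨P, h1, h2, h3⟩ := resolve_all (update σ.P τ₀ {p}) (fun τ p hp => G.adm τ p (hu τ hp))
    (R.sys τ₀).Q fun τ => τ.length < m ∨ τ ∈ σ.Cm ∨ τ = τ₀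
  have hP0 : P τ₀ = {p} := by rw [h2 τ₀ (by simp), update_self]
  have h4 : ∀ τ : List Bool, m ≤ τ.length → τ ∉ σ.Cm → τ ≠ τ₀ →
      (σ.P τ).card ≤ (q + 1) * (P τ).card := by
    intro τ a b c
    have := (h3 τ (by simp [b, c]; omega)).1
    rw [update_of_ne c] at this
    exact this.trans (Nat.mul_le_mul_right _ (by omega))
  set Y₁ := σ.Y.filter fun y => bet y ∉ (R.sys τ₀).Q with hY₁
  have G1 : Good R ω K x m ⟨P, Y₁, σ.Cm⟩ := G.shrink (fun τ => (h1 τ).trans (hu τ))
    (fun τ hτ => by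
      rw [h2 τ (by tauto), update_of_ne]
      rintro rfl
      rcases hτ with h | h
      · omega
      · exact h0 h) (Finset.filter_subset _ _)
  have key : ∀ π π' y b b', St.In ⟨P, Y₁, σ.Cm⟩ π y → St.In ⟨P, Y₁, σ.Cm⟩ π' y →
      R.ans (Wd ω K x π y b) τ₀ = R.ans (Wd ω K x π' y b') τ₀ := by
    intro π π' y b b' h h'
    rw [ans_eq (G1.admW h b), ans_eq (G1.admW h' b')]
    refine (R.sys τ₀).dep _ _ fun w hw => ?_
    have hb : w ≠ bet y := by rintro rfl; exact (Finset.mem_filter.1 h.2).2 hw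
    refine G1.agree h h' (fr_eq hb hb (Or.inl rfl)) ?_
    rintro τ k u rfl - a b
    by_cases c : τ = τ₀
    · subst c
      rw [show St.P _ τ = P τ from rfl, hP0]
      refine ⟨by simp, fun p' hp' => ?_⟩
      rw [Finset.mem_singleton.1 hp']
      exact (G.adm τ p hp).2 τ le_rfl k u hw
    · refine (h3 τ (by simp [show τ ∉ σ.Cm from b, c]; omega)).2.2 ?_ k u hw
      have h5 := h4 τ a b c
      have h6 := hbig τ a b c
      by_contra h7
      have : (q + 1) * (P τ).card ≤ (q + 1) * 1 := Nat.mul_le_mul_left _ (by omega)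
      omega
  let e : List Bool → Prop := fun y => ∀ π b, St.In ⟨P, Y₁, σ.Cm⟩ π y →
    R.tr (R.ans (Wd ω K x π y b) τ₀) = []
  obtain ⟨Y₂, hs, hc, v, hv⟩ : ∃ Y₂ ⊆ Y₁, Y₁.card ≤ 2 * Y₂.card ∧ ∃ v, ∀ y ∈ Y₂, ∀ π b,
      St.In ⟨P, Y₁, σ.Cm⟩ π y → R.tr (R.ans (Wd ω K x π y b) τ₀) = v := by
    have hsum := Finset.card_filter_add_card_filter_not (s := Y₁) e
    by_cases hle : (Y₁.filter fun y => ¬ e y).card ≤ (Y₁.filter e).card
    · exact ⟨_, Finset.filter_subset e _, by omega, [], fun y hy => (Finset.mem_filter.1 hy).2⟩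
    · refine ⟨_, Finset.filter_subset (fun y => ¬ e y) _, by omega, [false], fun y hy π b h => ?_⟩
      have := (Finset.mem_filter.1 hy).2
      simp only [e, not_forall] at this
      obtain ⟨π', b', h', hne⟩ := this
      rw [key π π' y b b' h h']
      exact (htr _).resolve_left hne
  have hin : ∀ π y, St.In ⟨P, Y₂, insert τ₀ σ.Cm⟩ π y → St.In ⟨P, Y₁, σ.Cm⟩ π y :=
    fun π y h => ⟨h.1, hs h.2⟩
  refine ⟨⟨P, Y₂, insert τ₀ σ.Cm⟩, ⟨G1.adm, G1.short, fun y hy => G1.ylen y (hs hy), ?_, ?_⟩, rfl,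
    fun π y h => ⟨fun τ => hu τ (h1 τ (h.1 τ)), Finset.filter_subset _ _ (hs h.2)⟩, ?_, ?_⟩
  · intro τ hτ
    rcases Finset.mem_insert.1 hτ with rfl | hτ
    · exact ⟨p, hP0⟩
    · exact G1.one τ hτ
  · intro τ hτ π y b π' y' b' h h'
    by_cases c : τ = τ₀
    · subst c; rw [hv y h.2 π b (hin _ _ h), hv y' h'.2 π' b' (hin _ _ h')]
    · exact G1.val τ (by simpa [c] using hτ) π y b π' y' b' (hin _ _ h) (hin _ _ h')
  · have := card_drop_bet σ.Y (R.sys τ₀).Q
    rw [← hY₁] at this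
    dsimp only; omega
  · intro τ a b
    simp only [Finset.mem_insert, not_or] at b
    exact h4 τ a b.2 b.1

theorem hardF_Wd (π) {y : List Bool} (hy : y.length = x.length) (b) :
    hardF (R.O (Wd ω K x π y b)) K x = y := by
  refine List.ext_getElem (by rw [hardF_len, hy]) fun i h1 h2 => ?_
  have : hard K x i ∈ R.O (Wd ω K x π y b) ↔ y[i] = true := by
    rw [Par.O, mem_orc_free (by simp [hard])]
    simp only [Wd, fr, if_pos (⟨i, rfl⟩ : ∃ i', hard K x i = hard K x i'), decide_eq_true_eq]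
    constructor
    · rintro ⟨i', h3, h4⟩
      obtain ⟨-, rfl⟩ := hard_inj rfl h3
      rw [List.getElem?_eq_getElem h2] at h4; exact Option.some.inj h4
    · exact fun h => ⟨i, rfl, by rw [List.getElem?_eq_getElem h2, h]⟩
  simp [hardF, this]

theorem bet_Wd (π) (y : List Bool) (b) : bet y ∈ R.O (Wd ω K x π y b) ↔ b = true := by
  rw [Par.O, mem_orc_free (by simp [bet])]
  simp [Wd, fr, (hard_ne_bet K x y _).symm]

theorem Good.near (G : Good R ω K x m σ) {π y} (h : σ.In π y) (b) {N : ℕ} (hN : N < m)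
    (hm : m ≤ x.length) : Near N ω (Wd ω K x π y b) := by
  intro w hw
  have h1 := h.1 w
  rw [G.short w (by omega), Finset.mem_singleton] at h1
  have h2 : ¬ ∃ i, w = hard K x i := by rintro ⟨i, rfl⟩; rw [hard_len] at hw; omega
  have h3 : w ≠ bet y := by
    rintro rfl
    have := G.ylen y h.2
    simp [bet] at hw; omega
  simp [Wd, fr, h1, h2, h3]

end Pool.Agent.P.MP_d0c5d0_lc
end

-- part Pool.Agent.P.MP_d0c5d0_lc.Game
section

/-! A deterministic machine as a query game. -/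

namespace Pool.Agent.P.MP_d0c5d0_lc

open Classical Function

/-- each move either asks the word on the query tape and erases it, or ignores the oracle -/
def IsGame {Cf : Type} (st : Set (List Bool) → Cf → Cf) (qt : Cf → List Bool) : Prop :=
  ∀ c, (∀ O, qt (st O c) = [] ∧ ∀ O', (qt c ∈ O ↔ qt c ∈ O') → st O c = st O' c) ∨
    ∀ O, (qt (st O c)).length ≤ (qt c).length + 1 ∧ ∀ O', st O c = st O' c

/-- the step function of a machine: use some allowed action, stay when there is none -/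
noncomputable def gameSt {α β : Type} (M : TM α β) (x : List α) (O : Set (List Bool)) (c : M.Cfg) :
    M.Cfg :=
  if h : (M.δ c.1 (inp x c.2.ih) c.2.rd).Nonempty then
    (nxt O c.2 h.some, c.2.upd x.length h.some.1) else c

theorem game_step {α β : Type} {M : TM α β} (hM : M.Det) {x : List α} {O : Set (List Bool)}
    {c c' : M.Cfg} (h : M.Step O x c c') : gameSt M x O c = c' := by
  obtain ⟨a, ha, rfl⟩ := h
  have n : (M.δ c.1 (inp x c.2.ih) c.2.rd).Nonempty := ⟨a, ha⟩
  rw [gameSt, dif_pos n, hM _ _ _ n.some_mem ha]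

theorem game_run {α β : Type} {M : TM α β} (hM : M.Det) {x : List α} {O : Set (List Bool)}
    {c c' : M.Cfg} {t : ℕ} (h : M.Run O x c t c') : (gameSt M x O)^[t] c = c' := by
  induction h with
  | nil c => rfl
  | cons h1 _ ih => rw [iterate_succ_apply, game_step hM h1, ih]

theorem game_ex {α β : Type} (M : TM α β) (hM : M.Det) (x : List α) :
    ∃ st : Set (List Bool) → M.Cfg → M.Cfg, IsGame st (fun c => c.2.qt) ∧
      ∀ O t T c, M.Ends O x t c → t ≤ T → (st O)^[T] M.init = c := by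
  refine ⟨gameSt M x, fun c => ?_, fun O t T c h ht => ?_⟩
  · by_cases n : (M.δ c.1 (inp x c.2.ih) c.2.rd).Nonempty
    · simp only [gameSt, dif_pos n]
      by_cases q : n.some.1.qo = Qop.ask
      · refine Or.inl fun O => ⟨?_, fun O' e => ?_⟩
        · simp only [Dat.upd, q]
        · simp only [nxt, e]
      · refine Or.inr fun O => ⟨upd_qt_le _ _ _, fun O' => ?_⟩
        simp only [nxt, q, false_and, if_false]
    · simp only [gameSt, dif_neg n]
      exact Or.inr fun O => ⟨Nat.le_succ _, fun _ => trivial⟩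
  · obtain ⟨d, rfl⟩ := Nat.exists_eq_add_of_le' ht
    rw [iterate_add_apply, game_run hM h.1]
    refine iterate_fixed ?_ d
    rw [gameSt, dif_neg (by rw [h.2]; exact Set.not_nonempty_empty)]

end Pool.Agent.P.MP_d0c5d0_lc
end

-- part Pool.Agent.P.MP_d0c5d0_lc.Adv
section

/-! The adversary against deterministic machines. -/

namespace Pool.Agent.P.MP_d0c5d0_lc

open Classical Function

/-- numerical side conditions -/
structure Num (R : Par) (j K m n T q r : ℕ) : Prop where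
  g : R.g = fun n => n ^ j
  m1 : 1 ≤ m
  tK : T < n ^ K
  rr : ∀ a, a * m ^ (j + 1) ≤ T → a ≤ r
  qq : ∀ τ : List Bool, τ.length ^ (j + 1) ≤ T → (R.sys τ).Q.card ≤ q
  qr : (q + 1) ^ (r + 1) ≤ 2 ^ m
  tr : T < m ^ (j + 1) ∨ ∀ a, R.tr a = [] ∨ R.tr a = [false]
  yy : 2 ^ r * (T + r * q + 2 ^ (2 * m)) < 2 ^ n

section

variable {R : Par} {ω : World} {x : List Bool} {j K m T q r : ℕ} {Cf : Type}
  (st : Set (List Bool) → Cf → Cf) (qt : Cf → List Bool) (c₀ : Cf)

structure Inv (R : Par) (ω : World) (x : List Bool) (j K m q t : ℕ) (σ : St) (cnt : List Bool → ℕ)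
    (c : Cf) : Prop where
  good : Good R ω K x m σ
  big : ∀ τ : List Bool, m ≤ τ.length → τ ∉ σ.Cm → cnt τ < τ.length ∧
    2 ^ (4 * τ.length + 2) ≤ (2 ^ (2 * m) + 1) * 2 ^ cnt τ * (q + 1) ^ σ.Cm.card * (σ.P τ).card
  com : ∀ τ ∈ σ.Cm, m ≤ τ.length ∧ τ.length ≤ cnt τ
  cost : ∀ U : Finset (List Bool), ∑ τ ∈ U, cnt τ * τ.length ^ j + (qt c).length ≤ t
  ys : 2 ^ x.length ≤ 2 ^ σ.Cm.card * (σ.Y.card + t + σ.Cm.card * q + 2 ^ (2 * m))
  run : ∀ π y b, σ.In π y → (st (R.O (Wd ω K x π y b)))^[t] c₀ = c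

variable {st qt c₀}

theorem adv_card {Cm : Finset (List Bool)} {cnt : List Bool → ℕ} (hN : Num R j K m x.length T q r)
    (h1 : ∀ τ ∈ Cm, m ≤ τ.length ∧ τ.length ≤ cnt τ) (h2 : ∑ τ ∈ Cm, cnt τ * τ.length ^ j ≤ T) :
    Cm.card ≤ r := by
  refine hN.rr _ (le_trans ?_ h2)
  rw [← smul_eq_mul, ← Finset.sum_const]
  refine Finset.sum_le_sum fun τ hτ => ?_
  rw [pow_succ, mul_comm]
  exact Nat.mul_le_mul ((h1 τ hτ).1.trans (h1 τ hτ).2) (Nat.pow_le_pow_left (h1 τ hτ).1 _)

theorem adv_size (hN : Num R j K m x.length T q r) {l c a e p : ℕ} (hl : m ≤ l) (hc : c ≤ l)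
    (ha : a + e ≤ r + 1) (h : 2 ^ (4 * l + 2) ≤ (2 ^ (2 * m) + 1) * 2 ^ c * (q + 1) ^ a * p) :
    2 * (q + 1) ^ e ≤ p := by
  have h1 : 2 ^ (2 * m) + 1 ≤ 2 ^ (2 * l + 1) := by
    have := Nat.pow_le_pow_right (show 0 < 2 by norm_num) (show 2 * m ≤ 2 * l by omega)
    have := Nat.one_le_two_pow (n := 2 * l)
    rw [pow_succ]; omega
  have h2 : 2 ^ c ≤ 2 ^ l := Nat.pow_le_pow_right (by norm_num) hc
  have h3 : (q + 1) ^ a * (q + 1) ^ e ≤ 2 ^ l := by
    rw [← pow_add]
    exact (Nat.pow_le_pow_right (by omega) ha).trans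
      (hN.qr.trans (Nat.pow_le_pow_right (by norm_num) hl))
  have h4 : (2 ^ (2 * m) + 1) * 2 ^ c * (q + 1) ^ a * (2 * (q + 1) ^ e) ≤ 2 ^ (4 * l + 2) :=
    calc _ = (2 ^ (2 * m) + 1) * 2 ^ c * ((q + 1) ^ a * (q + 1) ^ e) * 2 := by ring
      _ ≤ 2 ^ (2 * l + 1) * 2 ^ l * 2 ^ l * 2 := by gcongr
      _ = _ := by ring
  exact Nat.le_of_mul_le_mul_left (h4.trans h) (by positivity)

/-- answering one question -/
theorem adv_ask (hN : Num R j K m x.length T q r) {t : ℕ} (ht : t < T) {σ cnt c}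
    (I : Inv st qt c₀ R ω x j K m q t σ cnt c) :
    ∃ (σ' : St) (cnt' : List Bool → ℕ), Good R ω K x m σ' ∧ (∀ π y, σ'.In π y → σ.In π y) ∧
      (∀ π y b π' y' b', σ'.In π y → σ'.In π' y' →
        (qt c ∈ R.O (Wd ω K x π y b) ↔ qt c ∈ R.O (Wd ω K x π' y' b'))) ∧
      (∀ τ : List Bool, m ≤ τ.length → τ ∉ σ'.Cm → cnt' τ < τ.length ∧ 2 ^ (4 * τ.length + 2) ≤
        (2 ^ (2 * m) + 1) * 2 ^ cnt' τ * (q + 1) ^ σ'.Cm.card * (σ'.P τ).card) ∧
      (∀ τ ∈ σ'.Cm, m ≤ τ.length ∧ τ.length ≤ cnt' τ) ∧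
      (∀ U : Finset (List Bool), ∑ τ ∈ U, cnt' τ * τ.length ^ j ≤ t) ∧
      2 ^ x.length ≤ 2 ^ σ'.Cm.card * (σ'.Y.card + (t + 1) + σ'.Cm.card * q + 2 ^ (2 * m)) := by
  set w := qt c with hw
  have hwl : w.length ≤ t := by have := I.cost ∅; simpa using this
  have hr : σ.Cm.card ≤ r := adv_card hN I.com (by have := I.cost σ.Cm; omega)
  set Y₁ := σ.Y.filter fun y => bet y ∉ ({w} : Finset (List Bool)) with hY₁
  have hY : σ.Y.card ≤ Y₁.card + 1 := card_drop_bet σ.Y {w}
  have hys : 2 ^ x.length ≤ 2 ^ σ.Cm.card * (Y₁.card + (t + 1) + σ.Cm.card * q + 2 ^ (2 * m)) :=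
    I.ys.trans (Nat.mul_le_mul_left _ (by omega))
  have hfr : ∀ y ∈ Y₁, ∀ y' ∈ Y₁, ∀ b b', fr ω K x y b w = fr ω K x y' b' w := by
    intro y hy y' hy' b b'
    refine fr_eq ?_ ?_ (Or.inr fun i hi => ?_)
    · have := (Finset.mem_filter.1 hy).2; simpa [eq_comm] using this
    · have := (Finset.mem_filter.1 hy').2; simpa [eq_comm] using this
    · have := hN.tK; rw [hi, hard_len] at hwl; omega
  by_cases hc : ∃ τ k u, w = cell τ k u ∧ R.g τ.length ≤ k ∧ m ≤ τ.length ∧ τ ∉ σ.Cm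
  swap
  · have G1 : Good R ω K x m ⟨σ.P, Y₁, σ.Cm⟩ :=
      I.good.shrink (fun _ => subset_rfl) (fun _ _ => rfl) (Finset.filter_subset _ _)
    refine ⟨⟨σ.P, Y₁, σ.Cm⟩, cnt, G1, fun π y h => ⟨h.1, Finset.filter_subset _ _ h.2⟩,
      fun π y b π' y' b' h h' => G1.agree h h' (hfr y h.2 y' h'.2 b b') fun τ k u a b c d =>
        absurd ⟨τ, k, u, a, b, c, d⟩ hc, I.big, I.com, fun U => ?_, hys⟩
    have := I.cost U; omega
  obtain ⟨τ₀, k, u, hcell, hk, hm, h0⟩ := hc
  obtain ⟨P₀, hs, hcard, hp1, hp2⟩ := resolve (σ.P τ₀) {u} _ fun p hp => (I.good.adm τ₀ p hp).1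
  rw [Finset.card_singleton] at hcard
  set cnt' := update cnt τ₀ (cnt τ₀ + 1) with hcnt
  have hb0 : 2 ^ (4 * τ₀.length + 2) ≤
      (2 ^ (2 * m) + 1) * 2 ^ (cnt τ₀ + 1) * (q + 1) ^ σ.Cm.card * P₀.card :=
    (I.big τ₀ hm h0).2.trans (by
      calc _ ≤ (2 ^ (2 * m) + 1) * 2 ^ cnt τ₀ * (q + 1) ^ σ.Cm.card * ((1 + 1) * P₀.card) := by gcongr
        _ = _ := by ring)
  have h2 : 2 ≤ P₀.card := by
    simpa using adv_size hN (e := 0) hm (I.big τ₀ hm h0).1 (by omega) hb0
  have hpat : Pat P₀ u := ⟨hp1 u (by simp), hp2 h2 u (by simp)⟩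
  have hu : ∀ τ, update σ.P τ₀ P₀ τ ⊆ σ.P τ := by
    intro τ
    by_cases h : τ = τ₀
    · subst h; simpa using hs
    · rw [update_of_ne h]
  have G1 : Good R ω K x m ⟨update σ.P τ₀ P₀, Y₁, σ.Cm⟩ := I.good.shrink hu (fun τ hτ => by
    rw [update_of_ne]
    rintro rfl
    rcases hτ with h | h
    · omega
    · exact h0 h) (Finset.filter_subset _ _)
  have hin : ∀ π y, St.In ⟨update σ.P τ₀ P₀, Y₁, σ.Cm⟩ π y → σ.In π y :=
    fun π y h => ⟨fun τ => hu τ (h.1 τ), Finset.filter_subset _ _ h.2⟩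
  have hag : ∀ π y b π' y' b', St.In ⟨update σ.P τ₀ P₀, Y₁, σ.Cm⟩ π y →
      St.In ⟨update σ.P τ₀ P₀, Y₁, σ.Cm⟩ π' y' →
      (w ∈ R.O (Wd ω K x π y b) ↔ w ∈ R.O (Wd ω K x π' y' b')) :=
    fun π y b π' y' b' h h' => G1.agree h h' (hfr y h.2 y' h'.2 b b') fun τ k' u' a _ _ _ => by
      obtain ⟨rfl, -, rfl⟩ := cell_inj (hcell.symm.trans a)
      simpa using hpat
  have hcost : ∀ U : Finset (List Bool), ∑ τ ∈ U, cnt' τ * τ.length ^ j ≤ t := by
    intro U
    have h3 := I.cost U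
    have h4 : τ₀.length ^ j ≤ w.length := by
      rw [hcell, cell_len]; rw [hN.g] at hk; dsimp only at hk; omega
    have h5 : ∑ τ ∈ U, cnt' τ * τ.length ^ j ≤ ∑ τ ∈ U, (cnt τ * τ.length ^ j +
        if τ = τ₀ then τ₀.length ^ j else 0) := Finset.sum_le_sum fun τ _ => by
      by_cases h : τ = τ₀
      · subst h; simp [hcnt, add_mul]
      · simp [hcnt, h]
    rw [Finset.sum_add_distrib, Finset.sum_ite_eq'] at h5
    rw [← hw] at h3
    split_ifs at h5 <;> omega
  have hbig : ∀ τ : List Bool, m ≤ τ.length → τ ∉ σ.Cm → τ ≠ τ₀ → cnt' τ < τ.length ∧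
      2 ^ (4 * τ.length + 2) ≤ (2 ^ (2 * m) + 1) * 2 ^ cnt' τ * (q + 1) ^ σ.Cm.card *
        (update σ.P τ₀ P₀ τ).card := by
    intro τ a b h
    rw [hcnt, update_of_ne h, update_of_ne h]; exact I.big τ a b
  have hcom : ∀ τ ∈ σ.Cm, m ≤ τ.length ∧ τ.length ≤ cnt' τ := by
    intro τ hτ
    rw [hcnt, update_of_ne (by rintro rfl; exact h0 hτ)]; exact I.com τ hτ
  by_cases hlt : cnt τ₀ + 1 < τ₀.length
  · refine ⟨_, cnt', G1, hin, hag, fun τ a b => ?_, hcom, hcost, hys⟩
    by_cases h : τ = τ₀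
    · subst h; simpa [hcnt] using ⟨hlt, hb0⟩
    · exact hbig τ a b h
  have hT : τ₀.length ^ (j + 1) ≤ T := by
    have := hcost {τ₀}
    rw [Finset.sum_singleton, hcnt, update_self] at this
    rw [pow_succ, mul_comm]
    exact (Nat.mul_le_mul_right _ (by omega)).trans (this.trans ht.le)
  have htr := hN.tr.resolve_left (by have := Nat.pow_le_pow_left hm (j + 1); omega)
  obtain ⟨p, hp⟩ : P₀.Nonempty := Finset.card_pos.1 (by omega)
  obtain ⟨σ', G', hCm, hin', hY', hP'⟩ := commit_ex G1 htr (τ₀ := τ₀) (p := p) (by simpa using hp)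
    hm h0 (hN.qq τ₀ hT) fun τ a b h => by
      have := adv_size hN (e := 1) a (hbig τ a b h).1.le (by omega) (hbig τ a b h).2
      rw [pow_one] at this
      show q + 1 < (update σ.P τ₀ P₀ τ).card
      omega
  have hcd : σ'.Cm.card = σ.Cm.card + 1 := by rw [hCm, Finset.card_insert_of_notMem h0]
  refine ⟨σ', cnt', G', fun π y h => hin π y (hin' π y h),
    fun π y b π' y' b' h h' => hag _ _ _ _ _ _ (hin' _ _ h) (hin' _ _ h'), fun τ a b => ?_,
    fun τ hτ => ?_, hcost, ?_⟩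
  · have b' := b
    rw [hCm, Finset.mem_insert, not_or] at b'
    refine ⟨(hbig τ a b'.2 b'.1).1, (hbig τ a b'.2 b'.1).2.trans ?_⟩
    have := hP' τ a b
    calc _ ≤ (2 ^ (2 * m) + 1) * 2 ^ cnt' τ * (q + 1) ^ σ.Cm.card * ((q + 1) * (σ'.P τ).card) := by
          gcongr
      _ = _ := by rw [hcd]; ring
  · rw [hCm] at hτ
    rcases Finset.mem_insert.1 hτ with rfl | hτ
    · exact ⟨hm, by rw [hcnt, update_self]; omega⟩
    · exact hcom τ hτ
  · refine hys.trans ?_
    rw [hcd, pow_succ, mul_assoc]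
    refine Nat.mul_le_mul_left _ ?_
    dsimp only at hY'
    rw [add_mul]
    generalize 2 ^ (2 * m) = z
    generalize σ.Cm.card * q = v
    omega

theorem adv_step (hN : Num R j K m x.length T q r) (hG : IsGame st qt) {t : ℕ} (ht : t < T) {σ cnt c}
    (I : Inv st qt c₀ R ω x j K m q t σ cnt c) :
    ∃ σ' cnt' c', Inv st qt c₀ R ω x j K m q (t + 1) σ' cnt' c' := by
  rcases hG c with h | h
  · obtain ⟨σ', cnt', G, hin, hag, hb, hc, hcost, hy⟩ := adv_ask hN ht I
    refine ⟨σ', cnt', st {w | ∃ π y b, σ'.In π y ∧ w ∈ R.O (Wd ω K x π y b)} c, G, hb, hc,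
      fun U => ?_, hy, fun π y b hπ => ?_⟩
    · rw [(h _).1]; have := hcost U; simp; omega
    · rw [iterate_succ_apply', I.run π y b (hin π y hπ)]
      exact (h _).2 _ ⟨fun hw => ⟨π, y, b, hπ, hw⟩,
        fun ⟨π', y', b', h', hw⟩ => (hag _ _ _ _ _ _ hπ h').2 hw⟩
  · refine ⟨σ, cnt, st ∅ c, I.good, I.big, I.com, fun U => ?_,
      I.ys.trans (Nat.mul_le_mul_left _ (by omega)), fun π y b hπ => ?_⟩
    · have := I.cost U; have := (h ∅).1; omega
    · rw [iterate_succ_apply', I.run π y b hπ]; exact (h _).2 _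

theorem adv_core (hN : Num R j K m x.length T q r) (hG : IsGame st qt) (h0 : qt c₀ = [])
    (hω : R.AdmW ω) (hx : ∀ i, hard K x i ∉ R.Z m) :
    ∃ σ π y, Good R ω K x m σ ∧ σ.In π y ∧
      (st (R.O (Wd ω K x π y true)))^[T] c₀ = (st (R.O (Wd ω K x π y false)))^[T] c₀ := by
  have key : ∀ t ≤ T, ∃ σ cnt c, Inv st qt c₀ R ω x j K m q t σ cnt c := by
    intro t ht
    induction t with
    | zero =>
      obtain ⟨σ, G, h1, h2, h3⟩ := start_ex hω hx
      refine ⟨σ, fun _ => 0, c₀, G, fun τ a _ => ⟨by have := hN.m1; omega, by simpa [h1] using h3 τ a⟩,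
        by simp [h1], by simp [h0], by simpa [h1] using h2, fun _ _ _ _ => rfl⟩
    | succ t ih =>
      obtain ⟨σ, cnt, c, I⟩ := ih (by omega)
      exact adv_step hN hG (by omega) I
  obtain ⟨σ, cnt, c, I⟩ := key T le_rfl
  have hr : σ.Cm.card ≤ r := adv_card hN I.com (by have := I.cost σ.Cm; omega)
  have hP : ∀ τ, (σ.P τ).Nonempty := by
    intro τ
    by_cases a : τ.length < m
    · rw [I.good.short τ a]; simp
    by_cases b : τ ∈ σ.Cm
    · obtain ⟨p, hp⟩ := I.good.one τ b; rw [hp]; simp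
    · have := adv_size hN (e := 0) (not_lt.1 a) (I.big τ (not_lt.1 a) b).1.le (by omega)
        (I.big τ (not_lt.1 a) b).2
      rw [pow_zero] at this
      exact Finset.card_pos.1 (by omega)
  obtain ⟨y, hy⟩ : σ.Y.Nonempty := by
    rw [← Finset.card_pos]
    by_contra h
    have h1 := I.ys
    rw [show σ.Y.card = 0 by omega, zero_add] at h1
    exact absurd (h1.trans (by gcongr; norm_num)) (not_le.2 hN.yy)
  choose π hπ using hP
  exact ⟨σ, π, y, I.good, ⟨hπ, hy⟩, by rw [I.run π y _ ⟨hπ, hy⟩, I.run π y _ ⟨hπ, hy⟩]⟩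

end

theorem adv_exp (k s : ℕ) : ∀ᶠ m : ℕ in Filter.atTop, s * (8 * m) ^ k ≤ 2 ^ m := by
  have h := tendsto_pow_const_div_const_pow_of_one_lt (k + 1) (r := 2) (by norm_num)
  filter_upwards [h.eventually (gt_mem_nhds one_pos), Filter.eventually_ge_atTop (s * 8 ^ k)]
    with m hm h1
  rw [div_lt_one (by positivity)] at hm
  have h2 : m ^ (k + 1) < 2 ^ m := by exact_mod_cast hm
  calc s * (8 * m) ^ k = s * 8 ^ k * m ^ k := by rw [mul_pow]; ring
    _ ≤ m ^ (k + 1) := by rw [pow_succ, mul_comm (m ^ k)]; gcongr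
    _ ≤ _ := h2.le

theorem adv_num (R : Par) (j K k s N : ℕ) (hK : k < K) (hg : R.g = fun n => n ^ j)
    (hk : k ≤ j ∨ (k ≤ j + 1 ∧ ∀ a, R.tr a = [] ∨ R.tr a = [false])) :
    ∃ m q r, N < m ∧ Num R j K m (4 * m) (s * (4 * m + 1) ^ k) q r := by
  set r := s * 8 ^ (j + 1) with hr
  obtain ⟨m, h1, h2⟩ := ((adv_exp k s).and (Filter.eventually_ge_atTop
    (N + s * 8 ^ k + 32 * (s + 1) * (r + 1) ^ 2 + 2 * r + 3))).exists
  have hm : 1 ≤ m := by omega
  have hT : s * (4 * m + 1) ^ k ≤ s * 8 ^ k * m ^ k := by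
    rw [mul_assoc, ← mul_pow]; gcongr; omega
  have hk' : k ≤ j + 1 := by omega
  have hmk : 0 < m ^ k := by positivity
  have hlt : s * (4 * m + 1) ^ k < m ^ (k + 1) := by
    refine hT.trans_lt ?_
    rw [pow_succ, mul_comm (m ^ k)]; gcongr; omega
  set a := Nat.sqrt ((s + 1) * (8 * m)) with ha
  have h3 : (a + 1) * (r + 1) ≤ m := by
    have h4 : a * a ≤ (s + 1) * (8 * m) := Nat.sqrt_le _
    have h5 : 2 * (a * (r + 1)) ≤ m := by
      by_contra h
      have h6 : m * m < (2 * (a * (r + 1))) * (2 * (a * (r + 1))) := Nat.mul_self_lt_mul_self (by omega)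
      have h7 : (2 * (a * (r + 1))) * (2 * (a * (r + 1))) ≤ 32 * (s + 1) * (r + 1) ^ 2 * m :=
        calc _ = 4 * (a * a) * (r + 1) ^ 2 := by ring
          _ ≤ 4 * ((s + 1) * (8 * m)) * (r + 1) ^ 2 := by gcongr
          _ = _ := by ring
      have h8 : 32 * (s + 1) * (r + 1) ^ 2 * m ≤ m * m := by gcongr; omega
      omega
    rw [add_mul]; omega
  have hT2 : s * (4 * m + 1) ^ k ≤ 2 ^ m := le_trans (by gcongr; omega) h1
  refine ⟨m, 2 ^ a, r, by omega, hg, hm, ?_, fun b hb => ?_, fun τ hτ => ?_, ?_, ?_, ?_⟩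
  · exact hlt.trans_le ((Nat.pow_le_pow_left (by omega) _).trans (Nat.pow_le_pow_right (by omega) hK))
  · have : b * m ^ (j + 1) ≤ r * m ^ (j + 1) := hb.trans (hT.trans (by rw [hr]; gcongr; norm_num))
    exact Nat.le_of_mul_le_mul_right this (by positivity)
  · refine (R.small τ).trans (Nat.pow_le_pow_right (by norm_num) (Nat.sqrt_le_sqrt ?_))
    refine (Nat.pow_le_pow_iff_left (show j + 1 ≠ 0 by omega)).1 (hτ.trans ?_)
    rw [mul_pow]
    refine Nat.mul_le_mul ((Nat.le_succ s).trans (Nat.le_self_pow (by omega) _)) ?_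
    exact (Nat.pow_le_pow_left (by omega) _).trans (Nat.pow_le_pow_right (by omega) hk')
  · calc (2 ^ a + 1) ^ (r + 1) ≤ (2 ^ (a + 1)) ^ (r + 1) := by
          gcongr; have := Nat.one_le_two_pow (n := a); rw [pow_succ]; omega
      _ ≤ 2 ^ m := by rw [← pow_mul]; gcongr; norm_num
  · exact hk.imp (fun h => hlt.trans_le (Nat.pow_le_pow_right hm (by omega))) And.right
  · have h4 : r * 2 ^ a ≤ 2 ^ m :=
      calc r * 2 ^ a ≤ 2 ^ r * 2 ^ a := by gcongr; exact Nat.lt_two_pow_self.le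
        _ ≤ 2 ^ m := by rw [← pow_add]; gcongr; norm_num; nlinarith
    have h5 : 2 ^ m ≤ 2 ^ (2 * m) := Nat.pow_le_pow_right (by norm_num) (by omega)
    calc _ ≤ 2 ^ r * (4 * 2 ^ (2 * m)) := by gcongr; omega
      _ = 2 ^ (r + 2 + 2 * m) := by ring
      _ < 2 ^ (4 * m) := Nat.pow_lt_pow_right (by norm_num) (by omega)

theorem adv (R : Par) (j K k s : ℕ) (hK : k < K) (hj : 1 ≤ j) (hg : R.g = fun n => n ^ j)
    (hk : k ≤ j ∨ (k ≤ j + 1 ∧ ∀ a, R.tr a = [] ∨ R.tr a = [false]))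
    (ω : World) (hω : R.AdmW ω) (N : ℕ) :
    ∃ x : List Bool, ∀ (Cf : Type) (st : Set (List Bool) → Cf → Cf) (qt : Cf → List Bool) (c₀ : Cf),
      IsGame st qt → qt c₀ = [] → ∃ ω₁ ω₂, R.AdmW ω₁ ∧ R.AdmW ω₂ ∧ Near N ω ω₁ ∧ Near N ω ω₂ ∧
        (st (R.O ω₁))^[s * (x.length + 1) ^ k] c₀ = (st (R.O ω₂))^[s * (x.length + 1) ^ k] c₀ ∧
        bet (hardF (R.O ω₁) K x) ∈ R.O ω₁ ∧ bet (hardF (R.O ω₂) K x) ∉ R.O ω₂ := by
  have _ := hj
  obtain ⟨m, q, r, hm, hN⟩ := adv_num R j K k s N hK hg hk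
  obtain ⟨x, hx, hx'⟩ := fresh_ex (R.Z m) K (4 * m)
    ((Z_card R m).trans_lt (Nat.pow_lt_pow_right (by norm_num) (by omega)))
  refine ⟨x, fun Cf st qt c₀ hG h0 => ?_⟩
  rw [← hx] at hN
  obtain ⟨σ, π, y, G, hin, h⟩ := adv_core hN hG h0 hω hx'
  refine ⟨_, _, G.admW hin true, G.admW hin false, G.near hin _ hm (by omega),
    G.near hin _ hm (by omega), h, ?_, ?_⟩
  · rw [hardF_Wd π (G.ylen y hin.2), bet_Wd]
  · rw [hardF_Wd π (G.ylen y hin.2), bet_Wd]; simp

end Pool.Agent.P.MP_d0c5d0_lc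
end

-- part Pool.Agent.P.MP_d0c5d0_lc.NLow
section

/-! Two worlds that no short query separates. -/

namespace Pool.Agent.P.MP_d0c5d0_lc

open Classical Function

theorem nlow (R : Par) (K k s : ℕ) (hK : k < K) (hg : Monotone R.g)
    (hg' : ∀ᶠ n in Filter.atTop, s * (n + 1) ^ k < R.g (n / 4)) (ω : World) (hω : R.AdmW ω) (N : ℕ) :
    ∃ x ω₁ ω₂, R.AdmW ω₁ ∧ R.AdmW ω₂ ∧ Near N ω ω₁ ∧ Near N ω ω₂ ∧
      (∀ w : List Bool, w.length ≤ s * (x.length + 1) ^ k → (w ∈ R.O ω₁ ↔ w ∈ R.O ω₂)) ∧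
      (hardF (R.O ω₁) K x).head? = some true ∧ (hardF (R.O ω₂) K x).head? ≠ some true := by
  obtain ⟨n, h1, h2, h3⟩ := (hg'.and ((Filter.eventually_ge_atTop (N + 1)).and
    (Filter.eventually_ge_atTop (s * 2 ^ k)))).exists
  obtain ⟨x, rfl, hx⟩ := fresh_ex (R.Z (n / 4)) K n
    ((Z_card R _).trans_lt (Nat.pow_lt_pow_right one_lt_two (by omega)))
  set n := x.length with hn
  set c := hard K x 0 with hc
  have lc : c.length = n + 0 + n ^ K + 3 := hard_len K x 0
  have big : s * (n + 1) ^ k ≤ n ^ K :=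
    calc s * (n + 1) ^ k ≤ s * (2 * n) ^ k := Nat.mul_le_mul_left _ (Nat.pow_le_pow_left (by omega) _)
      _ ≤ n * n ^ k := by rw [mul_pow, ← mul_assoc]; exact Nat.mul_le_mul_right _ h3
      _ ≤ n ^ K := by rw [← pow_succ']; exact Nat.pow_le_pow_right (by omega) hK
  have f1 : ∀ b τ, (update ω c ((ω c).1, b) τ).1 = (ω τ).1 := fun b τ => by
    by_cases e : τ = c
    · rw [e, update_self]
    · rw [update_of_ne e]
  have ad : ∀ b, R.AdmW (update ω c ((ω c).1, b)) := fun b τ => by rw [f1]; exact hω τ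
  have ne : ∀ b, Near N ω (update ω c ((ω c).1, b)) := fun b w hw =>
    (update_of_ne (by rintro rfl; omega) _ _).symm
  have hd : ∀ b, (hardF (R.O (update ω c ((ω c).1, b))) K x).head? = some b := fun b => by
    obtain ⟨m, hm⟩ : ∃ m, n = m + 1 := ⟨n - 1, by omega⟩
    rw [hardF, ← hn, hm, List.range_succ_eq_map, List.map_cons, List.head?_cons, ← hc, Par.O,
      mem_orc_free rfl, update_self]
    simp
  refine ⟨x, _, _, ad true, ad false, ne true, ne false, fun w hw => ?_, hd true, by simp [hd]⟩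
  rw [← hn] at hw
  refine orc_agree (fun _ => ?_) ?_
  · have : w ≠ c := by rintro rfl; omega
    rw [update_of_ne this, update_of_ne this]
  · rintro τ m u rfl hm
    rw [cell_len] at hw
    by_cases hτ : τ.length < n / 4
    · rw [f1, f1, short_agree (ad true) (ad false) (fun τ _ => by rw [f1, f1]) (fun v hv _ => by
        have : v ≠ c := by rintro rfl; exact hx 0 hv
        rw [update_of_ne this, update_of_ne this]) (fun τ k u _ _ => by rw [f1, f1]) hτ]
    · have := hg (not_lt.1 hτ)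
      omega

end Pool.Agent.P.MP_d0c5d0_lc
end

-- part Pool.Agent.P.MP_d0c5d0_lc.Diag
section

/-! Diagonalisation. -/

namespace Pool.Agent.P.MP_d0c5d0_lc

open Classical Function

/-- the machine stops within `T` steps and accepts iff `b` -/
def diagOk (M : TM Bool Empty) (O : Set (List Bool)) (x : List Bool) (T : ℕ) (b : Prop) : Prop :=
  ∃ t ≤ T, ∃ c, M.Ends O x t c ∧ (c.1 ∈ M.acc ↔ b)

theorem diag_congr {M : TM Bool Empty} {O O' : Set (List Bool)} {x : List Bool} {T : ℕ} {b : Prop}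
    (hO : ∀ w : List Bool, w.length ≤ T → (w ∈ O ↔ w ∈ O')) (h : diagOk M O x T b) :
    diagOk M O' x T b := by
  obtain ⟨t, ht, c, h1, h2⟩ := h
  exact ⟨t, ht, c, h1.congr hO ht, h2⟩

theorem diag_stab (R : Par) (K : ℕ) (x : List Bool) (T : ℕ) : ∃ N, ∀ ω ω', R.AdmW ω → R.AdmW ω' →
    Near N ω ω' → (∀ w : List Bool, w.length ≤ T → (w ∈ R.O ω' ↔ w ∈ R.O ω)) ∧
      hardF (R.O ω') K x = hardF (R.O ω) K x ∧
      (bet (hardF (R.O ω') K x) ∈ R.O ω' ↔ bet (hardF (R.O ω) K x) ∈ R.O ω) := by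
  obtain ⟨N, hN⟩ := loc R (T + 2 * x.length + x.length ^ K + 3)
  refine ⟨N, fun ω ω' hω hω' h => ?_⟩
  have h0 := hN ω ω' hω hω' h
  have h1 : hardF (R.O ω') K x = hardF (R.O ω) K x := by
    unfold hardF
    refine List.map_congr_left fun i hi => ?_
    have hi' := List.mem_range.1 hi
    rw [decide_eq_decide]
    exact (h0 _ (by rw [hard_len]; omega)).symm
  refine ⟨fun w hw => (h0 w (by omega)).symm, h1, ?_⟩
  rw [h1]
  refine (h0 _ ?_).symm
  simp only [bet, List.length_cons, hardF_len]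
  omega

theorem diag_fusion (R : Par) {ι : Type} [Countable ι] [Nonempty ι] (Rq : ι → World → Prop)
    (h : ∀ e ω N, R.AdmW ω → ∃ ω' N', R.AdmW ω' ∧ Near N ω ω' ∧
      ∀ ω'', R.AdmW ω'' → Near N' ω' ω'' → Rq e ω'') : ∃ ω, R.AdmW ω ∧ ∀ e, Rq e ω := by
  obtain ⟨f, hf⟩ := exists_surjective_nat ι
  obtain ⟨ω, h1, h2⟩ := fusion R (fun n => Rq (f n)) fun n => h (f n)
  refine ⟨ω, h1, fun e => ?_⟩
  obtain ⟨n, rfl⟩ := hf e
  exact h2 n

theorem diag_D (R : Par) (j K k s : ℕ) (hK : k < K) (hj : 1 ≤ j) (hg : R.g = fun n => n ^ j)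
    (hk : k ≤ j ∨ (k ≤ j + 1 ∧ ∀ a, R.tr a = [] ∨ R.tr a = [false]))
    (M : TM Bool Empty) (hM : M.Det) (ω : World) (hω : R.AdmW ω) (N : ℕ) :
    ∃ ω' N', R.AdmW ω' ∧ Near N ω ω' ∧ ∀ ω'', R.AdmW ω'' → Near N' ω' ω'' →
      ∃ x, ¬ diagOk M (R.O ω'') x (s * (x.length + 1) ^ k)
        (bet (hardF (R.O ω'') K x) ∈ R.O ω'') := by
  obtain ⟨x, hx⟩ := adv R j K k s hK hj hg hk ω hω N
  obtain ⟨st, hst, hrun⟩ := game_ex M hM x
  obtain ⟨ω₁, ω₂, a1, a2, n1, n2, he, b1, b2⟩ := hx M.Cfg st (fun c => c.2.qt) M.init hst rfl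
  obtain ⟨N', hN'⟩ := diag_stab R K x (s * (x.length + 1) ^ k)
  have key : ∀ ω', R.AdmW ω' → ¬ diagOk M (R.O ω') x (s * (x.length + 1) ^ k)
      (bet (hardF (R.O ω') K x) ∈ R.O ω') → ∀ ω'', R.AdmW ω'' → Near N' ω' ω'' →
      ∃ x, ¬ diagOk M (R.O ω'') x (s * (x.length + 1) ^ k)
        (bet (hardF (R.O ω'') K x) ∈ R.O ω'') := by
    intro ω' a' hn ω'' a'' hnear
    obtain ⟨h1, -, h3⟩ := hN' ω' ω'' a' a'' hnear
    refine ⟨x, fun h => hn ?_⟩
    rw [propext h3] at h
    exact diag_congr h1 h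
  by_cases h1 : diagOk M (R.O ω₁) x (s * (x.length + 1) ^ k) (bet (hardF (R.O ω₁) K x) ∈ R.O ω₁)
  · refine ⟨ω₂, N', a2, n2, key ω₂ a2 ?_⟩
    rintro ⟨t₂, ht₂, c₂, e₂, f₂⟩
    obtain ⟨t₁, ht₁, c₁, e₁, f₁⟩ := h1
    rw [hrun _ _ _ _ e₁ ht₁, hrun _ _ _ _ e₂ ht₂] at he
    exact b2 (f₂.1 (he ▸ f₁.2 b1))
  · exact ⟨ω₁, N', a1, n1, key ω₁ a1 h1⟩

theorem diag_N (R : Par) (K k s : ℕ) (hK : k < K) (hg : Monotone R.g)
    (hg' : ∀ᶠ n in Filter.atTop, s * (n + 1) ^ k < R.g (n / 4))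
    (M : TM Bool Empty) (ω : World) (hω : R.AdmW ω) (N : ℕ) :
    ∃ ω' N', R.AdmW ω' ∧ Near N ω ω' ∧ ∀ ω'', R.AdmW ω'' → Near N' ω' ω'' →
      ∃ x, ¬ ((hardF (R.O ω'') K x).head? = some true ↔
        diagOk M (R.O ω'') x (s * (x.length + 1) ^ k) True) := by
  obtain ⟨x, ω₁, ω₂, a1, a2, n1, n2, he, b1, b2⟩ := nlow R K k s hK hg hg' ω hω N
  obtain ⟨N', hN'⟩ := diag_stab R K x (s * (x.length + 1) ^ k)
  have key : ∀ ω', R.AdmW ω' → ¬ ((hardF (R.O ω') K x).head? = some true ↔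
      diagOk M (R.O ω') x (s * (x.length + 1) ^ k) True) → ∀ ω'', R.AdmW ω'' → Near N' ω' ω'' →
      ∃ x, ¬ ((hardF (R.O ω'') K x).head? = some true ↔
        diagOk M (R.O ω'') x (s * (x.length + 1) ^ k) True) := by
    intro ω' a' hn ω'' a'' hnear
    obtain ⟨h1, h2, -⟩ := hN' ω' ω'' a' a'' hnear
    refine ⟨x, fun h => hn ?_⟩
    rw [← h2, h]
    exact ⟨diag_congr h1, diag_congr fun w hw => (h1 w hw).symm⟩
  by_cases h1 : diagOk M (R.O ω₁) x (s * (x.length + 1) ^ k) True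
  · exact ⟨ω₂, N', a2, n2, key ω₂ a2 fun h => b2 (h.2 (diag_congr he h1))⟩
  · exact ⟨ω₁, N', a1, n1, key ω₁ a1 fun h => h1 (h.1 b1)⟩

/-- requirement lists: `D` = exponents `(K, k)` against deterministic time, `Nn` against
nondeterministic time -/
theorem diag (R : Par) (D Nn : Set (ℕ × ℕ))
    (hD : ∀ q ∈ D, ∃ j, q.2 < q.1 ∧ 1 ≤ j ∧ (R.g = fun n => n ^ j) ∧
      (q.2 ≤ j ∨ (q.2 ≤ j + 1 ∧ ∀ a, R.tr a = [] ∨ R.tr a = [false])))
    (hN : ∀ q ∈ Nn, q.2 < q.1 ∧ Monotone R.g ∧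
      ∀ s, ∀ᶠ n in Filter.atTop, s * (n + 1) ^ q.2 < R.g (n / 4)) :
    ∃ ω, R.AdmW ω ∧
      (∀ q ∈ D, ¬ DTIME (R.O ω) q.2 {x | bet (hardF (R.O ω) q.1 x) ∈ R.O ω}) ∧
      ∀ q ∈ Nn, ¬ NTIME (R.O ω) q.2 {x | (hardF (R.O ω) q.1 x).head? = some true} := by
  obtain ⟨fam, hfam⟩ := enum_ex
  obtain ⟨ω, hω, hR⟩ := diag_fusion R (ι := ((ℕ × ℕ) × ℕ × ℕ) ⊕ ((ℕ × ℕ) × ℕ × ℕ))
    (Sum.elim
      (fun e ω => e.1 ∈ D → (fam e.2.1).Det → ∃ x, ¬ diagOk (fam e.2.1) (R.O ω) x
        (e.2.2 * (x.length + 1) ^ e.1.2) (bet (hardF (R.O ω) e.1.1 x) ∈ R.O ω))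
      (fun e ω => e.1 ∈ Nn → ∃ x, ¬ ((hardF (R.O ω) e.1.1 x).head? = some true ↔
        diagOk (fam e.2.1) (R.O ω) x (e.2.2 * (x.length + 1) ^ e.1.2) True))) (by
    rintro (⟨q, i, s⟩ | ⟨q, i, s⟩) ω N hω
    · by_cases h : q ∈ D ∧ (fam i).Det
      · obtain ⟨j, h1, h2, h3, h4⟩ := hD q h.1
        obtain ⟨ω', N', a, b, c⟩ := diag_D R j q.1 q.2 s h1 h2 h3 h4 (fam i) h.2 ω hω N
        exact ⟨ω', N', a, b, fun ω'' a' b' _ _ => c ω'' a' b'⟩
      · exact ⟨ω, 0, hω, fun _ _ => rfl, fun _ _ _ h1 h2 => absurd ⟨h1, h2⟩ h⟩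
    · by_cases h : q ∈ Nn
      · obtain ⟨h1, h2, h3⟩ := hN q h
        obtain ⟨ω', N', a, b, c⟩ := diag_N R q.1 q.2 s h1 h2 (h3 s) (fam i) ω hω N
        exact ⟨ω', N', a, b, fun ω'' a' b' _ => c ω'' a' b'⟩
      · exact ⟨ω, 0, hω, fun _ _ => rfl, fun _ _ _ h1 => absurd h1 h⟩)
  refine ⟨ω, hω, ?_, ?_⟩
  · rintro q hq ⟨M, hM, s, hs⟩
    obtain ⟨i, h1, h2⟩ := hfam M
    obtain ⟨x, hx⟩ := hR (Sum.inl (q, i, s)) hq (h1 hM)
    obtain ⟨t, ht, hc⟩ := hs x
    exact hx ⟨t, ht, (h2 _ _ _ _).1 hc⟩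
  · rintro q hq ⟨M, s, hs⟩
    obtain ⟨i, -, h2⟩ := hfam M
    obtain ⟨x, hx⟩ := hR (Sum.inr (q, i, s)) hq
    refine hx ⟨fun h => ?_, ?_⟩
    · obtain ⟨t, ht, c, h3, h4⟩ := (hs x).1 h
      exact ⟨t, ht, (h2 _ _ _ _).1 ⟨c, h3, iff_true_intro h4⟩⟩
    · rintro ⟨t, -, hc⟩
      obtain ⟨c, h3, h4⟩ := (h2 _ _ _ _).2 hc
      exact (hs x).2 t c h3 (h4.2 trivial)

end Pool.Agent.P.MP_d0c5d0_lc
end

-- part Pool.Agent.P.MP_d0c5d0_lc.Main
section

/-! Oracles with prescribed thresholds, and the deterministic gap. -/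

namespace Pool.Agent.P.MP_d0c5d0_lc

open Classical Function

theorem loglin_hard (O : Set (List Bool)) (K : ℕ) (B : Set (List Bool)) :
    LogLin O {x | hardF O K x ∈ B} B :=
  ⟨hardF O K, hard_fun O K, ⟨1, fun x => by rw [hardF_len]; omega⟩, fun _ => Iff.rfl⟩

theorem ev_pow {k j : ℕ} (h : k < j) (s : ℕ) :
    ∀ᶠ n in Filter.atTop, s * (n + 1) ^ k < (n / 4) ^ j := by
  filter_upwards [Filter.eventually_ge_atTop (4 * (s * 8 ^ k + 1))] with n hn
  have h1 : s * 8 ^ k + 1 ≤ n / 4 := by omega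
  have h2 : (n + 1) ^ k ≤ 8 ^ k * (n / 4) ^ k := by
    rw [← mul_pow]; exact Nat.pow_le_pow_left (by omega) _
  have h3 : (n / 4) ^ (k + 1) ≤ (n / 4) ^ j := Nat.pow_le_pow_right (by omega) h
  have h4 : 0 < (n / 4) ^ k := Nat.pow_pos (by omega)
  calc s * (n + 1) ^ k ≤ s * (8 ^ k * (n / 4) ^ k) := Nat.mul_le_mul_left _ h2
    _ < (s * 8 ^ k + 1) * (n / 4) ^ k := by nlinarith
    _ ≤ (n / 4) ^ (k + 1) := by rw [pow_succ, mul_comm]; exact Nat.mul_le_mul_left _ h1
    _ ≤ _ := h3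

theorem ev_exp (k s : ℕ) : ∀ᶠ n in Filter.atTop, s * (n + 1) ^ k < 2 ^ (n / 4) := by
  have h := tendsto_pow_const_div_const_pow_of_one_lt (k + 1) (r := 2) (by norm_num)
  have h1 : ∀ᶠ m : ℕ in Filter.atTop, m ^ (k + 1) < 2 ^ m := by
    filter_upwards [h.eventually (gt_mem_nhds one_pos)] with m hm
    rw [div_lt_one (by positivity)] at hm
    exact_mod_cast hm
  obtain ⟨a, ha⟩ := Filter.eventually_atTop.1 h1
  filter_upwards [ev_pow (Nat.lt_succ_self k) s, Filter.eventually_ge_atTop (4 * a)] with n h2 h3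
  exact h2.trans (ha _ (by omega))

theorem thresholds_fin (j : ℕ) (hj : 1 ≤ j) : ∃ O : Set (List Bool), ∀ k, 1 ≤ k →
    (Closed O (DTIME O k) ↔ j < k) ∧ (Closed O (NTIME O k) ↔ j ≤ k) := by
  obtain ⟨sys, h1, h2⟩ := univ_sys
  let R : Par := ⟨sys, h1, fun n => n ^ j, id⟩
  obtain ⟨ω, hω, hD, hN⟩ := diag R {(j + 1, j)} {(j + 1, j - 1)}
    (by rintro q rfl; exact ⟨j, by simp, hj, rfl, Or.inl le_rfl⟩)
    (by rintro q rfl
        exact ⟨by simp, fun a b h => Nat.pow_le_pow_left h _, ev_pow (by simp; omega)⟩)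
  have hc : ∀ (α β : Type) [Finite α] [Finite β] (f : List α → List β), LogFun (R.O ω) f →
      ∃ (e : ℕ) (idx : α → ℕ) (idy : β → ℕ), Injective idy ∧ Coded (R.O ω) j e idx idy f := by
    intro α β _ _ f hf
    obtain ⟨e, idx, idy, h3, h4⟩ := h2 α β _ f hf
    exact ⟨e, idx, idy, h3, coded_of hω rfl h4⟩
  refine ⟨R.O ω, fun k hk => ⟨⟨fun h => ?_, fun h => ?_⟩, ⟨fun h => ?_, fun h => ?_⟩⟩⟩
  · by_contra hlt
    exact hD _ rfl ((h _ _ _ _ (loglin_hard _ (j + 1) _) (dtime_bet.mono hk)).mono (by simp; omega))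
  · rintro α β _ _ A B ⟨f, hf, ⟨s, hs⟩, hA⟩ hB
    obtain ⟨e, idx, idy, h3, h4⟩ := hc _ _ f hf
    rw [show A = {x | f x ∈ B} from Set.ext hA]
    exact dcode h3 hj h h4 s hs hB
  · by_contra hlt
    exact hN _ rfl ((h _ _ _ _ (loglin_hard _ (j + 1) _) ((dtime_head true).mono hk).ntime).mono
      (by simp; omega))
  · refine (n_iff hk).2 fun α _ A hA => ?_
    obtain ⟨e, idx, idy, -, h4⟩ := hc _ _ _ (log_fun hA)
    exact (ncode hj h4).mono h

theorem thresholds_top : ∃ O : Set (List Bool), ∀ k, 1 ≤ k →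
    ¬ Closed O (DTIME O k) ∧ ¬ Closed O (NTIME O k) := by
  obtain ⟨sys, h1, -⟩ := univ_sys
  let R : Par := ⟨sys, h1, fun n => 2 ^ n, id⟩
  obtain ⟨ω, -, -, hN⟩ := diag R ∅ {q | q.1 = q.2 + 1} (by simp)
    (fun q hq => ⟨by simp at hq; omega, fun a b h => Nat.pow_le_pow_right (by norm_num) h, ev_exp _⟩)
  refine ⟨R.O ω, fun k hk => ⟨fun h => ?_, fun h => ?_⟩⟩
  · exact hN (k + 1, k) rfl (h _ _ _ _ (loglin_hard _ (k + 1) _) ((dtime_head true).mono hk)).ntime
  · exact hN (k + 1, k) rfl (h _ _ _ _ (loglin_hard _ (k + 1) {y | y.head? = some true})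
      ((dtime_head true).mono hk).ntime)

theorem thresholds (j : ℕ∞) (hj : 1 ≤ j) : ∃ O : Set (List Bool), ∀ k : ℕ, 1 ≤ k →
    (Closed O (DTIME O k) ↔ j < k) ∧ (Closed O (NTIME O k) ↔ j ≤ k) := by
  induction j using ENat.recTopCoe with
  | top =>
    obtain ⟨O, h⟩ := thresholds_top
    exact ⟨O, fun k hk => by simpa using h k hk⟩
  | coe j =>
    obtain ⟨O, h⟩ := thresholds_fin j (by exact_mod_cast hj)
    exact ⟨O, fun k hk => by simpa using h k hk⟩

theorem gap (k : ℕ) (hk : 2 ≤ k) :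
    ∃ O : Set (List Bool), HasLog O (DTIME O k) ∧ ¬ Closed O (DTIME O k) := by
  obtain ⟨sys, h1, h2⟩ := univ_sys
  let R : Par := ⟨sys, h1, fun n => n ^ (k - 1), fun a => if a = [] then [] else [false]⟩
  obtain ⟨ω, hω, hD, -⟩ := diag R {(k + 1, k)} ∅
    (by rintro q rfl
        refine ⟨k - 1, by simp, by omega, rfl, Or.inr ⟨by simp; omega, fun a => ?_⟩⟩
        by_cases h : a = [] <;> simp [R, h]) (by simp)
  refine ⟨R.O ω, fun α _ A hA => ?_, fun h => ?_⟩
  · obtain ⟨e, idx, idy, -, h4⟩ := h2 _ _ _ _ (log_fun hA)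
    have hc : Coded (R.O ω) (k - 1) e idx (fun _ : Unit => 0) (ind A) := coded_of hω rfl fun x => by
      show (if (sys _).a _ = [] then [] else [false]) = _
      rw [h4]; unfold ind; split_ifs with h5 h6 h6 <;> simp_all [code_cons, code_nil]
    have := dcode (k := k) (fun _ _ _ => rfl) (by omega) (by omega) hc 1
      (fun x => by unfold ind; split_ifs <;> simp) ((dtime_head ()).mono (by omega))
    have he : A = {x | ind A x ∈ {y : List Unit | y.head? = some ()}} := by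
      ext x; unfold ind; by_cases hx : x ∈ A <;> simp [hx]
    rwa [he]
  · exact hD _ rfl (h _ _ _ _ (loglin_hard _ (k + 1) {y | bet y ∈ R.O ω})
      (dtime_bet.mono (by omega)))

end Pool.Agent.P.MP_d0c5d0_lc
end
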